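import Pool.Agent.Helper66K9.LSG.Fub
import Pool.Agent.Helper66K9.LS.NC
set_option autoImplicit false

/-! # Local integrals of powers of the kernel -/

namespace Pool.Agent.Helper66K9.LSG

open MeasureTheory Set Filter
open scoped ENNReal FourierTransform RealInnerProductSpace Topology SchwartzMap
open Pool.Agent.TH280.LS (e norm_e e_add measurable_e continuous_e plancherel e_conj)
open Pool.Agent.Helper66K9.LS

variable {W : Type*} [NormedAddCommGroup W] [InnerProductSpace ℝ W] [FiniteDimensional ℝ W]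
  [MeasurableSpace W] [BorelSpace W]

theorem Kt_meas {N A : ℝ} {Ψ : ℝ → ℝ} (hN : 1 ≤ N) (h : Sym N A Ψ) (t : ℝ) :
    Measurable (Kt W Ψ t) := by
  have : Kt W Ψ t = fun z => (𝓕 (gS hN h t : 𝓢(W, ℂ)) : 𝓢(W, ℂ)) (-z) :=
    funext fun z => Kt_eq hN h t z
  rw [this]
  exact ((SchwartzMap.continuous _).comp continuous_neg).measurable

/-- the local `L^s` norms of the kernel -/
theorem ball_s [Nontrivial W] (s : ℝ) (hs1 : 1 ≤ s) (hs2 : s < 2) (R1 : ℝ) (hR1 : 0 ≤ R1) :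
    ∃ C : ℝ, 0 < C ∧ ∀ (N A : ℝ) (Ψ : ℝ → ℝ), 1 ≤ N → Sym N A Ψ → ∀ t : ℝ, 1 ≤ |t| → |t| ≤ 2 →
    ∀ z : W, ∫⁻ w in Metric.closedBall (0 : W) R1, ‖Kt W Ψ t (z - w)‖ₑ ^ s ≤
      ENNReal.ofReal (C * A ^ s * N ^ (((Module.finrank ℝ W : ℝ) * s - (2 - s)) / 2)) := by
  obtain ⟨C1, hC1, hc⟩ := cone_bound (W := W) R1 hR1
  set q := Module.finrank ℝ W with hq
  set cB : ℝ := volume.real (Metric.ball (0 : W) 1) with hcB
  have hcB0 : 0 ≤ cB := measureReal_nonneg
  set C2 : ℝ := (1 + (2 * q + 4) ^ 2) * (2 ^ q * cB) with hC2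
  have hC20 : 0 ≤ C2 := by positivity
  refine ⟨C2 ^ (s / 2) * C1 ^ ((2 - s) / 2) + 1, by positivity, ?_⟩
  intro N A Ψ hN h t ht1 ht2 z
  have hN0 : 0 < N := by linarith
  have hA := h.nonneg
  set wg : W → ℝ := fun v => 1 + N ^ 2 * (‖v‖ ^ 2 - t ^ 2) ^ 2 with hwg
  have hwg1 : ∀ v, 1 ≤ wg v := fun v => by
    simp only [hwg]
    have : 0 ≤ N ^ 2 * (‖v‖ ^ 2 - t ^ 2) ^ 2 := by positivity
    linarith
  have hwg0 : ∀ v, 0 < wg v := fun v => by linarith [hwg1 v]
  have hwgm : Measurable wg := by simp only [hwg]; fun_prop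
  have hKm : Measurable (Kt W Ψ t) := Kt_meas hN h t
  obtain ⟨iK, eK⟩ := Kt_L2 (W := W) hN h ht2
  have hK2 : ∫⁻ v : W, ENNReal.ofReal (wg v) * ‖Kt W Ψ t v‖ₑ ^ 2 ≤
      ENNReal.ofReal (C2 * A ^ 2 * N ^ q) := by
    have h1 : ∀ v : W, ENNReal.ofReal (wg v) * ‖Kt W Ψ t v‖ₑ ^ 2 =
        ENNReal.ofReal (wg v * ‖Kt W Ψ t v‖ ^ 2) := by
      intro v
      rw [ENNReal.ofReal_mul (hwg0 v).le, ← ofReal_norm, ENNReal.ofReal_pow (norm_nonneg _)]
    simp_rw [h1]
    rw [← ofReal_integral_eq_lintegral_ofReal iK (Eventually.of_forall fun v => by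
      have := hwg0 v
      simp only [Pi.zero_apply]
      positivity)]
    apply ENNReal.ofReal_le_ofReal
    refine eK.trans (le_of_eq ?_)
    rw [Measure.addHaar_real_closedBall _ _ (by positivity), ← hq, ← hcB, hC2, mul_pow]
    ring
  set G : W → ℝ≥0∞ := fun w => ENNReal.ofReal (wg (z - w)) with hG
  have hzm : Measurable (fun w : W => z - w) := by fun_prop
  have hGm : Measurable G := (hwgm.comp hzm).ennreal_ofReal
  have hKzm : Measurable (fun w : W => ‖Kt W Ψ t (z - w)‖ₑ) := (hKm.comp hzm).enorm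
  have hG0 : ∀ w, G w ≠ 0 := fun w => by
    simp only [hG]
    rw [Ne, ENNReal.ofReal_eq_zero, not_le]
    exact hwg0 _
  have hGt : ∀ w, G w ≠ ⊤ := fun w => ENNReal.ofReal_ne_top
  set f : W → ℝ≥0∞ := fun w => G w ^ (s / 2) * ‖Kt W Ψ t (z - w)‖ₑ ^ s with hf
  set g : W → ℝ≥0∞ := fun w => (G w ^ (s / 2))⁻¹ with hg
  have hfm : Measurable f := (hGm.pow_const _).mul (hKzm.pow_const _)
  have hgm : Measurable g := (hGm.pow_const _).inv
  have h1 : ∀ w, ‖Kt W Ψ t (z - w)‖ₑ ^ s = (f * g) w := by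
    intro w
    simp only [hf, hg, Pi.mul_apply]
    have h2 : G w ^ (s / 2) ≠ 0 := by
      rw [Ne, ENNReal.rpow_eq_zero_iff, not_or]
      exact ⟨fun h => hG0 w h.1, fun h => hGt w h.1⟩
    have h3 : G w ^ (s / 2) ≠ ⊤ := ENNReal.rpow_ne_top_of_nonneg (by positivity) (hGt w)
    rw [mul_right_comm, ENNReal.mul_inv_cancel h2 h3, one_mul]
  simp_rw [h1]
  have hs0 : 0 < s := by linarith
  have hconj : (2 / s).HolderConjugate (2 / (2 - s)) := by
    refine Real.holderConjugate_iff.2 ⟨?_, ?_⟩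
    · rw [lt_div_iff₀ hs0]; linarith
    · field_simp
      ring
  refine (ENNReal.lintegral_mul_le_Lp_mul_Lq (volume.restrict (Metric.closedBall (0 : W) R1))
    hconj hfm.aemeasurable hgm.aemeasurable).trans ?_
  have h3 : ∫⁻ w in Metric.closedBall (0 : W) R1, f w ^ (2 / s) ≤
      ENNReal.ofReal (C2 * A ^ 2 * N ^ q) := by
    refine (setLIntegral_le_lintegral _ _).trans ?_
    have h4 : ∀ w, f w ^ (2 / s) =
        (fun v => ENNReal.ofReal (wg v) * ‖Kt W Ψ t v‖ₑ ^ 2) (z - w) := by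
      intro w
      simp only [hf]
      rw [ENNReal.mul_rpow_of_nonneg _ _ (by positivity), ← ENNReal.rpow_mul, ← ENNReal.rpow_mul,
        show s / 2 * (2 / s) = 1 by field_simp, show s * (2 / s) = 2 by field_simp,
        ENNReal.rpow_one, ENNReal.rpow_two]
    simp_rw [h4]
    rw [lintegral_sub_left_eq_self (fun v => ENNReal.ofReal (wg v) * ‖Kt W Ψ t v‖ₑ ^ 2) z]
    exact hK2
  have h5 : ∫⁻ w in Metric.closedBall (0 : W) R1, g w ^ (2 / (2 - s)) ≤
      ENNReal.ofReal (C1 / N) := by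
    refine le_trans ?_ (hc N hN t ht1 ht2 z)
    refine lintegral_mono fun w => ?_
    simp only [hg]
    rw [ENNReal.inv_rpow, ← ENNReal.rpow_mul]
    refine ENNReal.inv_le_inv.2 ?_
    change G w ≤ _
    have hG1 : 1 ≤ G w := by
      simp only [hG]
      rw [← ENNReal.ofReal_one]
      exact ENNReal.ofReal_le_ofReal (hwg1 _)
    conv_lhs => rw [← ENNReal.rpow_one (G w)]
    refine ENNReal.rpow_le_rpow_of_exponent_le hG1 ?_
    have h2s : 0 < 2 - s := by linarith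
    rw [div_mul_div_comm, le_div_iff₀ (by positivity)]
    linarith
  have hx1 : (0 : ℝ) ≤ 1 / (2 / s) := by positivity
  have hx2 : (0 : ℝ) ≤ 1 / (2 / (2 - s)) := by
    have h2s : 0 < 2 - s := by linarith
    positivity
  calc (∫⁻ w in Metric.closedBall (0 : W) R1, f w ^ (2 / s)) ^ (1 / (2 / s)) *
      (∫⁻ w in Metric.closedBall (0 : W) R1, g w ^ (2 / (2 - s))) ^ (1 / (2 / (2 - s)))
      ≤ ENNReal.ofReal (C2 * A ^ 2 * N ^ q) ^ (1 / (2 / s)) *
        ENNReal.ofReal (C1 / N) ^ (1 / (2 / (2 - s))) := by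
        gcongr
    _ = ENNReal.ofReal ((C2 ^ (s / 2) * C1 ^ ((2 - s) / 2)) * A ^ s *
          N ^ (((q : ℝ) * s - (2 - s)) / 2)) := by
        rw [ENNReal.ofReal_rpow_of_nonneg (by positivity) hx1,
          ENNReal.ofReal_rpow_of_nonneg (by positivity) hx2,
          ← ENNReal.ofReal_mul (by positivity)]
        congr 1
        have e1 : 1 / (2 / s) = s / 2 := by field_simp
        have e2 : 1 / (2 / (2 - s)) = (2 - s) / 2 := by
          have h2s : 0 < 2 - s := by linarith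
          field_simp
        rw [e1, e2, Real.mul_rpow (by positivity) (by positivity), Real.mul_rpow hC20
          (by positivity), Real.div_rpow hC1.le hN0.le, ← Real.rpow_natCast A 2,
          ← Real.rpow_natCast N q, ← Real.rpow_mul hA, ← Real.rpow_mul hN0.le]
        have e3 : ((2 : ℕ) : ℝ) * (s / 2) = s := by push_cast; ring
        have e4 : N ^ (((q : ℝ) * s - (2 - s)) / 2) = N ^ ((q : ℝ) * (s / 2)) /
            N ^ ((2 - s) / 2) := by
          rw [← Real.rpow_sub hN0]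
          congr 1
          ring
        rw [e3, e4]
        ring
    _ ≤ _ := by
        apply ENNReal.ofReal_le_ofReal
        have : C2 ^ (s / 2) * C1 ^ ((2 - s) / 2) ≤ C2 ^ (s / 2) * C1 ^ ((2 - s) / 2) + 1 := by
          linarith
        gcongr

/-- diagonal substitutions -/
theorem diag_lint {k : ℕ} (b : Fin k → ℝ) (hb : ∀ i, b i ≠ 0) {g : (Fin k → ℝ) → ℝ≥0∞}
    (hg : Measurable g) : ∫⁻ w : Fin k → ℝ, g (fun i => b i * w i) =
    ENNReal.ofReal (∏ i, |b i|⁻¹) * ∫⁻ w, g w := by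
  have hdet : (Matrix.diagonal b).det ≠ 0 := by
    rw [Matrix.det_diagonal]
    exact Finset.prod_ne_zero_iff.2 fun i _ => hb i
  have h1 := Real.map_matrix_volume_pi_eq_smul_volume_pi hdet
  have h2 : (Matrix.toLin' (Matrix.diagonal b) : (Fin k → ℝ) → (Fin k → ℝ)) =
      fun w i => b i * w i := by
    funext w i
    rw [Matrix.toLin'_apply, Matrix.mulVec_diagonal]
  rw [h2] at h1
  have h3 : ∫⁻ w : Fin k → ℝ, g (fun i => b i * w i) =
      ∫⁻ w, g w ∂(Measure.map (fun (w : Fin k → ℝ) i => b i * w i) volume) := by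
    rw [lintegral_map hg (by fun_prop)]
  rw [h3, h1, lintegral_smul_measure, Matrix.det_diagonal, smul_eq_mul]
  congr 2
  rw [abs_inv, Finset.abs_prod, Finset.prod_inv_distrib]

theorem diag_lint2 {k n : ℕ} (b : Fin k → ℝ) (hb : ∀ i, b i ≠ 0)
    {Φ : (Fin k → ℝ) × (Fin n → ℝ) → ℝ≥0∞} (hΦ : Measurable Φ) :
    ∫⁻ w : (Fin k → ℝ) × (Fin n → ℝ), Φ (fun i => b i * w.1 i, w.2) =
    ENNReal.ofReal (∏ i, |b i|⁻¹) * ∫⁻ w, Φ w := by
  have hm : Measurable (fun w : (Fin k → ℝ) × (Fin n → ℝ) =>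
      Φ (fun i => b i * w.1 i, w.2)) := hΦ.comp (by fun_prop)
  rw [Measure.volume_eq_prod, lintegral_prod_symm' _ hm, lintegral_prod_symm' _ hΦ,
    ← lintegral_const_mul' _ _ ENNReal.ofReal_ne_top]
  refine lintegral_congr fun x => ?_
  exact diag_lint b hb (hΦ.comp (f := fun w : Fin k → ℝ => (w, x)) (by fun_prop))

theorem lint_pow_μ0 {α : ℝ} (hα : α < 1) :
    ∫⁻ a, ENNReal.ofReal (|a| ^ (-α)) ∂μ0 < (⊤ : ℝ≥0∞) := by
  have hm : Measurable (fun a : ℝ => ENNReal.ofReal (|a| ^ (-α))) := by fun_prop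
  rw [lint_μ0 hm]
  have h1 : ∫⁻ a in Icc (-1 : ℝ) 1, ENNReal.ofReal (|a| ^ (-α)) < (⊤ : ℝ≥0∞) := by
    have hint : IntegrableOn (fun a : ℝ => |a| ^ (-α)) (Icc (-1) 1) := by
      have h3 : IntegrableOn (fun a : ℝ => |a| ^ (-α)) (Ioc 0 1) := by
        have h4 := (intervalIntegral.intervalIntegrable_rpow' (a := 0) (b := 1) (r := -α)
          (by linarith)).1
        refine h4.congr_fun (fun x hx => ?_) measurableSet_Ioc
        simp only
        rw [abs_of_pos hx.1]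
      have h5 : IntegrableOn (fun a : ℝ => |a| ^ (-α)) (Icc 0 1) := by
        rwa [integrableOn_Icc_iff_integrableOn_Ioc]
      have h6 : IntegrableOn (fun a : ℝ => |a| ^ (-α)) (Icc (-1) 0) := by
        have h7 := h5.comp_neg
        simp only [abs_neg] at h7
        have h8 : -(Icc (0 : ℝ) 1) = Icc (-1) 0 := by
          ext x
          simp only [Set.mem_neg, mem_Icc]
          constructor <;> rintro ⟨h9, h10⟩ <;> constructor <;> linarith
        rwa [h8] at h7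
      have h9 : Icc (-1 : ℝ) 1 = Icc (-1) 0 ∪ Icc 0 1 := by
        rw [Icc_union_Icc_eq_Icc (by norm_num) (by norm_num)]
      rw [h9]
      exact h6.union h5
    have h2 := hint.2
    rw [hasFiniteIntegral_iff_ofReal] at h2
    · exact h2
    · exact Eventually.of_forall fun a => by positivity
  refine ENNReal.add_lt_top.2 ⟨ENNReal.add_lt_top.2 ⟨?_, ?_⟩, ?_⟩
  all_goals first | exact h1 | exact ENNReal.ofReal_lt_top

end Pool.Agent.Helper66K9.LSG
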