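import Pool.Agent.Helper66K9.LS.Red2
set_option autoImplicit false

/-! # Coordinates in blocks of odd dimension -/

namespace Pool.Agent.Helper66K9.LSG

open MeasureTheory Set Filter
open scoped ENNReal FourierTransform RealInnerProductSpace Topology
open Pool.Agent.TH280.LS (e norm_e e_add measurable_e continuous_e plancherel e_conj)
open Pool.Agent.H789R2.FR (sg)
open Pool.Agent.Helper66K9.LS

/-- the space of one block -/
abbrev Em (ℓ : ℕ) : Type := EuclideanSpace ℝ (Fin (2 * ℓ + 1))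
/-- the space with `k` blocks of dimension `2ℓ+1` -/
abbrev Wm (k ℓ n : ℕ) : Type := EuclideanSpace ℝ ((Fin k × Fin (2 * ℓ + 1)) ⊕ Fin n)

variable {k ℓ n : ℕ}

/-- coordinates -/
noncomputable def am (k ℓ n : ℕ) : ((Fin k → Em ℓ) × (Fin n → ℝ)) ≃ᵐ Wm k ℓ n where
  toFun q := WithLp.toLp 2 (Sum.elim (fun j => q.1 j.1 j.2) q.2)
  invFun z := (fun i => WithLp.toLp 2 fun a => z (Sum.inl (i, a)), fun j => z (Sum.inr j))
  left_inv q := rfl
  right_inv z := by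
    ext j
    rcases j with ⟨i, a⟩ | j <;> rfl
  measurable_toFun := by
    refine (WithLp.measurable_toLp 2 _).comp (measurable_pi_lambda _ fun j => ?_)
    rcases j with ⟨i, a⟩ | j
    · change Measurable fun q : (Fin k → Em ℓ) × (Fin n → ℝ) => q.1 i a
      fun_prop
    · change Measurable fun q : (Fin k → Em ℓ) × (Fin n → ℝ) => q.2 j
      fun_prop
  measurable_invFun := by
    refine Measurable.prodMk (measurable_pi_lambda _ fun i =>
      (WithLp.measurable_toLp 2 _).comp (measurable_pi_lambda _ fun a => ?_))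
      (measurable_pi_lambda _ fun j => ?_)
    · fun_prop
    · fun_prop

theorem am_inl (q : (Fin k → Em ℓ) × (Fin n → ℝ)) (i : Fin k) (a : Fin (2 * ℓ + 1)) :
    am k ℓ n q (Sum.inl (i, a)) = q.1 i a := rfl

theorem am_inr (q : (Fin k → Em ℓ) × (Fin n → ℝ)) (j : Fin n) :
    am k ℓ n q (Sum.inr j) = q.2 j := rfl

theorem am_mp (k ℓ n : ℕ) : MeasurePreserving (am k ℓ n) := by
  refine ⟨(am k ℓ n).measurable, ?_⟩
  have h1 : (am k ℓ n : (Fin k → Em ℓ) × (Fin n → ℝ) → Wm k ℓ n) =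
      (WithLp.toLp 2 : ((Fin k × Fin (2 * ℓ + 1)) ⊕ Fin n → ℝ) → Wm k ℓ n) ∘
        (WithLp.ofLp ∘ am k ℓ n) := rfl
  have hm : Measurable (WithLp.ofLp ∘ am k ℓ n) :=
    (WithLp.measurable_ofLp 2 _).comp (am k ℓ n).measurable
  rw [h1, ← Measure.map_map (WithLp.measurable_toLp 2 _) hm]
  have h2 : Measure.map (WithLp.ofLp ∘ am k ℓ n) volume =
      (volume : Measure ((Fin k × Fin (2 * ℓ + 1)) ⊕ Fin n → ℝ)) := by
    symm
    refine Measure.pi_eq fun s hs => ?_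
    rw [Measure.map_apply hm (MeasurableSet.univ_pi hs)]
    have h3 : (WithLp.ofLp ∘ am k ℓ n) ⁻¹' (pi univ s) =
        (pi univ fun i : Fin k => (WithLp.ofLp : Em ℓ → (Fin (2 * ℓ + 1) → ℝ)) ⁻¹'
          (pi univ fun a => s (Sum.inl (i, a)))) ×ˢ (pi univ fun j : Fin n => s (Sum.inr j)) := by
      ext q
      simp only [mem_preimage, Function.comp, mem_prod, mem_univ_pi]
      constructor
      · intro h
        exact ⟨fun i a => h (Sum.inl (i, a)), fun j => h (Sum.inr j)⟩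
      · rintro ⟨h4, h5⟩ (⟨i, a⟩ | j)
        · exact h4 i a
        · exact h5 j
    rw [h3, Measure.volume_eq_prod, Measure.prod_prod, volume_pi_pi, volume_pi_pi,
      Fintype.prod_sum_type, Fintype.prod_prod_type]
    congr 1
    refine Finset.prod_congr rfl fun i _ => ?_
    rw [(PiLp.volume_preserving_ofLp (Fin (2 * ℓ + 1))).measure_preimage
      (MeasurableSet.univ_pi fun a => hs _).nullMeasurableSet, volume_pi_pi]
  rw [h2]
  exact (PiLp.volume_preserving_toLp _).map_eq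

theorem am_inner (p q : (Fin k → Em ℓ) × (Fin n → ℝ)) :
    (⟪am k ℓ n p, am k ℓ n q⟫ : ℝ) = (∑ i, (⟪p.1 i, q.1 i⟫ : ℝ)) + ∑ j, p.2 j * q.2 j := by
  rw [PiLp.inner_apply, Fintype.sum_sum_type, Fintype.sum_prod_type]
  congr 1
  refine Finset.sum_congr rfl fun j _ => ?_
  rw [am_inr, am_inr]
  exact mul_comm _ _

theorem am_norm (q : (Fin k → Em ℓ) × (Fin n → ℝ)) :
    ‖am k ℓ n q‖ ^ 2 = (∑ i, ‖q.1 i‖ ^ 2) + ∑ j, q.2 j ^ 2 := by
  rw [← real_inner_self_eq_norm_sq, am_inner]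
  congr 1
  · exact Finset.sum_congr rfl fun i _ => real_inner_self_eq_norm_sq _
  · exact Finset.sum_congr rfl fun i _ => (sq _).symm

theorem norm_am_be (q : (Fin k → Em ℓ) × (Fin n → ℝ)) :
    ‖am k ℓ n q‖ = ‖be k n (fun i => ‖q.1 i‖, q.2)‖ := by
  have h : ‖am k ℓ n q‖ ^ 2 = ‖be k n (fun i => ‖q.1 i‖, q.2)‖ ^ 2 := by
    rw [am_norm, be_norm]
  exact (sq_eq_sq₀ (norm_nonneg _) (norm_nonneg _)).1 h

theorem int_am (g : Wm k ℓ n → ℂ) : ∫ z, g z = ∫ q, g (am k ℓ n q) :=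
  ((am_mp k ℓ n).integral_comp' g).symm

theorem lint_am (g : Wm k ℓ n → ℝ≥0∞) : ∫⁻ z, g z = ∫⁻ q, g (am k ℓ n q) :=
  ((am_mp k ℓ n).lintegral_comp_emb (am k ℓ n).measurableEmbedding g).symm

/-- the first unit vector -/
noncomputable def em (ℓ : ℕ) : Em ℓ := EuclideanSpace.single 0 1

theorem norm_smul_em (r : ℝ) : ‖r • em ℓ‖ = |r| := by
  have h : ‖em ℓ‖ = 1 := by simp [em]
  rw [norm_smul, h, mul_one, Real.norm_eq_abs]

/-- the profile -/
noncomputable def GF (f : Wm k ℓ n → ℂ) (q : (Fin k → ℝ) × (Fin n → ℝ)) : ℂ :=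
  f (am k ℓ n (fun i => q.1 i • em ℓ, q.2))

/-- block symmetry -/
def Inv (f : Wm k ℓ n → ℂ) : Prop :=
  ∀ (y y' : Fin k → Em ℓ) (x : Fin n → ℝ), (∀ i, ‖y i‖ = ‖y' i‖) → f (am k ℓ n (y, x)) =
    f (am k ℓ n (y', x))

theorem Inv.eq {f : Wm k ℓ n → ℂ} (h : Inv f) (y : Fin k → Em ℓ) (x : Fin n → ℝ) :
    f (am k ℓ n (y, x)) = GF f (fun i => ‖y i‖, x) :=
  h _ _ _ fun i => by rw [norm_smul_em, abs_norm]

theorem Inv.congr {f : Wm k ℓ n → ℂ} (h : Inv f) {ρ ρ' : Fin k → ℝ} (hρ : ∀ i, |ρ i| = |ρ' i|)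
    (x : Fin n → ℝ) : GF f (ρ, x) = GF f (ρ', x) :=
  h _ _ _ fun i => by rw [norm_smul_em, norm_smul_em, hρ]

theorem GF_meas {f : Wm k ℓ n → ℂ} (hf : Measurable f) : Measurable (GF f) := by
  refine hf.comp ((am k ℓ n).measurable.comp (Measurable.prodMk ?_ measurable_snd))
  refine measurable_pi_lambda _ fun i => ?_
  fun_prop

/-! ### polar coordinates -/

theorem Pm_mp (ℓ : ℕ) : MeasurePreserving (fun q : Em ℓ × ℝ => q.2 • q.1)
    ((sg (2 * ℓ + 1)).prod (Pool.Agent.H438R2.BR.T7.nu (2 * ℓ + 1))) (volume : Measure (Em ℓ)) :=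
  ⟨measurable_snd.smul measurable_fst, Pool.Agent.H438R2.BR.T7.polar_map (by omega)⟩

instance (n : ℕ) : IsFiniteMeasure (sg n) := Pool.Agent.H789R2.FR.sg_finite n

/-- Fourier transform of the sphere -/
noncomputable def Sm (ℓ : ℕ) (s : ℝ) : ℂ :=
  ((sg (2 * ℓ)).real univ : ℂ) * Pool.Agent.H438R2.BR.Phi (2 * ℓ + 1) (2 * Real.pi * s)

theorem sphere_Sm (hℓ : 1 ≤ ℓ) (y : Em ℓ) {r : ℝ} (hr : 0 ≤ r) :
    ∫ w, e (⟪y, r • w⟫ : ℝ) ∂(sg (2 * ℓ + 1)) = Sm ℓ (‖y‖ * r) := by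
  have h1 := Pool.Agent.H438R2.BR.sphere_ft (2 * ℓ + 1) (by omega) ((-(2 * Real.pi * r)) • y)
  have h2 : ∫ w, e (⟪y, r • w⟫ : ℝ) ∂(sg (2 * ℓ + 1)) =
      ∫ v, Complex.exp (-((⟪(-(2 * Real.pi * r)) • y, v⟫ : ℝ) : ℂ) * Complex.I)
        ∂(sg (2 * ℓ + 1)) := by
    refine integral_congr_ae (Eventually.of_forall fun w => ?_)
    simp only [e]
    congr 1
    rw [real_inner_smul_left, real_inner_smul_right]
    push_cast
    ring
  have h3 : ‖(-(2 * Real.pi * r)) • y‖ = 2 * Real.pi * (‖y‖ * r) := by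
    rw [norm_smul, norm_neg, Real.norm_of_nonneg (by positivity)]
    ring
  rw [h2, h1, h3, Sm]
  rfl

section

variable {X : Type*} [MeasurableSpace X] (μX : Measure X) [SigmaFinite μX]

theorem nu_pi (k ℓ : ℕ) : (Measure.pi fun _ : Fin k => Pool.Agent.H438R2.BR.T7.nu (2 * ℓ + 1)) =
    (Measure.pi fun _ : Fin k => mI).withDensity
      (fun x => ∏ i, ENNReal.ofReal (x i ^ (2 * ℓ))) := by
  have hnu : Pool.Agent.H438R2.BR.T7.nu (2 * ℓ + 1) =
      mI.withDensity (fun r => ENNReal.ofReal (r ^ (2 * ℓ))) := rfl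
  have hsf : SigmaFinite (mI.withDensity (fun r => ENNReal.ofReal (r ^ (2 * ℓ)))) := by
    rw [← hnu]; infer_instance
  simp_rw [hnu]
  exact pi_withDensity mI k (fun r => ENNReal.ofReal (r ^ (2 * ℓ))) (by fun_prop)

theorem polar_lint (Ξ : (Fin k → Em ℓ) × X → ℝ≥0∞) (hΞ : Measurable Ξ) :
    ∫⁻ q, Ξ q ∂((volume).prod μX) =
    ∫⁻ w, (∏ i, ENNReal.ofReal (w.1 i ^ (2 * ℓ))) * ∫⁻ s : Fin k → Em ℓ,
      Ξ ((fun i => w.1 i • s i), w.2) ∂(Measure.pi fun _ => sg (2 * ℓ + 1))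
      ∂((Measure.pi fun _ : Fin k => mI).prod μX) := by
  have hmp := poly_mp μX (Pm_mp ℓ) k
  have hvol : (volume : Measure (Fin k → Em ℓ)) = Measure.pi fun _ => (volume : Measure (Em ℓ)) :=
    rfl
  have hpm : Measurable (fun x : Fin k → ℝ => ∏ i, ENNReal.ofReal (x i ^ (2 * ℓ))) := by fun_prop
  have e1 : ∫⁻ q, Ξ q ∂((Measure.pi fun _ => (volume : Measure (Em ℓ))).prod μX) =
      ∫⁻ w : (Fin k → ℝ) × X, ∫⁻ s : Fin k → Em ℓ, Ξ ((fun i => w.1 i • s i), w.2)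
        ∂(Measure.pi fun _ => sg (2 * ℓ + 1))
        ∂((Measure.pi fun _ : Fin k => Pool.Agent.H438R2.BR.T7.nu (2 * ℓ + 1)).prod μX) := by
    rw [← hmp.lintegral_comp hΞ]
    exact lintegral_prod_symm' _ (hΞ.comp hmp.measurable)
  have hpm2 : Measurable (fun z : (Fin k → ℝ) × X => ∏ i, ENNReal.ofReal (z.1 i ^ (2 * ℓ))) :=
    hpm.comp measurable_fst
  rw [hvol, e1, nu_pi, prod_withDensity_left hpm, lintegral_withDensity_eq_lintegral_mul₀
      hpm2.aemeasurable]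
  · rfl
  · exact (Measurable.lintegral_prod_left' (hΞ.comp hmp.measurable)).aemeasurable

theorem BLm (hℓ : 1 ≤ ℓ) (H : (Fin k → ℝ) × X → ℂ) (y : Fin k → Em ℓ)
    (hint : Integrable (fun q : (Fin k → Em ℓ) × X => H ((fun i => ‖q.1 i‖), q.2))
      ((volume).prod μX)) :
    ∫ q : (Fin k → Em ℓ) × X, (∏ i, e (⟪y i, q.1 i⟫ : ℝ)) * H ((fun i => ‖q.1 i‖), q.2)
      ∂((volume).prod μX) =
    ∫ w, (∏ i, (((w.1 i ^ (2 * ℓ) : ℝ) : ℂ) * Sm ℓ (‖y i‖ * w.1 i))) * H w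
      ∂((Measure.pi fun _ : Fin k => mI).prod μX) := by
  have hmp := poly_mp μX (Pm_mp ℓ) k
  have hvol : (volume : Measure (Fin k → Em ℓ)) = Measure.pi fun _ => (volume : Measure (Em ℓ)) :=
    rfl
  rw [hvol] at hint ⊢
  set Φ : (Fin k → Em ℓ) × X → ℂ := fun q => (∏ i, e (⟪y i, q.1 i⟫ : ℝ)) *
      H ((fun i => ‖q.1 i‖), q.2) with hΦ
  have hΦi : Integrable Φ ((Measure.pi fun _ => (volume : Measure (Em ℓ))).prod μX) := by
    refine hint.bdd_mul (c := 1) ?_ ?_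
    · refine Measurable.aestronglyMeasurable (Finset.measurable_prod _ fun i _ =>
        measurable_e.comp ?_)
      have : Measurable (fun q : (Fin k → Em ℓ) × X => q.1 i) := by fun_prop
      exact this.const_inner
    · refine Eventually.of_forall fun q => ?_
      rw [norm_prod]
      simp [norm_e]
  have e1 : ∫ q, Φ q ∂((Measure.pi fun _ => (volume : Measure (Em ℓ))).prod μX) =
      ∫ w : (Fin k → ℝ) × X, ∫ s : Fin k → Em ℓ, Φ ((fun i => w.1 i • s i), w.2)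
        ∂(Measure.pi fun _ => sg (2 * ℓ + 1))
        ∂((Measure.pi fun _ : Fin k => Pool.Agent.H438R2.BR.T7.nu (2 * ℓ + 1)).prod μX) := by
    conv_lhs => rw [← hmp.map_eq]
    rw [integral_map hmp.measurable.aemeasurable (by rw [hmp.map_eq]; exact hΦi.1)]
    exact integral_prod_symm _ (hmp.integrable_comp_of_integrable hΦi)
  have hpm : Measurable (fun x : Fin k → ℝ => ∏ i, ENNReal.ofReal (x i ^ (2 * ℓ))) := by fun_prop
  have hpm2 : Measurable (fun z : (Fin k → ℝ) × X => ∏ i, ENNReal.ofReal (z.1 i ^ (2 * ℓ))) :=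
    hpm.comp measurable_fst
  have hfin : ∀ᵐ z : (Fin k → ℝ) × X ∂((Measure.pi fun _ : Fin k => mI).prod μX),
      ∏ i, ENNReal.ofReal (z.1 i ^ (2 * ℓ)) < ∞ :=
    Eventually.of_forall fun w => ENNReal.prod_lt_top fun i _ => ENNReal.ofReal_lt_top
  rw [e1, nu_pi, prod_withDensity_left hpm, integral_withDensity_eq_integral_toReal_smul
    hpm2 hfin]
  refine integral_congr_ae ?_
  filter_upwards [ae_pi_pos k μX] with w hw
  have e2 : ∫ s : Fin k → Em ℓ, Φ ((fun i => w.1 i • s i), w.2)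
      ∂(Measure.pi fun _ => sg (2 * ℓ + 1)) =
      (∏ i, ∫ v, e (⟪y i, w.1 i • v⟫ : ℝ) ∂(sg (2 * ℓ + 1))) * H w := by
    rw [← integral_fintype_prod_eq_prod (μ := fun _ : Fin k => sg (2 * ℓ + 1))
      (f := fun i v => e (⟪y i, w.1 i • v⟫ : ℝ)), ← integral_mul_const]
    refine integral_congr_ae ?_
    filter_upwards [ae_pi_all (k := k) (Pool.Agent.H789R2.FR.sg_ae (2 * ℓ + 1))] with s hs
    simp only [hΦ]
    have h3 : ∀ i, ‖w.1 i • s i‖ = w.1 i := by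
      intro i
      rw [norm_smul, hs i, mul_one, Real.norm_of_nonneg (hw i).le]
    simp_rw [h3]
  rw [e2]
  have h4 : (∏ i, ENNReal.ofReal (w.1 i ^ (2 * ℓ))).toReal = ∏ i, w.1 i ^ (2 * ℓ) := by
    rw [ENNReal.toReal_prod]
    refine Finset.prod_congr rfl fun i _ => ?_
    rw [ENNReal.toReal_ofReal (by have := hw i; positivity)]
  simp only [h4]
  rw [Complex.real_smul, Complex.ofReal_prod, ← mul_assoc, ← Finset.prod_mul_distrib]
  congr 1
  refine Finset.prod_congr rfl fun i _ => ?_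
  rw [sphere_Sm hℓ (y i) (hw i).le]

end

end Pool.Agent.Helper66K9.LSG
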