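import Pool.Agent.Helper66K9.LSG.Pc
import Pool.Agent.Helper66K9.LS.Final
set_option autoImplicit false

/-! # Data with block symmetry: the one datum estimate -/

namespace Pool.Agent.Helper66K9.LSG

open MeasureTheory Set Filter
open scoped ENNReal FourierTransform RealInnerProductSpace Topology
open Pool.Agent.TH280.LS
open Pool.Agent.Helper66K9.LS (om om_meas om_le om_pos om_mul_le mI TM TM_meas TM_L2 Mt Mt_mul
  Mt_meas Sym ae_pi_pos ae_pi_all T12 T12_meas T12_sub TM_add Mul NCb TM_Lp one_W lint_move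
  TM_move L12)

/-- the class of data -/
def OddBlockData (k ℓ n d : ℕ) (R₀ : ℝ) (f : EuclideanSpace ℝ (Fin d) → ℂ) : Prop :=
  Measurable f ∧ ∃ (v : OrthonormalBasis ((Fin k × Fin (2 * ℓ + 1)) ⊕ Fin n) ℝ
      (EuclideanSpace ℝ (Fin d)))
    (c : EuclideanSpace ℝ (Fin d)) (F : (Fin k → ℝ) → (Fin n → ℝ) → ℂ),
    (∀ (y : Fin k → EuclideanSpace ℝ (Fin (2 * ℓ + 1))) (x : Fin n → ℝ),
      f (c + (∑ i, ∑ a, y i a • v (Sum.inl (i, a)) + ∑ j, x j • v (Sum.inr j))) =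
        F (fun i => ‖y i‖) x) ∧
    ∀ z, R₀ < ‖z - c‖ → f z = 0

theorem repr_symm_am {k ℓ n : ℕ} {E : Type*} [NormedAddCommGroup E] [InnerProductSpace ℝ E]
    (v : OrthonormalBasis ((Fin k × Fin (2 * ℓ + 1)) ⊕ Fin n) ℝ E) (y : Fin k → Em ℓ)
    (x : Fin n → ℝ) : v.repr.symm (am k ℓ n (y, x)) =
      ∑ i, ∑ a, y i a • v (Sum.inl (i, a)) + ∑ j, x j • v (Sum.inr j) := by
  rw [← v.sum_repr_symm, Fintype.sum_sum_type, Fintype.sum_prod_type]
  rfl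

theorem block_one_G (hDUAL : S_DUAL) (hW : S_W) (k ℓ n m : ℕ) (hk : 1 ≤ k) (hℓ : 1 ≤ ℓ)
    (hd : m + 1 = (2 * ℓ + 1) * k + n) (R0 : ℝ) (hR0 : 0 ≤ R0) (s p : ℝ) (hs : 0 < s)
    (hp : 2 < p)
    (hsp : ((m + 1 : ℕ) - 1 : ℝ) * (p - 2) / 2 - min 1 (k * ℓ * (p - 2)) < s * p) :
    OneD m s p (OddBlockData k ℓ n (m + 1) R0) := by
  have hp0 : 0 < p := by linarith
  have hk0 : (0 : ℝ) < k := by exact_mod_cast hk
  have hmin : (k : ℝ) * min (ℓ * (p - 2)) (1 / k) = min 1 (k * ℓ * (p - 2)) := by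
    rw [mul_min_of_nonneg _ _ hk0.le, mul_one_div_cancel hk0.ne', min_comm, mul_assoc]
  have hdr : ((m + 1 : ℕ) : ℝ) = k * (2 * ℓ + 1) + n := by
    rw [hd]
    push_cast
    ring
  set E0 : ℝ := ((k * (2 * ℓ + 1) + n : ℝ) - 1) * (p / 2 - 1) - k * min (ℓ * (p - 2)) (1 / k)
    with hE0
  have hE0lt : E0 < s * p := by
    rw [hE0, hmin]
    rw [hdr] at hsp
    have : ((k * (2 * ℓ + 1) + n : ℝ) - 1) * (p / 2 - 1) =
        ((k * (2 * ℓ + 1) + n : ℝ) - 1) * (p - 2) / 2 := by ring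
    rw [this]
    exact hsp
  set ε : ℝ := (s * p - E0) / 2 with hε
  have hε0 : 0 < ε := by
    rw [hε]
    linarith
  obtain ⟨C0, hC0, hP⟩ := piece_G hDUAL hW k ℓ n hk hℓ R0 hR0 p hp ε hε0
  obtain ⟨C, hC, h⟩ := one_W (Wm k ℓ n) (s := s) (E := E0 + ε) (p := p) (C0 := C0) R0 hp hs
    (by rw [hε]; linarith) hC0
  refine ⟨C, hC, ?_⟩
  intro f hf hPf τ hτ _
  obtain ⟨hfm, v, c, F, hF, hsupp⟩ := hPf
  set U := v.repr with hU
  set g : Wm k ℓ n → ℂ := fun w => f (U.symm w + c) with hg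
  have hfg : f = fun z => g (U (z - c)) := by
    funext z
    simp [hg]
  have hgm : Measurable g := hfm.comp (by fun_prop)
  have hgi : Integrable g := by
    have h1 : Integrable (fun x => f (x + c)) := hf.comp_add_right c
    exact (U.symm.measurePreserving.integrable_comp_emb
      U.symm.toHomeomorph.measurableEmbedding).2 h1
  have hgs : ∀ w, R0 < ‖w‖ → g w = 0 := by
    intro w hw
    apply hsupp
    rw [add_sub_cancel_right, U.symm.norm_map]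
    exact hw
  have hginv : Inv g := by
    intro y y' x hy
    have h1 : ∀ y : Fin k → Em ℓ, g (am k ℓ n (y, x)) = F (fun i => ‖y i‖) x := by
      intro y
      rw [hg]
      simp only
      rw [hU, repr_symm_am, add_comm, hF]
    rw [h1, h1]
    congr 1
    funext i
    exact hy i
  have hX : ∫⁻ z, ‖f z‖ₑ ^ p = ∫⁻ w, ‖g w‖ₑ ^ p := by
    conv_lhs => rw [hfg]
    exact lint_move U c (fun w => ‖g w‖ₑ ^ p)
  have hRM : ∀ (M : ℝ → ℝ), ∫⁻ z, ‖RM m M f z‖ₑ ^ p =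
      ∫⁻ w, ‖TM (fun ρ => ((M ρ : ℝ) : ℂ)) g w‖ₑ ^ p := by
    intro M
    rw [← lint_move U c (fun w => ‖TM (fun ρ => ((M ρ : ℝ) : ℂ)) g w‖ₑ ^ p)]
    refine lintegral_congr fun z => ?_
    rw [← TM_move, ← hfg]
    rfl
  simp only [hRM, hX]
  by_cases htop : ∫⁻ w, ‖g w‖ₑ ^ p = ∞
  · rw [htop, ENNReal.mul_top (by simpa using hC)]
    exact ⟨le_top, le_top⟩
  have hsq : ∫⁻ z, ‖g z‖ₑ ^ (2 : ℝ) < ∞ := by
    have h1 := (L12 hgm hgs hp).2
    have h2 : (∫⁻ z, ‖g z‖ₑ ^ (2 : ℝ)) ^ (p / 2) < ∞ :=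
      lt_of_le_of_lt h1 (ENNReal.mul_lt_top (ENNReal.rpow_lt_top_of_nonneg (by linarith)
        measure_closedBall_lt_top.ne) (lt_top_iff_ne_top.2 htop))
    by_contra hc
    rw [not_lt, top_le_iff] at hc
    rw [hc, ENNReal.top_rpow_of_pos (by positivity)] at h2
    exact lt_irrefl _ h2
  have hcls : ClsG k ℓ n R0 g := ⟨hgm, hginv, hgs, hgi, hsq⟩
  exact h g hgi hgm hgs (fun N A Ψ hN hΨ => hP N A Ψ hN hΨ g hcls) τ hτ

end Pool.Agent.Helper66K9.LSG
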