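import Pool.Agent.Helper66K9.LSG.Hrep
set_option autoImplicit false

/-! # The kernel in block coordinates -/

namespace Pool.Agent.Helper66K9.LSG

open MeasureTheory Set Filter
open scoped ENNReal FourierTransform RealInnerProductSpace Topology
open Pool.Agent.TH280.LS (e norm_e e_add measurable_e continuous_e plancherel e_conj)
open Pool.Agent.H789R2.FR (sg)
open Pool.Agent.Helper66K9.LS (mI P1 P1_mp poly_mp ae_pi_pos be be_mp be_inl be_inr be_inner be_norm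
  TM Mul F_eq int_MF int_eMF e_sum e_zero sgn P1_sgn abs_P1 norm_be_congr int_be Wq cont_F int_cpt)

variable {k ℓ n : ℕ}

/-- the half space -/
noncomputable abbrev mH (k n : ℕ) : Measure ((Fin k → ℝ) × (Fin n → ℝ)) :=
  (Measure.pi fun _ : Fin k => mI).prod volume

theorem F_am (hℓ : 1 ≤ ℓ) {f : Wm k ℓ n → ℂ} (hI : Inv f) (hf : Integrable f)
    (η : Fin k → Em ℓ) (ξ : Fin n → ℝ) :
    𝓕 f (am k ℓ n (η, ξ)) = ∫ w, (∏ i, (((w.1 i ^ (2 * ℓ) : ℝ) : ℂ) * Sm ℓ (‖η i‖ * w.1 i))) *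
      (e (-∑ j, w.2 j * ξ j) * GF f w) ∂(mH k n) := by
  set H : (Fin k → ℝ) × (Fin n → ℝ) → ℂ := fun q => e (-∑ j, q.2 j * ξ j) * GF f q with hH
  have hfam : Integrable (fun q => f (am k ℓ n q)) :=
    ((am_mp k ℓ n).integrable_comp_emb (am k ℓ n).measurableEmbedding).2 hf
  have hem : Measurable (fun q : (Fin k → Em ℓ) × (Fin n → ℝ) => e (-∑ j, q.2 j * ξ j)) :=
    measurable_e.comp (by fun_prop)
  have hpt : ∀ q : (Fin k → Em ℓ) × (Fin n → ℝ), H ((fun i => ‖q.1 i‖), q.2) =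
      e (-∑ j, q.2 j * ξ j) * f (am k ℓ n q) := by
    intro q
    simp only [hH]
    have h1 := hI.eq q.1 q.2
    rw [show (q.1, q.2) = q from rfl] at h1
    rw [h1]
  have key := BLm (volume : Measure (Fin n → ℝ)) hℓ H (fun i => -η i) ?_
  · simp only [norm_neg] at key
    rw [← key, F_eq, int_am]
    refine integral_congr_ae (Eventually.of_forall fun q => ?_)
    simp only
    rw [hpt q, ← mul_assoc, ← e_sum, ← e_add, am_inner]
    congr 2
    simp only [inner_neg_left, Finset.sum_neg_distrib]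
    rw [neg_add]
    congr 2
    exact Finset.sum_congr rfl fun i _ => real_inner_comm _ _
  · simp_rw [hpt]
    exact hfam.bdd_mul (c := 1) hem.aestronglyMeasurable
      (Eventually.of_forall fun q => (norm_e _).le)

theorem F_inv (hℓ : 1 ≤ ℓ) {f : Wm k ℓ n → ℂ} (hI : Inv f) (hf : Integrable f) : Inv (𝓕 f) := by
  intro y y' x h
  rw [F_am hℓ hI hf, F_am hℓ hI hf]
  simp_rw [h]

theorem TM_am (hℓ : 1 ≤ ℓ) {f : Wm k ℓ n → ℂ} (hI : Inv f) (hf : Integrable f) {C R : ℝ}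
    {M : ℝ → ℂ} (hM : Mul C R M) (y : Fin k → Em ℓ) (x : Fin n → ℝ) :
    TM M f (am k ℓ n (y, x)) = ∫ w, (∏ i, (((w.1 i ^ (2 * ℓ) : ℝ) : ℂ) * Sm ℓ (‖y i‖ * w.1 i))) *
      (e (∑ j, x j * w.2 j) * (M ‖be k n w‖ * GF (𝓕 f) w)) ∂(mH k n) := by
  set H : (Fin k → ℝ) × (Fin n → ℝ) → ℂ := fun q => e (∑ j, x j * q.2 j) *
    (M ‖be k n q‖ * GF (𝓕 f) q) with hH
  have hfam : Integrable (fun q => M ‖am k ℓ n q‖ * 𝓕 f (am k ℓ n q)) :=
    ((am_mp k ℓ n).integrable_comp_emb (am k ℓ n).measurableEmbedding).2 (int_MF hM hf)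
  have hem : Measurable (fun q : (Fin k → Em ℓ) × (Fin n → ℝ) => e (∑ j, x j * q.2 j)) :=
    measurable_e.comp (by fun_prop)
  have hpt : ∀ q : (Fin k → Em ℓ) × (Fin n → ℝ), H ((fun i => ‖q.1 i‖), q.2) =
      e (∑ j, x j * q.2 j) * (M ‖am k ℓ n q‖ * 𝓕 f (am k ℓ n q)) := by
    intro q
    simp only [hH]
    have h1 := (F_inv hℓ hI hf).eq q.1 q.2
    rw [show (q.1, q.2) = q from rfl] at h1
    rw [h1, ← norm_am_be]
  have key := BLm (volume : Measure (Fin n → ℝ)) hℓ H y ?_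
  · rw [← key]
    unfold TM
    rw [int_am]
    refine integral_congr_ae (Eventually.of_forall fun q => ?_)
    simp only
    have h3 : (⟪am k ℓ n (y, x), am k ℓ n q⟫ : ℝ) = (∑ i, (⟪y i, q.1 i⟫ : ℝ)) +
        ∑ j, x j * q.2 j := am_inner _ _
    rw [hpt q, h3, e_add, e_sum]
    ring
  · simp_rw [hpt]
    exact hfam.bdd_mul (c := 1) hem.aestronglyMeasurable
      (Eventually.of_forall fun q => (norm_e _).le)

/-- the normalised profile -/
noncomputable def VVm (f : Wm k ℓ n → ℂ) (q : (Fin k → ℝ) × (Fin n → ℝ)) : ℂ :=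
  (∏ i, ((q.1 i ^ ℓ : ℝ) : ℂ)) * GF f q

theorem VVm_meas {f : Wm k ℓ n → ℂ} (hf : Measurable f) : Measurable (VVm f) := by
  refine Measurable.mul (Finset.measurable_prod _ fun i _ => ?_) (GF_meas hf)
  exact Complex.measurable_ofReal.comp (by fun_prop)

theorem Y_eq (hℓ : 1 ≤ ℓ) {f : Wm k ℓ n → ℂ} (hI : Inv f) (hf : Integrable f)
    (w' : (Fin k → ℝ) × (Fin n → ℝ)) (hw : ∀ i, 0 < w'.1 i) :
    (∏ i, ((w'.1 i ^ ℓ : ℝ) : ℂ)) * GF (𝓕 f) w' = ∫ w, (∏ i, hh ℓ (w'.1 i * w.1 i)) *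
      (e (-∑ j, w.2 j * w'.2 j) * VVm f w) ∂(mH k n) := by
  unfold GF
  rw [F_am hℓ hI hf, ← integral_const_mul]
  refine integral_congr_ae (Eventually.of_forall fun w => ?_)
  simp only [VVm]
  have h1 : ∀ i, ‖w'.1 i • em ℓ‖ = w'.1 i := fun i => by
    rw [norm_smul_em, abs_of_pos (hw i)]
  simp_rw [h1]
  calc (∏ i, ((w'.1 i ^ ℓ : ℝ) : ℂ)) * ((∏ i, (((w.1 i ^ (2 * ℓ) : ℝ) : ℂ) *
        Sm ℓ (w'.1 i * w.1 i))) * (e (-∑ j, w.2 j * w'.2 j) * GF f w))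
      = (∏ i, (((w'.1 i ^ ℓ : ℝ) : ℂ) * (((w.1 i ^ (2 * ℓ) : ℝ) : ℂ) *
        Sm ℓ (w'.1 i * w.1 i)))) * (e (-∑ j, w.2 j * w'.2 j) * GF f w) := by
        rw [Finset.prod_mul_distrib (f := fun i => ((w'.1 i ^ ℓ : ℝ) : ℂ))]
        ring
    _ = (∏ i, (hh ℓ (w'.1 i * w.1 i) * ((w.1 i ^ ℓ : ℝ) : ℂ))) *
          (e (-∑ j, w.2 j * w'.2 j) * GF f w) := by
        congr 1
        refine Finset.prod_congr rfl fun i _ => ?_
        unfold hh
        push_cast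
        ring
    _ = _ := by
        rw [Finset.prod_mul_distrib]
        ring

/-- integrals of even functions -/
theorem int_even {X : Type*} [MeasurableSpace X] (μX : Measure X) [SigmaFinite μX]
    (Φ : (Fin k → ℝ) × X → ℂ) (hΦ : Integrable Φ ((volume).prod μX))
    (hev : ∀ (b : Fin k → Bool) (ρ : Fin k → ℝ) (x : X),
      Φ ((fun i => P1 (b i, ρ i)), x) = Φ (ρ, x)) :
    ∫ q, Φ q ∂((volume).prod μX) =
    2 ^ k * ∫ w, Φ w ∂((Measure.pi fun _ : Fin k => mI).prod μX) := by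
  have hmp := poly_mp μX P1_mp k
  have hvol : (volume : Measure (Fin k → ℝ)) = Measure.pi fun _ => (volume : Measure ℝ) := rfl
  rw [hvol] at hΦ ⊢
  have e1 : ∫ q, Φ q ∂((Measure.pi fun _ => (volume : Measure ℝ)).prod μX) =
      ∫ w : (Fin k → ℝ) × X, ∫ s : Fin k → Bool, Φ ((fun i => P1 (s i, w.1 i)), w.2)
        ∂(Measure.pi fun _ => Measure.count) ∂((Measure.pi fun _ : Fin k => mI).prod μX) := by
    conv_lhs => rw [← hmp.map_eq]
    rw [integral_map hmp.measurable.aemeasurable (by rw [hmp.map_eq]; exact hΦ.1)]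
    exact integral_prod_symm _ (hmp.integrable_comp_of_integrable hΦ)
  rw [e1, ← integral_const_mul]
  refine integral_congr_ae (Eventually.of_forall fun w => ?_)
  simp only [hev]
  have hc2 : (Measure.pi fun _ : Fin k => (Measure.count : Measure Bool)) univ = 2 ^ k := by
    rw [Measure.pi_univ]
    simp only [Measure.count_univ, ENat.card_eq_coe_fintype_card, Fintype.card_bool,
      Finset.prod_const, Finset.card_univ, Fintype.card_fin]
    rfl
  rw [integral_const, Measure.real, hc2, ENNReal.toReal_pow, ENNReal.toReal_ofNat,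
    Complex.real_smul]
  push_cast
  rfl

/-- the kernel -/
noncomputable def KM (k n : ℕ) (M : ℝ → ℂ) (z : Wq k n) : ℂ :=
  ∫ ζ : Wq k n, e (⟪z, ζ⟫ : ℝ) * M ‖ζ‖

/-- the parameter space -/
abbrev Par (k n : ℕ) : Type := ((Fin k → ℝ) × (Fin n → ℝ)) × ((Fin k → ℝ) × (Fin k → ℝ))

/-- the measure on the parameter space -/
noncomputable abbrev mP (k n : ℕ) : Measure (Par k n) :=
  (mH k n).prod ((Measure.pi fun _ : Fin k => μ0).prod (Measure.pi fun _ : Fin k => μ0))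

instance (k n : ℕ) : SFinite (mH k n) := by unfold mH; infer_instance

instance (k n : ℕ) : SFinite (mP k n) := by unfold mP; infer_instance

/-- the point -/
noncomputable def Dp (r : Fin k → ℝ) (x : Fin n → ℝ) (ω : Par k n) : Wq k n :=
  be k n ((fun i => ω.2.1 i * r i + ω.2.2 i * ω.1.1 i), fun j => x j - ω.1.2 j)

theorem Dp_meas (r : Fin k → ℝ) (x : Fin n → ℝ) : Measurable (Dp r x) := by
  unfold Dp
  exact (be k n).measurable.comp (by fun_prop)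

theorem main_formula (hℓ : 1 ≤ ℓ) {f : Wm k ℓ n → ℂ} (hI : Inv f) (hf : Integrable f)
    (hV : Integrable (VVm f) (mH k n)) {κ : ℝ → ℂ} {B : ℝ}
    (hκm : Measurable κ) (hκB : ∀ a, ‖κ a‖ ≤ B)
    (hκ : ∀ s : ℝ, hh ℓ s = ∫ a, κ a * e (a * s) ∂μ0) {C R : ℝ}
    {M : ℝ → ℂ} (hM : Mul C R M) (y : Fin k → Em ℓ) (x : Fin n → ℝ) :
    2 ^ k * ((∏ i, ((‖y i‖ ^ ℓ : ℝ) : ℂ)) * TM M f (am k ℓ n (y, x))) =
      ∫ ω, (VVm f ω.1 * ((∏ i, κ (ω.2.1 i)) * ∏ i, κ (ω.2.2 i))) *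
        KM k n M (Dp (fun i => ‖y i‖) x ω) ∂(mP k n) := by
  set r : Fin k → ℝ := fun i => ‖y i‖ with hr
  set c : Par k n → ℂ := fun ω => VVm f ω.1 * ((∏ i, κ (ω.2.1 i)) * ∏ i, κ (ω.2.2 i)) with hc
  have hB0 : 0 ≤ B := (norm_nonneg _).trans (hκB 0)
  have hκp : Measurable (fun a : Fin k → ℝ => ∏ i, κ (a i)) :=
    Finset.measurable_prod _ fun i _ => hκm.comp (measurable_pi_apply i)
  have hκi : Integrable (fun a : Fin k → ℝ => ∏ i, κ (a i)) (Measure.pi fun _ : Fin k => μ0) := by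
    refine Integrable.of_bound hκp.aestronglyMeasurable (B ^ k) (Eventually.of_forall fun a => ?_)
    rw [norm_prod]
    calc ∏ i, ‖κ (a i)‖ ≤ ∏ _i : Fin k, B :=
          Finset.prod_le_prod (fun i _ => norm_nonneg _) fun i _ => hκB _
      _ = B ^ k := by simp
  have hci : Integrable c (mP k n) := hV.mul_prod (hκi.mul_prod hκi)
  have hMm : Measurable (fun ρ : (Fin k → ℝ) × (Fin n → ℝ) => M ‖be k n ρ‖) :=
    hM.meas.comp (measurable_norm.comp (be k n).measurable)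
  have hMi0 : Integrable (fun ζ : Wq k n => M ‖ζ‖) :=
    int_cpt (hM.meas.comp measurable_norm).aestronglyMeasurable
      (fun ζ => hM.bdd _ (norm_nonneg _)) (R := R) fun ζ h => hM.supp _ h
  have hMi : Integrable (fun ρ : (Fin k → ℝ) × (Fin n → ℝ) => M ‖be k n ρ‖) :=
    ((be_mp k n).integrable_comp_emb (be k n).measurableEmbedding).2 hMi0
  -- the function on the full product
  set T : ((Fin k → ℝ) × (Fin n → ℝ)) × Par k n → ℂ := fun p =>
    e (⟪Dp r x p.2, be k n p.1⟫ : ℝ) * (M ‖be k n p.1‖ * c p.2) with hT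
  have hTi : Integrable T ((volume).prod (mP k n)) := by
    refine (hMi.mul_prod hci).bdd_mul (c := 1) ?_ (Eventually.of_forall fun q => (norm_e _).le)
    refine (measurable_e.comp ?_).aestronglyMeasurable
    exact Measurable.inner ((Dp_meas r x).comp measurable_snd)
      ((be k n).measurable.comp measurable_fst)
  -- the inner integral
  have hinner : ∀ ρ : (Fin k → ℝ) × (Fin n → ℝ), ∫ ω, T (ρ, ω) ∂(mP k n) =
      (∏ i, hh ℓ (r i * ρ.1 i)) * (e (∑ j, x j * ρ.2 j) * M ‖be k n ρ‖) *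
        ∫ w, (∏ i, hh ℓ (ρ.1 i * w.1 i)) * (e (-∑ j, w.2 j * ρ.2 j) * VVm f w) ∂(mH k n) := by
    intro ρ
    have hi : Integrable (fun ω => T (ρ, ω)) (mP k n) := by
      simp only [hT]
      refine (hci.const_mul (M ‖be k n ρ‖)).bdd_mul (c := 1) ?_
        (Eventually.of_forall fun q => (norm_e _).le)
      refine (measurable_e.comp ?_).aestronglyMeasurable
      exact (Dp_meas r x).inner_const
    rw [integral_prod _ hi, ← integral_const_mul]
    refine integral_congr_ae (Eventually.of_forall fun w => ?_)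
    simp only [hT, hc]
    have h1 : ∀ ab : (Fin k → ℝ) × (Fin k → ℝ),
        e (⟪Dp r x (w, ab), be k n ρ⟫ : ℝ) * (M ‖be k n ρ‖ *
          (VVm f w * ((∏ i, κ (ab.1 i)) * ∏ i, κ (ab.2 i)))) =
        ((e (∑ j, x j * ρ.2 j) * e (-∑ j, w.2 j * ρ.2 j)) * (M ‖be k n ρ‖ * VVm f w)) *
        ((∏ i, κ (ab.1 i) * e (ab.1 i * (r i * ρ.1 i))) *
          ∏ i, κ (ab.2 i) * e (ab.2 i * (ρ.1 i * w.1 i))) := by
      intro ab
      have h2 : (⟪Dp r x (w, ab), be k n ρ⟫ : ℝ) = (∑ j, x j * ρ.2 j) + (-∑ j, w.2 j * ρ.2 j) +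
          ((∑ i, ab.1 i * (r i * ρ.1 i)) + ∑ i, ab.2 i * (ρ.1 i * w.1 i)) := by
        unfold Dp
        rw [be_inner]
        simp only
        have h3 : ∑ i, (ab.1 i * r i + ab.2 i * w.1 i) * ρ.1 i =
            (∑ i, ab.1 i * (r i * ρ.1 i)) + ∑ i, ab.2 i * (ρ.1 i * w.1 i) := by
          rw [← Finset.sum_add_distrib]
          exact Finset.sum_congr rfl fun i _ => by ring
        have h4 : ∑ j, (x j - w.2 j) * ρ.2 j = (∑ j, x j * ρ.2 j) + (-∑ j, w.2 j * ρ.2 j) := by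
          rw [← sub_eq_add_neg, ← Finset.sum_sub_distrib]
          exact Finset.sum_congr rfl fun i _ => by ring
        rw [h3, h4]
        ring
      have h5 : e (∑ i, ab.1 i * (r i * ρ.1 i)) = ∏ i, e (ab.1 i * (r i * ρ.1 i)) := e_sum _ _
      have h6 : e (∑ i, ab.2 i * (ρ.1 i * w.1 i)) = ∏ i, e (ab.2 i * (ρ.1 i * w.1 i)) := e_sum _ _
      rw [h2, e_add, e_add, e_add, h5, h6, Finset.prod_mul_distrib, Finset.prod_mul_distrib]
      ring
    simp_rw [h1]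
    have h7 : ∫ ab : (Fin k → ℝ) × (Fin k → ℝ), (∏ i, κ (ab.1 i) * e (ab.1 i * (r i * ρ.1 i))) *
        (∏ i, κ (ab.2 i) * e (ab.2 i * (ρ.1 i * w.1 i)))
        ∂((Measure.pi fun _ : Fin k => μ0).prod (Measure.pi fun _ : Fin k => μ0)) =
        (∏ i, hh ℓ (r i * ρ.1 i)) * ∏ i, hh ℓ (ρ.1 i * w.1 i) := by
      rw [integral_prod_mul (μ := Measure.pi fun _ : Fin k => μ0)
        (ν := Measure.pi fun _ : Fin k => μ0)
        (fun a : Fin k → ℝ => ∏ i, κ (a i) * e (a i * (r i * ρ.1 i)))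
        (fun b : Fin k → ℝ => ∏ i, κ (b i) * e (b i * (ρ.1 i * w.1 i)))]
      rw [integral_fintype_prod_eq_prod (μ := fun _ : Fin k => μ0)
        (f := fun i (a : ℝ) => κ a * e (a * (r i * ρ.1 i))),
        integral_fintype_prod_eq_prod (μ := fun _ : Fin k => μ0)
        (f := fun i (a : ℝ) => κ a * e (a * (ρ.1 i * w.1 i)))]
      simp_rw [← hκ]
    rw [integral_const_mul, h7]
    ring
  -- even in the first variables
  have hPi : Integrable (fun ρ => ∫ ω, T (ρ, ω) ∂(mP k n)) := hTi.integral_prod_left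
  have hev : ∀ (b : Fin k → Bool) (ρ : Fin k → ℝ) (ξ : Fin n → ℝ),
      ∫ ω, T (((fun i => P1 (b i, ρ i)), ξ), ω) ∂(mP k n) = ∫ ω, T ((ρ, ξ), ω) ∂(mP k n) := by
    intro b ρ ξ
    rw [hinner, hinner]
    simp only
    have hs : ∀ (b : Bool) (u v : ℝ), hh ℓ (u * P1 (b, v)) = (sgn b) ^ ℓ * hh ℓ (u * v) := by
      intro b u v
      cases b
      · simp only [P1, sgn, Bool.false_eq_true, if_false]
        rw [mul_neg, hh_neg ℓ hℓ]
      · simp [P1, sgn]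
    have hs' : ∀ (b : Bool) (u v : ℝ), hh ℓ (P1 (b, v) * u) = (sgn b) ^ ℓ * hh ℓ (v * u) := by
      intro b u v
      rw [mul_comm, hs, mul_comm u v]
    have hs2 : ∀ b : Bool, (sgn b) ^ ℓ * (sgn b) ^ ℓ = 1 := by
      intro b
      rw [← mul_pow]
      cases b <;> simp [sgn]
    simp_rw [hs, hs']
    rw [norm_be_congr (ρ' := ρ) fun i => abs_P1 _ _]
    simp_rw [Finset.prod_mul_distrib, mul_assoc]
    rw [integral_const_mul]
    have h8 : (∏ i, sgn (b i) ^ ℓ) * ∏ i, sgn (b i) ^ ℓ = 1 := by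
      rw [← Finset.prod_mul_distrib]
      exact Finset.prod_eq_one fun i _ => hs2 _
    calc _ = ((∏ i, sgn (b i) ^ ℓ) * ∏ i, sgn (b i) ^ ℓ) *
        ((∏ i, hh ℓ (r i * ρ i)) * (e (∑ j, x j * ξ j) * (M ‖be k n (ρ, ξ)‖ *
          ∫ w, (∏ i, hh ℓ (ρ i * w.1 i)) * (e (-∑ j, w.2 j * ξ j) * VVm f w) ∂(mH k n)))) := by
          ring
      _ = _ := by rw [h8, one_mul]
  have hfold := int_even (volume : Measure (Fin n → ℝ)) (fun ρ => ∫ ω, T (ρ, ω) ∂(mP k n)) hPi hev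
  -- the left hand side
  have hlhs : (∏ i, ((‖y i‖ ^ ℓ : ℝ) : ℂ)) * TM M f (am k ℓ n (y, x)) =
      ∫ ρ, (∫ ω, T (ρ, ω) ∂(mP k n)) ∂(mH k n) := by
    rw [TM_am hℓ hI hf hM, ← integral_const_mul]
    refine integral_congr_ae ?_
    filter_upwards [ae_pi_pos k (volume : Measure (Fin n → ℝ))] with ρ hρ
    rw [hinner, ← Y_eq hℓ hI hf ρ hρ]
    calc (∏ i, ((‖y i‖ ^ ℓ : ℝ) : ℂ)) * ((∏ i, (((ρ.1 i ^ (2 * ℓ) : ℝ) : ℂ) *
          Sm ℓ (‖y i‖ * ρ.1 i))) * (e (∑ j, x j * ρ.2 j) * (M ‖be k n ρ‖ * GF (𝓕 f) ρ)))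
        = (∏ i, (((‖y i‖ ^ ℓ : ℝ) : ℂ) * (((ρ.1 i ^ (2 * ℓ) : ℝ) : ℂ) *
          Sm ℓ (‖y i‖ * ρ.1 i)))) * (e (∑ j, x j * ρ.2 j) *
            (M ‖be k n ρ‖ * GF (𝓕 f) ρ)) := by
          rw [Finset.prod_mul_distrib (f := fun i => ((‖y i‖ ^ ℓ : ℝ) : ℂ))]
          ring
      _ = (∏ i, (hh ℓ (r i * ρ.1 i) * ((ρ.1 i ^ ℓ : ℝ) : ℂ))) * (e (∑ j, x j * ρ.2 j) *
            (M ‖be k n ρ‖ * GF (𝓕 f) ρ)) := by
          congr 1
          refine Finset.prod_congr rfl fun i _ => ?_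
          unfold hh
          simp only [hr]
          push_cast
          ring
      _ = _ := by
          rw [Finset.prod_mul_distrib]
          ring
  rw [hlhs]
  have hswap : ∫ ρ, (∫ ω, T (ρ, ω) ∂(mP k n)) = ∫ ω, (∫ ρ, T (ρ, ω)) ∂(mP k n) :=
    integral_integral_swap hTi
  calc 2 ^ k * ∫ ρ, (∫ ω, T (ρ, ω) ∂(mP k n)) ∂(mH k n)
      = ∫ ρ, (∫ ω, T (ρ, ω) ∂(mP k n)) := hfold.symm
    _ = ∫ ω, (∫ ρ, T (ρ, ω)) ∂(mP k n) := hswap
    _ = _ := by
        refine integral_congr_ae (Eventually.of_forall fun ω => ?_)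
        simp only [hT]
        unfold KM
        rw [int_be, ← integral_const_mul]
        refine integral_congr_ae (Eventually.of_forall fun ρ => ?_)
        simp only
        ring

end Pool.Agent.Helper66K9.LSG
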