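import Pool.Agent.Helper66K9.LSG.Ball
set_option autoImplicit false

/-! # The uniform bound in block coordinates -/

namespace Pool.Agent.Helper66K9.LSG

open MeasureTheory Set Filter
open scoped ENNReal FourierTransform RealInnerProductSpace Topology SchwartzMap
open Pool.Agent.TH280.LS (e norm_e e_add measurable_e continuous_e plancherel e_conj)
open Pool.Agent.Helper66K9.LS (mI P1 P1_mp poly_mp ae_pi_pos be be_mp be_inl be_inr be_inner be_norm
  TM Mul F_eq int_MF int_eMF e_sum e_zero sgn P1_sgn abs_P1 norm_be_congr int_be Wq cont_F int_cpt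
  Sym Kt Mt jensen lint_be mI_le lint_pi_prod ae_pi_all Mt_mul)

variable {k ℓ n : ℕ}

/-- a box -/
def Bx (c : (Fin k → ℝ) × (Fin n → ℝ)) (R : ℝ) : Set ((Fin k → ℝ) × (Fin n → ℝ)) :=
  {w | (∀ i, |w.1 i - c.1 i| ≤ R) ∧ ∀ j, |w.2 j - c.2 j| ≤ R}

theorem Bx_meas (c : (Fin k → ℝ) × (Fin n → ℝ)) (R : ℝ) : MeasurableSet (Bx c R) := by
  have h1 : Bx c R = (⋂ i, {w | |w.1 i - c.1 i| ≤ R}) ∩ ⋂ j, {w | |w.2 j - c.2 j| ≤ R} := by
    ext w
    simp [Bx]
  rw [h1]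
  refine (MeasurableSet.iInter fun i => ?_).inter (MeasurableSet.iInter fun j => ?_)
  · exact measurableSet_le (by fun_prop) measurable_const
  · exact measurableSet_le (by fun_prop) measurable_const

theorem Bx_vol (c : (Fin k → ℝ) × (Fin n → ℝ)) {R : ℝ} (hR : 0 ≤ R) :
    volume (Bx c R) ≤ ENNReal.ofReal ((2 * R) ^ (k + n)) := by
  have h1 : Bx c R = (pi univ fun i => Icc (c.1 i - R) (c.1 i + R)) ×ˢ
      (pi univ fun j => Icc (c.2 j - R) (c.2 j + R)) := by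
    ext w
    simp only [Bx, mem_ofPred_eq, mem_prod, mem_univ_pi, mem_Icc, abs_le]
    constructor
    · rintro ⟨h1, h2⟩
      exact ⟨fun i => ⟨by linarith [(h1 i).1], by linarith [(h1 i).2]⟩,
        fun i => ⟨by linarith [(h2 i).1], by linarith [(h2 i).2]⟩⟩
    · rintro ⟨h1, h2⟩
      exact ⟨fun i => ⟨by linarith [(h1 i).1], by linarith [(h1 i).2]⟩,
        fun i => ⟨by linarith [(h2 i).1], by linarith [(h2 i).2]⟩⟩
  rw [h1, Measure.volume_eq_prod, Measure.prod_prod, volume_pi_pi, volume_pi_pi]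
  simp only [Real.volume_Icc]
  have h2 : ∀ x : ℝ, x + R - (x - R) = 2 * R := fun x => by ring
  simp only [h2, Finset.prod_const, Finset.card_univ, Fintype.card_fin]
  have h3 : 0 ≤ 2 * R := by positivity
  rw [pow_add, ENNReal.ofReal_mul (pow_nonneg h3 k), ENNReal.ofReal_pow h3,
    ENNReal.ofReal_pow h3]

theorem be_sub (p q : (Fin k → ℝ) × (Fin n → ℝ)) :
    be k n (fun i => p.1 i - q.1 i, fun j => p.2 j - q.2 j) = be k n p - be k n q := by
  ext j
  rcases j with i | j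
  · rw [be_inl, PiLp.sub_apply, be_inl, be_inl]
  · rw [be_inr, PiLp.sub_apply, be_inr, be_inr]

theorem Bx_ball (hkn : 1 ≤ k + n) {c q : (Fin k → ℝ) × (Fin n → ℝ)} {R : ℝ}
    (hR : 0 ≤ R) (h : q ∈ Bx c R) : ‖be k n q - be k n c‖ ≤ (k + n) * R := by
  have h0 : (1 : ℝ) ≤ k + n := by exact_mod_cast hkn
  have h1 : ‖be k n q - be k n c‖ ^ 2 ≤ ((k + n) * R) ^ 2 := by
    rw [← be_sub, be_norm]
    have h2 : ∀ x : ℝ, |x| ≤ R → x ^ 2 ≤ R ^ 2 := fun x hx => by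
      rw [← sq_abs x]
      have := abs_nonneg x
      gcongr
    calc (∑ i, (q.1 i - c.1 i) ^ 2) + ∑ j, (q.2 j - c.2 j) ^ 2
        ≤ (∑ _i : Fin k, R ^ 2) + ∑ _j : Fin n, R ^ 2 :=
          add_le_add (Finset.sum_le_sum fun i _ => h2 _ (h.1 i))
            (Finset.sum_le_sum fun i _ => h2 _ (h.2 i))
      _ = (k + n) * R ^ 2 := by
          simp only [Finset.sum_const, Finset.card_univ, Fintype.card_fin, nsmul_eq_mul]
          ring
      _ ≤ _ := by
          rw [mul_pow]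
          have : (k + n : ℝ) ≤ (k + n) ^ 2 := by nlinarith
          gcongr
  exact (abs_le_of_sq_le_sq' h1 (by positivity)).2

/-- the integral over one cell, for fixed parameters -/
theorem cell_int (k n : ℕ) (hkn : 1 ≤ k + n) (s : ℝ) (hs1 : 1 < s) (hs2 : s < 2) (R0 : ℝ)
    (hR0 : 0 ≤ R0) : ∃ C : ℝ, 0 < C ∧ ∀ (N A : ℝ) (Ψ : ℝ → ℝ), 1 ≤ N → Sym N A Ψ →
    ∀ t : ℝ, 1 ≤ |t| → |t| ≤ 2 → ∀ (r : Fin k → ℝ) (x : Fin n → ℝ)
      (c : (Fin k → ℝ) × (Fin n → ℝ)) (a b : Fin k → ℝ), (∀ i, 0 < |b i| ∧ |b i| ≤ 1) →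
    ∫⁻ w, (Bx c R0).indicator (fun _ => (1 : ℝ≥0∞)) w *
      ‖Kt (Wq k n) Ψ t (Dp r x (w, (a, b)))‖ₑ ∂(mH k n) ≤
      ENNReal.ofReal (C * A * N ^ (((k + n : ℝ) - 1) / 2 + (1 - 1 / s))) *
        ∏ i, ENNReal.ofReal (|b i| ^ (-(1 / s))) := by
  have hne : Nonempty (Fin k ⊕ Fin n) := by
    rw [← Fintype.card_pos_iff]
    simp only [Fintype.card_sum, Fintype.card_fin]
    omega
  obtain ⟨C1, hC1, hball⟩ := ball_s (W := Wq k n) s hs1.le hs2 ((k + n) * R0) (by positivity)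
  have hfr : Module.finrank ℝ (Wq k n) = k + n := by
    rw [finrank_euclideanSpace, Fintype.card_sum, Fintype.card_fin, Fintype.card_fin]
  rw [hfr] at hball
  have hs0 : 0 < s := by linarith
  refine ⟨(((2 * R0) ^ (k + n)) ^ (s - 1) * C1) ^ (1 / s) + 1, by positivity, ?_⟩
  intro N A Ψ hN h t ht1 ht2 r x c a b hb
  have hN0 : 0 < N := by linarith
  have hA := h.nonneg
  have hb0 : ∀ i, b i ≠ 0 := fun i => abs_pos.1 (hb i).1
  set K : Wq k n → ℂ := Kt (Wq k n) Ψ t with hK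
  have hKm : Measurable K := Kt_meas hN h t
  set z0 : Wq k n := be k n (fun i => a i * r i, x) with hz0
  set c' : (Fin k → ℝ) × (Fin n → ℝ) := (fun i => -b i * c.1 i, c.2) with hc'
  have hDm : Measurable (fun w : (Fin k → ℝ) × (Fin n → ℝ) => Dp r x (w, (a, b))) :=
    (Dp_meas r x).comp (f := fun w : (Fin k → ℝ) × (Fin n → ℝ) => (w, (a, b))) (by fun_prop)
  have hgm : Measurable (fun w : (Fin k → ℝ) × (Fin n → ℝ) => ‖K (Dp r x (w, (a, b)))‖ₑ) :=
    (hKm.comp hDm).enorm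
  have hBm := Bx_meas c R0
  -- Jensen
  have e1 : ∫⁻ w, (Bx c R0).indicator (fun _ => (1 : ℝ≥0∞)) w *
      ‖K (Dp r x (w, (a, b)))‖ₑ ∂(mH k n) =
      ∫⁻ w, ‖K (Dp r x (w, (a, b)))‖ₑ ∂((mH k n).restrict (Bx c R0)) := by
    rw [← lintegral_indicator hBm]
    refine lintegral_congr fun w => ?_
    by_cases hw : w ∈ Bx c R0
    · simp [indicator_of_mem hw]
    · simp [indicator_of_notMem hw]
  have e2 := jensen ((mH k n).restrict (Bx c R0)) hgm.aemeasurable hs1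
  have e3 : (mH k n).restrict (Bx c R0) univ ≤ ENNReal.ofReal ((2 * R0) ^ (k + n)) := by
    rw [Measure.restrict_apply_univ]
    exact (mI_le k n _).trans (Bx_vol c hR0)
  -- substitution
  set Φ : (Fin k → ℝ) × (Fin n → ℝ) → ℝ≥0∞ := fun q =>
    (Bx c' R0).indicator (fun _ => (1 : ℝ≥0∞)) q * ‖K (z0 - be k n q)‖ₑ ^ s with hΦ
  have hΦm : Measurable Φ := by
    refine Measurable.mul (measurable_const.indicator (Bx_meas _ _)) ?_
    exact (hKm.comp (measurable_const.sub (be k n).measurable)).enorm.pow_const s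
  have e4 : ∫⁻ w, ‖K (Dp r x (w, (a, b)))‖ₑ ^ s ∂((mH k n).restrict (Bx c R0)) ≤
      ENNReal.ofReal (∏ i, |b i|⁻¹) * ∫⁻ q, Φ q := by
    have h1 : ENNReal.ofReal (∏ i, |b i|⁻¹) * ∫⁻ q, Φ q =
        ∫⁻ w : (Fin k → ℝ) × (Fin n → ℝ), Φ (fun i => -b i * w.1 i, w.2) := by
      rw [diag_lint2 (fun i => -b i) (fun i => neg_ne_zero.2 (hb0 i)) hΦm]
      simp only [abs_neg]
    rw [h1]
    calc ∫⁻ w, ‖K (Dp r x (w, (a, b)))‖ₑ ^ s ∂((mH k n).restrict (Bx c R0))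
        ≤ ∫⁻ w, ‖K (Dp r x (w, (a, b)))‖ₑ ^ s ∂(volume.restrict (Bx c R0)) :=
          lintegral_mono' (Measure.restrict_mono le_rfl (mI_le k n)) le_rfl
      _ = ∫⁻ w, (Bx c R0).indicator (fun w => ‖K (Dp r x (w, (a, b)))‖ₑ ^ s) w := by
          rw [lintegral_indicator hBm]
      _ ≤ _ := by
          refine lintegral_mono fun w => ?_
          by_cases hw : w ∈ Bx c R0
          · rw [indicator_of_mem hw]
            have hw' : ((fun i => -b i * w.1 i, w.2) : (Fin k → ℝ) × (Fin n → ℝ)) ∈ Bx c' R0 := by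
              refine ⟨fun i => ?_, fun j => hw.2 j⟩
              simp only [hc']
              rw [show -b i * w.1 i - -b i * c.1 i = -b i * (w.1 i - c.1 i) by ring, abs_mul,
                abs_neg]
              calc |b i| * |w.1 i - c.1 i| ≤ 1 * R0 :=
                    mul_le_mul (hb i).2 (hw.1 i) (abs_nonneg _) zero_le_one
                _ = R0 := one_mul _
            simp only [hΦ]
            rw [indicator_of_mem hw', one_mul]
            have h2 : Dp r x (w, (a, b)) = z0 - be k n (fun i => -b i * w.1 i, w.2) := by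
              rw [hz0, ← be_sub]
              unfold Dp
              simp only
              congr 2
              funext i
              ring
            rw [h2]
          · rw [indicator_of_notMem hw]
            exact zero_le
  have e5 : ∫⁻ q, Φ q ≤ ENNReal.ofReal (C1 * A ^ s *
      N ^ ((((k + n : ℕ) : ℝ) * s - (2 - s)) / 2)) := by
    set g : Wq k n → ℝ≥0∞ := fun w =>
      (Metric.closedBall (0 : Wq k n) ((k + n) * R0)).indicator (fun _ => (1 : ℝ≥0∞))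
        (w - be k n c') * ‖K (z0 - w)‖ₑ ^ s with hg
    calc ∫⁻ q, Φ q ≤ ∫⁻ q, g (be k n q) := by
          refine lintegral_mono fun q => ?_
          simp only [hΦ, hg]
          by_cases hq : q ∈ Bx c' R0
          · have hq' : be k n q - be k n c' ∈ Metric.closedBall (0 : Wq k n) ((k + n) * R0) := by
              rw [mem_closedBall_zero_iff]
              exact Bx_ball hkn hR0 hq
            rw [indicator_of_mem hq, indicator_of_mem hq']
          · rw [indicator_of_notMem hq, zero_mul]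
            exact zero_le
      _ = ∫⁻ w, g w := (lint_be g).symm
      _ = ∫⁻ w, g (w + be k n c') := (lintegral_add_right_eq_self g _).symm
      _ = ∫⁻ w in Metric.closedBall (0 : Wq k n) ((k + n) * R0),
          ‖K ((z0 - be k n c') - w)‖ₑ ^ s := by
          rw [← lintegral_indicator Metric.isClosed_closedBall.measurableSet]
          refine lintegral_congr fun w => ?_
          simp only [hg]
          rw [add_sub_cancel_right]
          by_cases hw : w ∈ Metric.closedBall (0 : Wq k n) ((k + n) * R0)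
          · rw [indicator_of_mem hw, indicator_of_mem hw, one_mul, sub_sub, add_comm (be k n c')]
          · rw [indicator_of_notMem hw, indicator_of_notMem hw, zero_mul]
      _ ≤ _ := by
          have := hball N A Ψ hN h t ht1 ht2 (z0 - be k n c')
          push_cast at this ⊢
          exact this
  have hP0 : 0 ≤ ∏ i, |b i|⁻¹ := Finset.prod_nonneg fun i _ => inv_nonneg.2 (abs_nonneg _)
  rw [e1]
  have e6 : (∫⁻ w, ‖K (Dp r x (w, (a, b)))‖ₑ ∂((mH k n).restrict (Bx c R0))) ^ s ≤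
      ENNReal.ofReal (((2 * R0) ^ (k + n)) ^ (s - 1) * ((∏ i, |b i|⁻¹) * (C1 * A ^ s *
        N ^ ((((k + n : ℕ) : ℝ) * s - (2 - s)) / 2)))) := by
    rw [ENNReal.ofReal_mul (by positivity), ENNReal.ofReal_mul hP0,
      ← ENNReal.ofReal_rpow_of_nonneg (by positivity) (by linarith)]
    refine e2.trans (mul_le_mul' (ENNReal.rpow_le_rpow e3 (by linarith)) (e4.trans ?_))
    exact mul_le_mul_right e5 _
  have e7 := (ENNReal.le_rpow_inv_iff hs0).2 e6
  refine e7.trans ?_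
  rw [← ENNReal.ofReal_prod_of_nonneg fun i _ => Real.rpow_nonneg (abs_nonneg _) _,
    ← ENNReal.ofReal_mul (by positivity), ENNReal.ofReal_rpow_of_nonneg (by positivity)
      (by positivity)]
  apply ENNReal.ofReal_le_ofReal
  have e8 : (∏ i, |b i|⁻¹) ^ s⁻¹ = ∏ i, |b i| ^ (-(1 / s)) := by
    rw [← Real.finsetProd_rpow _ _ (fun i _ => inv_nonneg.2 (abs_nonneg _))]
    refine Finset.prod_congr rfl fun i _ => ?_
    rw [Real.inv_rpow (abs_nonneg _), ← Real.rpow_neg (abs_nonneg _), one_div]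
  have e9 : (N ^ ((((k + n : ℕ) : ℝ) * s - (2 - s)) / 2)) ^ s⁻¹ =
      N ^ (((k + n : ℝ) - 1) / 2 + (1 - 1 / s)) := by
    rw [← Real.rpow_mul hN0.le]
    congr 1
    push_cast
    field_simp
    ring
  have e10 : (A ^ s) ^ s⁻¹ = A := Real.rpow_rpow_inv hA hs0.ne'
  rw [Real.mul_rpow (by positivity) (by positivity), Real.mul_rpow hP0 (by positivity),
    Real.mul_rpow (by positivity) (by positivity), Real.mul_rpow (by positivity) (by positivity),
    e8, e9, e10, Real.mul_rpow (by positivity) (by positivity), one_div]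
  have hP1 : 0 ≤ ∏ i, |b i| ^ (-(1 / s)) :=
    Finset.prod_nonneg fun i _ => Real.rpow_nonneg (abs_nonneg _) _
  rw [one_div] at hP1
  calc (((2 * R0) ^ (k + n)) ^ (s - 1)) ^ s⁻¹ * ((∏ i, |b i| ^ (-s⁻¹)) *
        (C1 ^ s⁻¹ * A * N ^ (((k + n : ℝ) - 1) / 2 + (1 - s⁻¹))))
      = ((((2 * R0) ^ (k + n)) ^ (s - 1)) ^ s⁻¹ * C1 ^ s⁻¹) * A *
        N ^ (((k + n : ℝ) - 1) / 2 + (1 - s⁻¹)) * ∏ i, |b i| ^ (-s⁻¹) := by ring
    _ ≤ _ := by
        have : (((2 * R0) ^ (k + n)) ^ (s - 1)) ^ s⁻¹ * C1 ^ s⁻¹ ≤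
          (((2 * R0) ^ (k + n)) ^ (s - 1)) ^ s⁻¹ * C1 ^ s⁻¹ + 1 := by linarith
        gcongr

/-- the integral over one cell -/
theorem key_int (k n : ℕ) (hkn : 1 ≤ k + n) (s : ℝ) (hs1 : 1 < s) (hs2 : s < 2) (R0 : ℝ)
    (hR0 : 0 ≤ R0) : ∃ C : ℝ, 0 < C ∧ ∀ (N A : ℝ) (Ψ : ℝ → ℝ), 1 ≤ N → Sym N A Ψ →
    ∀ t : ℝ, 1 ≤ |t| → |t| ≤ 2 → ∀ (r : Fin k → ℝ) (x : Fin n → ℝ)
      (c : (Fin k → ℝ) × (Fin n → ℝ)),
    ∫⁻ ω : Par k n, (Bx c R0).indicator (fun _ => (1 : ℝ≥0∞)) ω.1 *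
      ‖Kt (Wq k n) Ψ t (Dp r x ω)‖ₑ ∂(mP k n) ≤
      ENNReal.ofReal (C * A * N ^ (((k + n : ℝ) - 1) / 2 + (1 - 1 / s))) := by
  obtain ⟨C1, hC1, hcell⟩ := cell_int k n hkn s hs1 hs2 R0 hR0
  have hs0 : 0 < s := by linarith
  have hα : 1 / s < 1 := by rw [div_lt_one hs0]; exact hs1
  have hI := lint_pow_μ0 hα
  set I : ℝ≥0∞ := ∫⁻ a, ENNReal.ofReal (|a| ^ (-(1 / s))) ∂μ0 with hIdef
  set D : ℝ≥0∞ := (Measure.pi fun _ : Fin k => μ0) univ * I ^ k with hD
  have hDt : D ≠ (⊤ : ℝ≥0∞) := by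
    refine ENNReal.mul_ne_top ?_ (ENNReal.pow_ne_top hI.ne)
    rw [Measure.pi_univ]
    exact ENNReal.prod_ne_top fun i _ => measure_ne_top _ _
  refine ⟨C1 * (D.toReal + 1), by positivity, ?_⟩
  intro N A Ψ hN h t ht1 ht2 r x c
  have hN0 : 0 < N := by linarith
  have hA := h.nonneg
  have hKm : Measurable (Kt (Wq k n) Ψ t) := Kt_meas hN h t
  have hm : Measurable (fun ω : Par k n => (Bx c R0).indicator (fun _ => (1 : ℝ≥0∞)) ω.1 *
      ‖Kt (Wq k n) Ψ t (Dp r x ω)‖ₑ) := by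
    refine Measurable.mul ?_ (hKm.comp (Dp_meas r x)).enorm
    exact (measurable_const.indicator (Bx_meas c R0)).comp measurable_fst
  rw [lintegral_prod_symm' _ hm]
  have hae : ∀ᵐ ab ∂((Measure.pi fun _ : Fin k => μ0).prod (Measure.pi fun _ : Fin k => μ0)),
      ∀ i, 0 < |ab.2 i| ∧ |ab.2 i| ≤ 1 :=
    Measure.quasiMeasurePreserving_snd.ae (ae_pi_all (k := k) μ0_ae)
  set E : ℝ≥0∞ := ENNReal.ofReal (C1 * A * N ^ (((k + n : ℝ) - 1) / 2 + (1 - 1 / s))) with hE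
  have hpm : Measurable (fun b : Fin k → ℝ => ∏ i, ENNReal.ofReal (|b i| ^ (-(1 / s)))) := by
    fun_prop
  calc ∫⁻ ab, ∫⁻ w, (Bx c R0).indicator (fun _ => (1 : ℝ≥0∞)) w *
        ‖Kt (Wq k n) Ψ t (Dp r x (w, ab))‖ₑ ∂(mH k n)
        ∂((Measure.pi fun _ : Fin k => μ0).prod (Measure.pi fun _ : Fin k => μ0))
      ≤ ∫⁻ ab, E * ∏ i, ENNReal.ofReal (|ab.2 i| ^ (-(1 / s)))
        ∂((Measure.pi fun _ : Fin k => μ0).prod (Measure.pi fun _ : Fin k => μ0)) := by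
        refine lintegral_mono_ae ?_
        filter_upwards [hae] with ab hab
        exact hcell N A Ψ hN h t ht1 ht2 r x c ab.1 ab.2 hab
    _ = E * D := by
        rw [lintegral_const_mul' _ _ ENNReal.ofReal_ne_top]
        congr 1
        have hpm2 : Measurable (fun ab : (Fin k → ℝ) × (Fin k → ℝ) =>
            ∏ i, ENNReal.ofReal (|ab.2 i| ^ (-(1 / s)))) := hpm.comp measurable_snd
        rw [lintegral_prod _ hpm2.aemeasurable]
        simp only
        rw [lint_pi_prod μ0 k (fun _ b => ENNReal.ofReal (|b| ^ (-(1 / s))))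
          (fun _ => by fun_prop), lintegral_const, Finset.prod_const, Finset.card_univ,
          Fintype.card_fin, mul_comm]
    _ ≤ E * ENNReal.ofReal (D.toReal + 1) := by
        refine mul_le_mul_right ?_ _
        rw [← ENNReal.ofReal_toReal hDt]
        apply ENNReal.ofReal_le_ofReal
        rw [ENNReal.toReal_ofReal ENNReal.toReal_nonneg]
        linarith
    _ = _ := by
        rw [hE, ← ENNReal.ofReal_mul (by positivity)]
        congr 1
        ring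

/-- the uniform bound for data supported in one cell -/
theorem sup_G (k ℓ n : ℕ) (hℓ : 1 ≤ ℓ) (hkn : 1 ≤ k + n) (s : ℝ) (hs1 : 1 < s) (hs2 : s < 2)
    (R0 : ℝ) (hR0 : 0 ≤ R0) : ∃ C : ℝ, 0 < C ∧ ∀ (N A : ℝ) (Ψ : ℝ → ℝ), 1 ≤ N → Sym N A Ψ →
    ∀ t : ℝ, 1 ≤ |t| → |t| ≤ 2 → ∀ f : Wm k ℓ n → ℂ, Inv f → Integrable f → Measurable f →
    ∀ c : (Fin k → ℝ) × (Fin n → ℝ), (∀ w, (∀ i, 0 < w.1 i) → VVm f w ≠ 0 → w ∈ Bx c R0) →
    ∀ L : ℝ, 0 ≤ L → (∀ w, (∀ i, 0 < w.1 i) → ‖VVm f w‖ ≤ L) →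
    ∀ (y : Fin k → Em ℓ) (x : Fin n → ℝ),
    ‖(∏ i, ((‖y i‖ ^ ℓ : ℝ) : ℂ)) * TM (Mt Ψ t) f (am k ℓ n (y, x))‖ ≤
      C * A * N ^ (((k + n : ℝ) - 1) / 2 + (1 - 1 / s)) * L := by
  obtain ⟨C1, hC1, hkey⟩ := key_int k n hkn s hs1 hs2 R0 hR0
  obtain ⟨κ, B, hκm, hB, hκB, hκ⟩ := hh_rep ℓ hℓ
  refine ⟨B ^ (2 * k) * C1, by positivity, ?_⟩
  intro N A Ψ hN h t ht1 ht2 f hI hf hfm c hsupp L hL hVL y x
  have hN0 : 0 < N := by linarith
  have hA := h.nonneg
  have hae : ∀ᵐ w ∂(mH k n), ∀ i, 0 < w.1 i := ae_pi_pos k (volume : Measure (Fin n → ℝ))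
  have hVm := VVm_meas hfm
  have hBm := Bx_meas c R0
  have hV : Integrable (VVm f) (mH k n) := by
    refine Integrable.mono' (g := (Bx c R0).indicator fun _ => L) ?_ hVm.aestronglyMeasurable ?_
    · rw [integrable_indicator_iff hBm]
      refine integrableOn_const ?_
      exact ((mI_le k n _).trans_lt ((Bx_vol c hR0).trans_lt ENNReal.ofReal_lt_top)).ne
    · filter_upwards [hae] with w hw
      by_cases hz : VVm f w = 0
      · rw [hz, norm_zero]
        exact indicator_nonneg (fun _ _ => hL) w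
      · rw [indicator_of_mem (hsupp w hw hz)]
        exact hVL w hw
  have hform := main_formula hℓ hI hf hV hκm hκB hκ (Mt_mul hN h t) y x
  set X : ℂ := (∏ i, ((‖y i‖ ^ ℓ : ℝ) : ℂ)) * TM (Mt Ψ t) f (am k ℓ n (y, x)) with hX
  have hK : ∀ z, KM k n (Mt Ψ t) z = Kt (Wq k n) Ψ t z := fun z => rfl
  simp_rw [hK] at hform
  have haeP : ∀ᵐ ω ∂(mP k n), ∀ i, 0 < ω.1.1 i := Measure.quasiMeasurePreserving_fst.ae hae
  have h1 : ‖(2 : ℂ) ^ k * X‖ₑ ≤ ENNReal.ofReal (L * B ^ (2 * k)) *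
      ENNReal.ofReal (C1 * A * N ^ (((k + n : ℝ) - 1) / 2 + (1 - 1 / s))) := by
    rw [hform]
    calc ‖∫ ω, (VVm f ω.1 * ((∏ i, κ (ω.2.1 i)) * ∏ i, κ (ω.2.2 i))) *
          Kt (Wq k n) Ψ t (Dp (fun i => ‖y i‖) x ω) ∂(mP k n)‖ₑ
        ≤ ∫⁻ ω, ‖(VVm f ω.1 * ((∏ i, κ (ω.2.1 i)) * ∏ i, κ (ω.2.2 i))) *
          Kt (Wq k n) Ψ t (Dp (fun i => ‖y i‖) x ω)‖ₑ ∂(mP k n) :=
          enorm_integral_le_lintegral_enorm _
      _ ≤ ∫⁻ ω, ENNReal.ofReal (L * B ^ (2 * k)) *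
          ((Bx c R0).indicator (fun _ => (1 : ℝ≥0∞)) ω.1 *
            ‖Kt (Wq k n) Ψ t (Dp (fun i => ‖y i‖) x ω)‖ₑ) ∂(mP k n) := by
          refine lintegral_mono_ae ?_
          filter_upwards [haeP] with ω hω
          rw [enorm_mul, ← mul_assoc (ENNReal.ofReal (L * B ^ (2 * k)))]
          refine mul_le_mul' ?_ le_rfl
          by_cases hz : VVm f ω.1 = 0
          · rw [hz, zero_mul, enorm_zero]
            exact zero_le
          · rw [indicator_of_mem (hsupp ω.1 hω hz), mul_one, ← ofReal_norm]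
            apply ENNReal.ofReal_le_ofReal
            rw [norm_mul, norm_mul, norm_prod, norm_prod]
            have hp : ∀ a : Fin k → ℝ, ∏ i, ‖κ (a i)‖ ≤ B ^ k := by
              intro a
              calc ∏ i, ‖κ (a i)‖ ≤ ∏ _i : Fin k, B :=
                    Finset.prod_le_prod (fun i _ => norm_nonneg _) fun i _ => hκB _
                _ = B ^ k := by simp
            have hp0 : ∀ a : Fin k → ℝ, 0 ≤ ∏ i, ‖κ (a i)‖ := fun a =>
              Finset.prod_nonneg fun i _ => norm_nonneg _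
            calc ‖VVm f ω.1‖ * ((∏ i, ‖κ (ω.2.1 i)‖) * ∏ i, ‖κ (ω.2.2 i)‖)
                ≤ L * (B ^ k * B ^ k) :=
                  mul_le_mul (hVL _ hω) (mul_le_mul (hp _) (hp _) (hp0 _) (by positivity))
                    (mul_nonneg (hp0 _) (hp0 _)) hL
              _ = L * B ^ (2 * k) := by ring
      _ = ENNReal.ofReal (L * B ^ (2 * k)) * ∫⁻ ω,
          ((Bx c R0).indicator (fun _ => (1 : ℝ≥0∞)) ω.1 *
            ‖Kt (Wq k n) Ψ t (Dp (fun i => ‖y i‖) x ω)‖ₑ) ∂(mP k n) :=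
          lintegral_const_mul' _ _ ENNReal.ofReal_ne_top
      _ ≤ _ := by
          refine mul_le_mul_right ?_ _
          exact hkey N A Ψ hN h t ht1 ht2 _ x c
  rw [← ENNReal.ofReal_mul (by positivity), ← ofReal_norm] at h1
  have h2 := (ENNReal.ofReal_le_ofReal_iff (by positivity)).1 h1
  have h3 : ‖X‖ ≤ ‖(2 : ℂ) ^ k * X‖ := by
    rw [norm_mul ((2 : ℂ) ^ k) X, norm_pow, Complex.norm_ofNat]
    exact le_mul_of_one_le_left (norm_nonneg _) (one_le_pow₀ (by norm_num))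
  calc ‖X‖ ≤ _ := h3
    _ ≤ _ := h2
    _ = _ := by ring

end Pool.Agent.Helper66K9.LSG
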