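import Pool.Agent.Helper66K9.LSG.Co
set_option autoImplicit false

/-! # The Fourier transform of the sphere of even dimension -/

namespace Pool.Agent.Helper66K9.LSG

open MeasureTheory Set Filter
open scoped ENNReal FourierTransform RealInnerProductSpace Topology
open Pool.Agent.TH280.LS (e norm_e e_add measurable_e continuous_e plancherel e_conj)
open Pool.Agent.H789R2.FR (sg)
open Pool.Agent.Helper66K9.LS

/-- Fourier transforms of simple finite measures on `[-1,1]` -/
def RepF (h : ℝ → ℂ) : Prop := ∃ (c1 c2 : ℂ) (Q : Polynomial ℂ), ∀ s : ℝ,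
  h s = c1 * e s + c2 * e (-s) + ∫ a in (-1 : ℝ)..1, e (a * s) * Q.eval (a : ℂ)

theorem ibp (P : Polynomial ℂ) (s : ℝ) :
    (2 * Real.pi * Complex.I * s) * ∫ a in (-1 : ℝ)..1, e (a * s) * P.eval (a : ℂ) =
      P.eval 1 * e s - P.eval (-1) * e (-s) -
        ∫ a in (-1 : ℝ)..1, e (a * s) * P.derivative.eval (a : ℂ) := by
  have hd1 : ∀ a : ℝ, HasDerivAt (fun a : ℝ => e (a * s))
      ((2 * Real.pi * Complex.I * s) * e (a * s)) a := by
    intro a
    unfold e
    have h1 : HasDerivAt (fun a : ℝ => (((2 * Real.pi * (a * s) : ℝ) : ℂ)) * Complex.I)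
        (((2 * Real.pi * (1 * s) : ℝ) : ℂ) * Complex.I) a := by
      refine HasDerivAt.mul_const ?_ Complex.I
      exact (((hasDerivAt_id a).mul_const s).const_mul (2 * Real.pi)).ofReal_comp
    refine h1.cexp.congr_deriv ?_
    push_cast
    ring
  have hd2 : ∀ a : ℝ, HasDerivAt (fun a : ℝ => P.eval (a : ℂ)) (P.derivative.eval (a : ℂ)) a := by
    intro a
    exact (P.hasDerivAt (a : ℂ)).comp_ofReal
  have hd : ∀ a : ℝ, HasDerivAt (fun a : ℝ => e (a * s) * P.eval (a : ℂ))
      ((2 * Real.pi * Complex.I * s) * (e (a * s) * P.eval (a : ℂ)) +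
        e (a * s) * P.derivative.eval (a : ℂ)) a := by
    intro a
    refine ((hd1 a).mul (hd2 a)).congr_deriv ?_
    ring
  have hc : Continuous (fun a : ℝ => e (a * s)) := continuous_e.comp (by fun_prop)
  have hcP : ∀ R : Polynomial ℂ, Continuous (fun a : ℝ => e (a * s) * R.eval (a : ℂ)) := by
    intro R
    exact hc.mul (R.continuous.comp Complex.continuous_ofReal)
  have hc1 : Continuous (fun a : ℝ => (2 * Real.pi * Complex.I * s : ℂ) *
      (e (a * s) * P.eval (a : ℂ))) := continuous_const.mul (hcP P)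
  have h1 := intervalIntegral.integral_eq_sub_of_hasDerivAt (a := -1) (b := 1)
    (fun a _ => hd a) ((hc1.add (hcP P.derivative)).intervalIntegrable _ _)
  rw [intervalIntegral.integral_add (hc1.intervalIntegrable _ _)
    ((hcP P.derivative).intervalIntegrable _ _), intervalIntegral.integral_const_mul] at h1
  have h2 : e ((1 : ℝ) * s) * P.eval (((1 : ℝ) : ℂ)) - e ((-1 : ℝ) * s) * P.eval (((-1 : ℝ) : ℂ)) =
      P.eval 1 * e s - P.eval (-1) * e (-s) := by
    rw [one_mul, neg_one_mul]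
    push_cast
    ring
  rw [h2] at h1
  rw [← h1]
  ring

theorem rep_poly : ∀ (j : ℕ) (Q : Polynomial ℂ), RepF (fun s : ℝ => (s : ℂ) ^ (j + 1) *
    ∫ a in (-1 : ℝ)..1, e (a * s) * ((1 - Polynomial.X ^ 2) ^ j * Q).eval (a : ℂ)) := by
  have hpi : (2 * Real.pi * Complex.I : ℂ) ≠ 0 := by
    have := Complex.I_ne_zero
    have h2 : (Real.pi : ℂ) ≠ 0 := by exact_mod_cast Real.pi_ne_zero
    simp [h2]
  intro j
  induction j with
  | zero =>
      intro Q
      refine ⟨Q.eval 1 / (2 * Real.pi * Complex.I), -(Q.eval (-1) / (2 * Real.pi * Complex.I)),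
        Polynomial.C (-(1 / (2 * Real.pi * Complex.I))) * Q.derivative, fun s => ?_⟩
      have h := ibp Q s
      simp only [pow_zero, one_mul, zero_add, pow_one, Polynomial.eval_mul, Polynomial.eval_C]
      have h3 : ∫ a in (-1 : ℝ)..1, e (a * s) * (-(1 / (2 * Real.pi * Complex.I)) *
          Q.derivative.eval (a : ℂ)) = -(1 / (2 * Real.pi * Complex.I)) *
          ∫ a in (-1 : ℝ)..1, e (a * s) * Q.derivative.eval (a : ℂ) := by
        rw [← intervalIntegral.integral_const_mul]
        refine intervalIntegral.integral_congr fun a _ => ?_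
        ring
      rw [h3]
      have h4 : ∀ J : ℂ, (s : ℂ) * J =
          (1 / (2 * Real.pi * Complex.I)) * ((2 * Real.pi * Complex.I * s) * J) := by
        intro J
        field_simp
      rw [h4, h]
      ring
  | succ j ih =>
      intro Q
      set P : Polynomial ℂ := (1 - Polynomial.X ^ 2) ^ (j + 1) * Q with hP
      set Q1 : Polynomial ℂ := Polynomial.C (-(1 / (2 * Real.pi * Complex.I))) *
        (Polynomial.C ((j + 1 : ℕ) : ℂ) * (-(2 * Polynomial.X)) * Q +
          (1 - Polynomial.X ^ 2) * Q.derivative) with hQ1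
      obtain ⟨c1, c2, R, hR⟩ := ih Q1
      refine ⟨c1, c2, R, fun s => ?_⟩
      rw [← hR s]
      have h := ibp P s
      have hP1 : P.eval 1 = 0 := by simp [hP]
      have hP2 : P.eval (-1) = 0 := by simp [hP]
      rw [hP1, hP2, zero_mul, zero_mul, sub_zero, zero_sub] at h
      have hPd : P.derivative = (1 - Polynomial.X ^ 2) ^ j *
          (Polynomial.C ((j + 1 : ℕ) : ℂ) * (-(2 * Polynomial.X)) * Q +
          (1 - Polynomial.X ^ 2) * Q.derivative) := by
        rw [hP, Polynomial.derivative_mul, Polynomial.derivative_pow]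
        simp only [Polynomial.derivative_sub, Polynomial.derivative_one,
          Polynomial.derivative_X_pow, Nat.add_sub_cancel, map_natCast]
        push_cast
        ring
      have h3 : ∫ a in (-1 : ℝ)..1, e (a * s) * ((1 - Polynomial.X ^ 2) ^ j * Q1).eval (a : ℂ) =
          -(1 / (2 * Real.pi * Complex.I)) *
          ∫ a in (-1 : ℝ)..1, e (a * s) * P.derivative.eval (a : ℂ) := by
        rw [← intervalIntegral.integral_const_mul]
        refine intervalIntegral.integral_congr fun a _ => ?_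
        simp only [hPd, hQ1, Polynomial.eval_mul, Polynomial.eval_C]
        ring
      simp only
      rw [h3]
      have h4 : ∀ J : ℂ, (s : ℂ) ^ (j + 1 + 1) * J =
          (s : ℂ) ^ (j + 1) * ((1 / (2 * Real.pi * Complex.I)) *
            ((2 * Real.pi * Complex.I * s) * J)) := by
        intro J
        rw [pow_succ]
        field_simp
      rw [h4, h]
      ring

/-- the reference measure -/
noncomputable def μ0 : Measure ℝ :=
  Measure.dirac 1 + Measure.dirac (-1) + volume.restrict (Icc (-1) 1)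

instance : IsFiniteMeasure μ0 := by
  unfold μ0
  infer_instance

theorem μ0_ae : ∀ᵐ a ∂μ0, 0 < |a| ∧ |a| ≤ 1 := by
  unfold μ0
  rw [ae_add_measure_iff, ae_add_measure_iff]
  refine ⟨⟨?_, ?_⟩, ?_⟩
  · rw [ae_dirac_iff]
    · simp
    · exact (measurableSet_lt measurable_const continuous_abs.measurable).inter
        (measurableSet_le continuous_abs.measurable measurable_const)
  · rw [ae_dirac_iff]
    · simp
    · exact (measurableSet_lt measurable_const continuous_abs.measurable).inter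
        (measurableSet_le continuous_abs.measurable measurable_const)
  · have h1 : ∀ᵐ a : ℝ ∂(volume.restrict (Icc (-1) 1)), a ∈ Icc (-1 : ℝ) 1 :=
      ae_restrict_mem measurableSet_Icc
    have h2 : ∀ᵐ a : ℝ ∂(volume.restrict (Icc (-1 : ℝ) 1)), a ≠ 0 := by
      refine ae_restrict_of_ae ?_
      rw [ae_iff]
      have : {a : ℝ | ¬ a ≠ 0} = {0} := by ext; simp
      rw [this]
      exact measure_singleton _
    filter_upwards [h1, h2] with a ha hb
    exact ⟨abs_pos.2 hb, abs_le.2 ha⟩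

theorem lint_μ0 {g : ℝ → ℝ≥0∞} (hg : Measurable g) :
    ∫⁻ a, g a ∂μ0 = g 1 + g (-1) + ∫⁻ a in Icc (-1 : ℝ) 1, g a := by
  unfold μ0
  rw [lintegral_add_measure, lintegral_add_measure, lintegral_dirac' _ hg, lintegral_dirac' _ hg]

/-- bounded densities with respect to the reference measure -/
theorem RepF.exists_kappa {h : ℝ → ℂ} (hh : RepF h) : ∃ (κ : ℝ → ℂ) (B : ℝ), Measurable κ ∧
    0 < B ∧ (∀ a, ‖κ a‖ ≤ B) ∧ ∀ s : ℝ, h s = ∫ a, κ a * e (a * s) ∂μ0 := by
  obtain ⟨c1, c2, Q, hQ⟩ := hh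
  have hQc : Continuous (fun a : ℝ => Q.eval (a : ℂ)) := Q.continuous.comp Complex.continuous_ofReal
  obtain ⟨B0, hB0⟩ := (isCompact_Icc (a := (-1 : ℝ)) (b := 1)).exists_bound_of_continuousOn
    hQc.continuousOn
  classical
  set κ : ℝ → ℂ := fun a => if a = 1 then c1 else if a = -1 then c2 else
    if a ∈ Icc (-1 : ℝ) 1 then Q.eval (a : ℂ) else 0 with hκ
  have hκm : Measurable κ := by
    refine Measurable.ite (measurableSet_singleton _) measurable_const
      (Measurable.ite (measurableSet_singleton _) measurable_const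
        (Measurable.ite measurableSet_Icc hQc.measurable measurable_const))
  have hB00 : 0 ≤ B0 := (norm_nonneg _).trans (hB0 0 (by constructor <;> norm_num))
  have hκB : ∀ a, ‖κ a‖ ≤ ‖c1‖ + ‖c2‖ + B0 + 1 := by
    intro a
    have h1 := norm_nonneg c1
    have h2 := norm_nonneg c2
    simp only [hκ]
    split_ifs with ha hb hc
    · linarith
    · linarith
    · have := hB0 a hc
      linarith
    · rw [norm_zero]
      positivity
  refine ⟨κ, ‖c1‖ + ‖c2‖ + B0 + 1, hκm, by positivity, hκB, fun s => ?_⟩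
  have hem : Measurable (fun a : ℝ => κ a * e (a * s)) :=
    hκm.mul (measurable_e.comp (by fun_prop))
  have hint : ∀ μ : Measure ℝ, IsFiniteMeasure μ → Integrable (fun a : ℝ => κ a * e (a * s)) μ := by
    intro μ _
    refine Integrable.of_bound hem.aestronglyMeasurable (‖c1‖ + ‖c2‖ + B0 + 1)
      (Eventually.of_forall fun a => ?_)
    rw [norm_mul, norm_e, mul_one]
    exact hκB a
  unfold μ0
  rw [integral_add_measure (hint _ inferInstance) (hint _ inferInstance),
    integral_add_measure (hint _ inferInstance) (hint _ inferInstance), integral_dirac,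
    integral_dirac, hQ s]
  have e1 : κ 1 * e (1 * s) = c1 * e s := by simp [hκ]
  have e2 : κ (-1) * e (-1 * s) = c2 * e (-s) := by
    have h3 : (-1 : ℝ) ≠ 1 := by norm_num
    simp [hκ, h3]
  rw [e1, e2]
  congr 1
  rw [intervalIntegral.integral_of_le (by norm_num), ← integral_Icc_eq_integral_Ioc]
  refine integral_congr_ae ?_
  have h1 : ∀ᵐ a : ℝ ∂(volume.restrict (Icc (-1) 1)), a ∈ Icc (-1 : ℝ) 1 :=
    ae_restrict_mem measurableSet_Icc
  have h2 : ∀ c : ℝ, ∀ᵐ a : ℝ ∂(volume.restrict (Icc (-1 : ℝ) 1)), a ≠ c := by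
    intro c
    refine ae_restrict_of_ae ?_
    rw [ae_iff]
    have : {a : ℝ | ¬ a ≠ c} = {c} := by ext; simp
    rw [this]
    exact measure_singleton _
  filter_upwards [h1, h2 1, h2 (-1)] with a ha hb hc
  simp only [hκ]
  rw [if_neg hb, if_neg hc, if_pos ha, mul_comm]

/-- the normalised Fourier transform of the sphere -/
noncomputable def hh (ℓ : ℕ) (s : ℝ) : ℂ := (s : ℂ) ^ ℓ * Sm ℓ s

theorem Phi_eq (ℓ : ℕ) (s : ℝ) : Pool.Agent.H438R2.BR.Phi (2 * (ℓ + 1) + 1) (2 * Real.pi * s) =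
    ∫ a in (-1 : ℝ)..1, e (a * s) * ((1 - Polynomial.X ^ 2) ^ ℓ : Polynomial ℂ).eval (a : ℂ) := by
  unfold Pool.Agent.H438R2.BR.Phi
  rw [intervalIntegral.integral_of_le (by norm_num), integral_Ioc_eq_integral_Ioo]
  refine setIntegral_congr_fun measurableSet_Ioo fun a _ => ?_
  have h1 : (((2 * (ℓ + 1) + 1 : ℕ) : ℝ) - 3) / 2 = ((ℓ : ℕ) : ℝ) := by
    push_cast
    ring
  rw [h1, Real.rpow_natCast]
  simp only [Polynomial.eval_pow, Polynomial.eval_sub, Polynomial.eval_one, Polynomial.eval_X]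
  unfold e
  have h2 : 2 * Real.pi * s * a = 2 * Real.pi * (a * s) := by ring
  rw [h2]
  push_cast
  ring

theorem hh_rep (ℓ : ℕ) (hℓ : 1 ≤ ℓ) : ∃ (κ : ℝ → ℂ) (B : ℝ), Measurable κ ∧
    0 < B ∧ (∀ a, ‖κ a‖ ≤ B) ∧ ∀ s : ℝ, hh ℓ s = ∫ a, κ a * e (a * s) ∂μ0 := by
  obtain ⟨j, rfl⟩ : ∃ j, ℓ = j + 1 := ⟨ℓ - 1, by omega⟩
  apply RepF.exists_kappa
  obtain ⟨c1, c2, Q, h⟩ := rep_poly j (Polynomial.C ((sg (2 * (j + 1))).real univ : ℂ))
  refine ⟨c1, c2, Q, fun s => ?_⟩
  rw [← h s]
  unfold hh Sm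
  rw [Phi_eq]
  congr 1
  rw [← intervalIntegral.integral_const_mul]
  refine intervalIntegral.integral_congr fun a _ => ?_
  simp only [Polynomial.eval_mul, Polynomial.eval_C]
  ring

theorem Phi_even (ℓ : ℕ) (s : ℝ) : Pool.Agent.H438R2.BR.Phi (2 * (ℓ + 1) + 1) (2 * Real.pi * (-s)) =
    Pool.Agent.H438R2.BR.Phi (2 * (ℓ + 1) + 1) (2 * Real.pi * s) := by
  have h := intervalIntegral.integral_comp_neg (a := (-1 : ℝ)) (b := 1) (fun a : ℝ => e (a * s) *
    ((1 - Polynomial.X ^ 2) ^ ℓ : Polynomial ℂ).eval (a : ℂ))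
  rw [neg_neg] at h
  rw [Phi_eq, Phi_eq, ← h]
  refine intervalIntegral.integral_congr fun a _ => ?_
  simp only [Polynomial.eval_pow, Polynomial.eval_sub, Polynomial.eval_one, Polynomial.eval_X]
  have h9 : a * -s = -a * s := by ring
  rw [h9]
  push_cast
  ring

theorem hh_neg (ℓ : ℕ) (hℓ : 1 ≤ ℓ) (s : ℝ) : hh ℓ (-s) = (-1) ^ ℓ * hh ℓ s := by
  obtain ⟨j, rfl⟩ : ∃ j, ℓ = j + 1 := ⟨ℓ - 1, by omega⟩
  unfold hh Sm
  rw [Phi_even]
  push_cast
  rw [neg_pow]
  ring

end Pool.Agent.Helper66K9.LSG
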