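import Pool.Agent.Helper66K9.LSG.Wt
set_option autoImplicit false

/-! # Interpolation in block coordinates -/

namespace Pool.Agent.Helper66K9.LSG

open MeasureTheory Set Filter
open scoped ENNReal FourierTransform RealInnerProductSpace Topology
open Pool.Agent.TH280.LS
open Pool.Agent.H789R2.FR (sg)
open Pool.Agent.Helper66K9.LS (CoordEst Om Om_meas om om_meas om_le om_pos mI lint_pi_prod TM TM_meas TM_L2 Mt Mt_mul
  Mt_meas Sym ae_pi_pos ae_pi_all T12 T12_meas T12_sub TM_add)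

variable {k ℓ n : ℕ}

/-- the product of the norms -/
noncomputable def Yf (z : Wm k ℓ n) : ℝ := ∏ i, ‖((am k ℓ n).symm z).1 i‖ ^ ℓ

theorem Yf_am (q : (Fin k → Em ℓ) × (Fin n → ℝ)) : Yf (am k ℓ n q) = ∏ i, ‖q.1 i‖ ^ ℓ := by
  unfold Yf
  rw [MeasurableEquiv.symm_apply_apply]

theorem Yf_nonneg (z : Wm k ℓ n) : 0 ≤ Yf z := Finset.prod_nonneg fun i _ => by positivity

theorem Yf_meas : Measurable (Yf : Wm k ℓ n → ℝ) := by
  have h1 : Measurable (fun q : (Fin k → Em ℓ) × (Fin n → ℝ) => ∏ i, ‖q.1 i‖ ^ ℓ) := by fun_prop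
  exact h1.comp (am k ℓ n).symm.measurable

theorem ae_ne0' (k ℓ n : ℕ) : ∀ᵐ q : (Fin k → Em ℓ) × (Fin n → ℝ), ∀ i, q.1 i ≠ 0 := by
  have h1 : ∀ᵐ z : Em ℓ, z ≠ 0 := by
    rw [ae_iff]
    have : {a : Em ℓ | ¬ a ≠ 0} = {0} := by ext; simp
    rw [this]
    exact measure_singleton _
  have h2 := ae_pi_all (k := k) h1
  exact Measure.quasiMeasurePreserving_fst.ae h2

theorem ae_Yf : ∀ᵐ z : Wm k ℓ n, 0 < Yf z := by
  have h1 := (am_mp k ℓ n).symm.quasiMeasurePreserving.ae (ae_ne0' k ℓ n)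
  filter_upwards [h1] with z hz
  unfold Yf
  exact Finset.prod_pos fun i _ => pow_pos (norm_pos_iff.2 (hz i)) _

theorem VVm_norm {f : Wm k ℓ n → ℂ} {w : (Fin k → ℝ) × (Fin n → ℝ)} (hw : ∀ i, 0 < w.1 i) :
    ‖VVm f w‖ = Yf (am k ℓ n (fun i => w.1 i • em ℓ, w.2)) *
      ‖f (am k ℓ n (fun i => w.1 i • em ℓ, w.2))‖ := by
  unfold VVm GF
  rw [norm_mul, norm_prod, Yf_am]
  congr 1
  refine Finset.prod_congr rfl fun i _ => ?_
  rw [norm_smul_em, Complex.norm_real, Real.norm_of_nonneg (by have := hw i; positivity),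
    abs_of_pos (hw i)]

theorem Inv.indicator {f : Wm k ℓ n → ℂ} (hI : Inv f) {S : Set (Wm k ℓ n)}
    (hS : ∀ (y y' : Fin k → Em ℓ) (x : Fin n → ℝ), (∀ i, ‖y i‖ = ‖y' i‖) →
      (am k ℓ n (y, x) ∈ S ↔ am k ℓ n (y', x) ∈ S)) : Inv (S.indicator f) := by
  intro y y' x h
  by_cases h1 : am k ℓ n (y, x) ∈ S
  · rw [indicator_of_mem h1, indicator_of_mem ((hS y y' x h).1 h1), hI y y' x h]
  · rw [indicator_of_notMem h1, indicator_of_notMem (fun h2 => h1 ((hS y y' x h).2 h2))]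

theorem interp_G (hDUAL : S_DUAL) (hW : S_W) (k ℓ n : ℕ) (hℓ : 1 ≤ ℓ) (hkn : 1 ≤ k + n)
    (hd : 2 ≤ k * (2 * ℓ + 1) + n) (I : Finset (Fin k)) (θ : ℝ) (hθ0 : 0 ≤ θ) (hθ1 : θ ≤ 1)
    (hθ : I.card * θ ≤ 1) (R0 : ℝ) (hR0 : 0 ≤ R0) (p : ℝ) (hp : 2 < p) (ε : ℝ) (hε : 0 < ε) :
    ∃ C : ℝ, 0 < C ∧ ∀ (N A : ℝ) (Ψ : ℝ → ℝ), 1 ≤ N → Sym N A Ψ → ∀ f : Wm k ℓ n → ℂ, Inv f →
    Integrable f → Measurable f → ∀ c : (Fin k → ℝ) × (Fin n → ℝ),
    (∀ w, (∀ i, 0 < w.1 i) → VVm f w ≠ 0 → w ∈ Bx c R0) →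
    (∀ y x, f (am k ℓ n (y, x)) ≠ 0 → ∀ i ∈ I, ‖y i‖ ≤ R0) →
    ∫⁻ t in T12, ∫⁻ z, Ob I θ N z * ENNReal.ofReal (Yf z) ^ (p - 2) * ‖TM (Mt Ψ t) f z‖ₑ ^ p ≤
      ENNReal.ofReal (C * A ^ p * N ^ (((k + n : ℝ) - 1) * (p / 2 - 1) + ε)) *
        ∫⁻ z, Ob I θ N z * ENNReal.ofReal (Yf z) ^ (p - 2) * ‖f z‖ₑ ^ p := by
  have hp0 : 0 < p := by linarith
  have hp2 : 0 < p - 2 := by linarith
  obtain ⟨C1, hC1, hP⟩ := wt_G hDUAL hW k ℓ n hd I θ hθ0 hθ1 hθ R0 hR0 (ε / 2) (by positivity)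
  obtain ⟨δ, hδ0, hδ1, hδ2⟩ : ∃ δ : ℝ, 0 < δ ∧ δ ≤ 1 / 4 ∧ δ * (p - 2) ≤ ε / 2 := by
    refine ⟨min (1 / 4) (ε / (2 * (p - 2))), by positivity, min_le_left _ _, ?_⟩
    calc min (1 / 4) (ε / (2 * (p - 2))) * (p - 2) ≤ (ε / (2 * (p - 2))) * (p - 2) :=
          mul_le_mul_of_nonneg_right (min_le_right _ _) hp2.le
      _ = ε / 2 := by field_simp
  obtain ⟨s, hs1, hs2, hsδ⟩ : ∃ s : ℝ, 1 < s ∧ s < 2 ∧ 1 - 1 / s = δ := by
    refine ⟨1 / (1 - δ), ?_, ?_, ?_⟩
    · rw [lt_div_iff₀ (by linarith)]; linarith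
    · rw [div_lt_iff₀ (by linarith)]; linarith
    · rw [one_div_one_div]; ring
  obtain ⟨C2, hC2, hSup⟩ := sup_G k ℓ n hℓ hkn s hs1 hs2 R0 hR0
  rw [hsδ] at hSup
  obtain ⟨C3, hC3, hM⟩ := Pool.Agent.H438R2.RZ.marcInf 2 p (by norm_num) hp
  refine ⟨C3 * C1 * C2 ^ (p - 2), by positivity, ?_⟩
  intro N A Ψ hN h V hI hV hVm c hVs hVI
  have hN0 : 0 < N := by linarith
  rcases h.nonneg.eq_or_lt with hA | hA
  · have h0 : ∀ σ, Ψ σ = 0 := fun σ => by
      have := h.b0 σ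
      rw [← hA] at this
      exact abs_nonpos_iff.1 this
    have h1 : ∀ t z, TM (Mt Ψ t) V z = 0 := by
      intro t z
      unfold TM Mt
      simp [h0]
    simp [h1, hp0]
  have hYm : Measurable (Yf : Wm k ℓ n → ℝ) := Yf_meas
  set O : Wm k ℓ n → ℝ≥0∞ := fun z => Ob I θ N z * (ENNReal.ofReal (Yf z) ^ (2 : ℝ))⁻¹ with hO
  have hOm : Measurable O := (Ob_meas I θ N).mul (hYm.ennreal_ofReal.pow_const _).inv
  have hOY : ∀ᵐ z : Wm k ℓ n, ∀ (r : ℝ) (u : ℝ≥0∞),
      O z * (ENNReal.ofReal (Yf z) * u) ^ (2 + r) =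
      Ob I θ N z * ENNReal.ofReal (Yf z) ^ r * u ^ (2 + r) ∨ ¬ (0 ≤ r) := by
    filter_upwards [ae_Yf (k := k) (ℓ := ℓ) (n := n)] with z hz r u
    by_cases hr : 0 ≤ r
    · left
      have hY0 : ENNReal.ofReal (Yf z) ≠ 0 := by
        rw [Ne, ENNReal.ofReal_eq_zero, not_le]; exact hz
      have hYt : ENNReal.ofReal (Yf z) ≠ (⊤ : ℝ≥0∞) := ENNReal.ofReal_ne_top
      simp only [hO]
      rw [ENNReal.mul_rpow_of_nonneg _ _ (by linarith), ENNReal.rpow_add _ _ hY0 hYt]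
      have h1 : (ENNReal.ofReal (Yf z) ^ (2 : ℝ))⁻¹ * ENNReal.ofReal (Yf z) ^ (2 : ℝ) = 1 := by
        refine ENNReal.inv_mul_cancel ?_ (ENNReal.rpow_ne_top_of_nonneg (by norm_num) hYt)
        rw [Ne, ENNReal.rpow_eq_zero_iff, not_or]
        exact ⟨fun h => hY0 h.1, fun h => hYt h.1⟩
      calc Ob I θ N z * (ENNReal.ofReal (Yf z) ^ (2 : ℝ))⁻¹ *
            (ENNReal.ofReal (Yf z) ^ (2 : ℝ) * ENNReal.ofReal (Yf z) ^ r * u ^ (2 + r))
          = Ob I θ N z * ENNReal.ofReal (Yf z) ^ r * u ^ (2 + r) *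
            ((ENNReal.ofReal (Yf z) ^ (2 : ℝ))⁻¹ * ENNReal.ofReal (Yf z) ^ (2 : ℝ)) := by ring
        _ = _ := by rw [h1, mul_one]
    · right
      exact hr
  have hOp : ∀ᵐ z : Wm k ℓ n, ∀ u : ℝ≥0∞, O z * (ENNReal.ofReal (Yf z) * u) ^ p =
      Ob I θ N z * ENNReal.ofReal (Yf z) ^ (p - 2) * u ^ p := by
    filter_upwards [hOY] with z hz u
    rcases hz (p - 2) u with h1 | h1
    · rw [show 2 + (p - 2) = p by ring] at h1
      exact h1
    · exact absurd hp2.le h1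
  have hO2 : ∀ᵐ z : Wm k ℓ n, ∀ u : ℝ≥0∞, O z * (ENNReal.ofReal (Yf z) * u) ^ (2 : ℝ) =
      Ob I θ N z * u ^ 2 := by
    filter_upwards [hOY] with z hz u
    rcases hz 0 u with h1 | h1
    · rw [add_zero, ENNReal.rpow_zero, mul_one, ENNReal.rpow_two, ENNReal.rpow_two] at h1
      rw [ENNReal.rpow_two]
      exact h1
    · exact absurd le_rfl h1
  have hTMm : ∀ {U : Wm k ℓ n → ℂ}, Integrable U →
      Measurable (fun q : ℝ × Wm k ℓ n => TM (Mt Ψ q.1) U q.2) := fun hU =>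
    TM_meas (Mt_meas h) hU
  have hTs : MeasurableSet {q : ℝ × Wm k ℓ n | q.1 ∈ T12} := T12_meas.preimage measurable_fst
  classical
  set F : ℝ × Wm k ℓ n → ℝ := fun q => if q.1 ∈ T12 then Yf q.2 * ‖TM (Mt Ψ q.1) V q.2‖ else 0
    with hF
  set f : Wm k ℓ n → ℝ := fun w => Yf w * ‖V w‖ with hf
  have hY2m : Measurable (fun q : ℝ × Wm k ℓ n => Yf q.2) := hYm.comp measurable_snd
  have hFm : Measurable F := Measurable.ite hTs (hY2m.mul (hTMm hV).norm) measurable_const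
  have hfm : Measurable f := hYm.mul hVm.norm
  set M0 : ℝ := C1 * A ^ 2 * N ^ (ε / 2) with hM0
  set M1 : ℝ := C2 * A * N ^ (((k + n : ℝ) - 1) / 2 + δ) with hM1
  have hM0p : 0 < M0 := by positivity
  have hM1p : 0 < M1 := by positivity
  set μ : Measure (Wm k ℓ n) := volume.withDensity O with hμ
  set ν : Measure (ℝ × Wm k ℓ n) := (volume.restrict T12).prod μ with hν
  have key := hM μ ν F f hFm hfm (fun q => by
    simp only [hF]
    split_ifs
    · exact mul_nonneg (Yf_nonneg _) (norm_nonneg _)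
    · exact le_rfl) (fun w => mul_nonneg (Yf_nonneg _) (norm_nonneg _)) M0 M1 hM0p hM1p ?_
  · -- conclusion
    have e1 : ∫⁻ q, ENNReal.ofReal (F q) ^ p ∂ν =
        ∫⁻ t in T12, ∫⁻ z, Ob I θ N z * ENNReal.ofReal (Yf z) ^ (p - 2) *
          ‖TM (Mt Ψ t) V z‖ₑ ^ p := by
      rw [hν, lintegral_prod _ (hFm.ennreal_ofReal.pow_const p).aemeasurable]
      refine setLIntegral_congr_fun T12_meas fun t ht => ?_
      rw [hμ, lintegral_withDensity_eq_lintegral_mul _ hOm]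
      · refine lintegral_congr_ae ?_
        filter_upwards [hOp] with z hz
        simp only [Pi.mul_apply, hF]
        rw [if_pos ht, ENNReal.ofReal_mul (Yf_nonneg z), ofReal_norm, hz]
      · exact (hFm.comp measurable_prodMk_left).ennreal_ofReal.pow_const p
    have e2 : ∫⁻ x, ENNReal.ofReal (f x) ^ p ∂μ =
        ∫⁻ z, Ob I θ N z * ENNReal.ofReal (Yf z) ^ (p - 2) * ‖V z‖ₑ ^ p := by
      rw [hμ, lintegral_withDensity_eq_lintegral_mul _ hOm (hfm.ennreal_ofReal.pow_const p)]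
      refine lintegral_congr_ae ?_
      filter_upwards [hOp] with z hz
      simp only [Pi.mul_apply, hf]
      rw [ENNReal.ofReal_mul (Yf_nonneg z), ofReal_norm, hz]
    rw [e1, e2] at key
    refine key.trans (mul_le_mul_left (ENNReal.ofReal_le_ofReal ?_) _)
    rw [hM0, hM1, Real.mul_rpow (by positivity) (by positivity), Real.mul_rpow hC2.le hA.le,
      ← Real.rpow_mul hN0.le]
    have h3 : A ^ p = A ^ 2 * A ^ (p - 2) := by
      rw [← Real.rpow_natCast A 2, ← Real.rpow_add hA]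
      congr 1
      push_cast
      ring
    have h4 : N ^ (ε / 2) * N ^ ((((k + n : ℝ) - 1) / 2 + δ) * (p - 2)) ≤
        N ^ (((k + n : ℝ) - 1) * (p / 2 - 1) + ε) := by
      rw [← Real.rpow_add hN0]
      apply Real.rpow_le_rpow_of_exponent_le hN
      have : ε / 2 + (((k + n : ℝ) - 1) / 2 + δ) * (p - 2) =
          ((k + n : ℝ) - 1) * (p / 2 - 1) + (ε / 2 + δ * (p - 2)) := by ring
      rw [this]
      linarith
    rw [h3]
    calc C3 * (C1 * A ^ 2 * N ^ (ε / 2)) *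
          (C2 ^ (p - 2) * A ^ (p - 2) * N ^ ((((k + n : ℝ) - 1) / 2 + δ) * (p - 2)))
        = C3 * C1 * C2 ^ (p - 2) * (A ^ 2 * A ^ (p - 2)) *
          (N ^ (ε / 2) * N ^ ((((k + n : ℝ) - 1) / 2 + δ) * (p - 2))) := by ring
      _ ≤ _ := mul_le_mul_of_nonneg_left h4 (by positivity)
  · intro s hs
    set Vb : Wm k ℓ n → ℂ := {w | s < f w}.indicator V with hVb
    set Vs : Wm k ℓ n → ℂ := {w | s < f w}ᶜ.indicator V with hVsm
    have hms : MeasurableSet {w | s < f w} := measurableSet_lt measurable_const hfm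
    have hVbi : Integrable Vb := hV.indicator hms
    have hVsi : Integrable Vs := hV.indicator hms.compl
    have hVbm : Measurable Vb := hVm.indicator hms
    have hVsme : Measurable Vs := hVm.indicator hms.compl
    have hfinv : ∀ (y y' : Fin k → Em ℓ) (x : Fin n → ℝ), (∀ i, ‖y i‖ = ‖y' i‖) →
        f (am k ℓ n (y, x)) = f (am k ℓ n (y', x)) := by
      intro y y' x hy
      simp only [hf]
      rw [Yf_am, Yf_am, hI y y' x hy]
      simp only [hy]
    have hVbI : Inv Vb := hI.indicator fun y y' x hy => by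
      simp only [mem_ofPred_eq]
      rw [hfinv y y' x hy]
    have hVsI : Inv Vs := hI.indicator fun y y' x hy => by
      simp only [mem_compl_iff, mem_ofPred_eq]
      rw [hfinv y y' x hy]
    have hsum : V = fun w => Vb w + Vs w := by
      funext w
      simp only [hVb, hVsm]
      rw [indicator_self_add_compl_apply]
    refine ⟨fun q => if q.1 ∈ T12 then ENNReal.ofReal (Yf q.2) * ‖TM (Mt Ψ q.1) Vb q.2‖ₑ else 0,
      fun q => if q.1 ∈ T12 then ENNReal.ofReal (Yf q.2) * ‖TM (Mt Ψ q.1) Vs q.2‖ₑ else 0,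
      Measurable.ite hTs (hY2m.ennreal_ofReal.mul (hTMm hVbi).enorm) measurable_const,
      Measurable.ite hTs (hY2m.ennreal_ofReal.mul (hTMm hVsi).enorm) measurable_const,
      ?_, ?_, ?_⟩
    · refine Eventually.of_forall fun q => ?_
      simp only [hF]
      by_cases hq : q.1 ∈ T12
      · rw [if_pos hq, if_pos hq, if_pos hq, ENNReal.ofReal_mul (Yf_nonneg _), ofReal_norm,
          ← mul_add]
        have h1 : TM (Mt Ψ q.1) V q.2 = TM (Mt Ψ q.1) Vb q.2 + TM (Mt Ψ q.1) Vs q.2 := by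
          conv_lhs => rw [hsum]
          exact TM_add (Mt_mul hN h q.1) hVbi hVsi q.2
        rw [h1]
        exact mul_le_mul_right (enorm_add_le _ _) _
      · rw [if_neg hq]
        simp
    · have hmm : Measurable (fun q : ℝ × Wm k ℓ n =>
          (if q.1 ∈ T12 then ENNReal.ofReal (Yf q.2) * ‖TM (Mt Ψ q.1) Vb q.2‖ₑ else 0) ^ (2 : ℝ)) :=
        (Measurable.ite hTs (hY2m.ennreal_ofReal.mul (hTMm hVbi).enorm)
          measurable_const).pow_const _
      have h1 : ∫⁻ q, (if q.1 ∈ T12 then ENNReal.ofReal (Yf q.2) * ‖TM (Mt Ψ q.1) Vb q.2‖ₑ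
          else 0) ^ (2 : ℝ) ∂ν =
          ∫⁻ t in T12, ∫⁻ z, Ob I θ N z * ‖TM (Mt Ψ t) Vb z‖ₑ ^ 2 := by
        rw [hν, lintegral_prod _ hmm.aemeasurable]
        refine setLIntegral_congr_fun T12_meas fun t ht => ?_
        rw [hμ, lintegral_withDensity_eq_lintegral_mul _ hOm]
        · refine lintegral_congr_ae ?_
          filter_upwards [hO2] with z hz
          simp only [Pi.mul_apply]
          rw [if_pos ht, hz]
        · exact hmm.comp measurable_prodMk_left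
      rw [h1]
      refine (lintegral_mono_set T12_sub).trans ?_
      refine (hP N A Ψ hN h Vb hVbI hVbi hVbm ?_).trans (le_of_eq ?_)
      · intro y x hw i hi
        refine hVI y x ?_ i hi
        intro h0
        exact hw (indicator_apply_eq_zero.2 fun _ => h0)
      · congr 1
        rw [hμ, setLIntegral_withDensity_eq_setLIntegral_mul _ hOm _ hms,
          ← lintegral_indicator hms]
        · refine lintegral_congr_ae ?_
          filter_upwards [hO2] with w hw'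
          simp only [hVb]
          by_cases hw : w ∈ {w | s < f w}
          · rw [indicator_of_mem hw, indicator_of_mem hw]
            simp only [Pi.mul_apply, hf]
            rw [ENNReal.ofReal_mul (Yf_nonneg w), ofReal_norm, hw']
          · rw [indicator_of_notMem hw, indicator_of_notMem hw]
            simp
        · exact hfm.ennreal_ofReal.pow_const _
    · refine Eventually.of_forall fun q => ?_
      simp only
      by_cases hq : q.1 ∈ T12
      · rw [if_pos hq, ← ofReal_norm, ← ENNReal.ofReal_mul (Yf_nonneg _)]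
        apply ENNReal.ofReal_le_ofReal
        obtain ⟨⟨y, x⟩, hyx⟩ := (am k ℓ n).surjective q.2
        have h2 := hSup N A Ψ hN h q.1 hq.1 hq.2 Vs hVsI hVsi hVsme c ?_ s hs.le ?_ y x
        · rw [norm_mul, hyx] at h2
          have h3 : ‖∏ i, ((‖y i‖ ^ ℓ : ℝ) : ℂ)‖ = Yf q.2 := by
            rw [← hyx, Yf_am, norm_prod]
            refine Finset.prod_congr rfl fun i _ => ?_
            rw [Complex.norm_real, Real.norm_of_nonneg (by positivity)]
          rw [h3] at h2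
          exact h2
        · intro w hw hz
          refine hVs w hw ?_
          intro h0
          apply hz
          unfold VVm at h0 ⊢
          rcases mul_eq_zero.1 h0 with h4 | h4
          · rw [h4, zero_mul]
          · unfold GF at h4 ⊢
            have h5 : Vs (am k ℓ n (fun i => w.1 i • em ℓ, w.2)) = 0 :=
              indicator_apply_eq_zero.2 fun _ => h4
            rw [h5, mul_zero]
        · intro w hw
          rw [VVm_norm hw]
          simp only [hVsm]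
          by_cases hw1 : am k ℓ n (fun i => w.1 i • em ℓ, w.2) ∈ {w | s < f w}ᶜ
          · rw [indicator_of_mem hw1]
            exact not_lt.1 hw1
          · rw [indicator_of_notMem hw1, norm_zero, mul_zero]
            exact hs.le
      · rw [if_neg hq]
        exact zero_le

end Pool.Agent.Helper66K9.LSG
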