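import Pool.Agent.Helper66K9.LSG.Gsup
set_option autoImplicit false

/-! # Product weights, for data bounded in some directions only -/

namespace Pool.Agent.Helper66K9.LSG

open MeasureTheory Set Filter
open scoped ENNReal FourierTransform RealInnerProductSpace Topology
open Pool.Agent.TH280.LS
open Pool.Agent.Helper66K9.LS (CoordEst Om Om_meas om om_meas om_le om_pos lam lam_meas lam_le lam_spec count_le
  holder_cell sum_cells A_iota TM TM_meas TM_L2 Mt Mt_mul Mt_meas Sym)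

theorem P_cell' {ι : Type} [Fintype ι] {k : ℕ} (J : Fin k → ι) {θ : ℝ} (hθ0 : 0 ≤ θ)
    (hθ : k * θ ≤ 1) {R0 : ℝ} (hR0 : 0 ≤ R0) {C0 : ℝ} (hC4 : 4 ≤ C0)
    (hC : ∀ j, CoordEst R0 C0 (J j)) {N A : ℝ} {Ψ : ℝ → ℝ} (hN : 1 ≤ N) (h : Sym N A Ψ)
    (l : Fin k → ℕ) {V : EuclideanSpace ℝ ι → ℂ} (hV : Integrable V) (hVm : Measurable V)
    (hVs : ∀ w, V w ≠ 0 → (∀ j, |w (J j)| ≤ R0) ∧ ∀ j, lam R0 N (w (J j)) = l j) :
    ∫⁻ t in Icc (-2 : ℝ) 2, ∫⁻ z, Om J θ N z * ‖TM (Mt Ψ t) V z‖ₑ ^ 2 ≤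
      ENNReal.ofReal (2 * (C0 * A ^ 2 * (1 + Real.log N) ^ 2)) *
        ∫⁻ z, Om J θ N z * ‖V z‖ₑ ^ 2 := by
  have hA := h.nonneg
  have hN0 : 0 < N := by linarith
  have hlog : 0 ≤ Real.log N := Real.log_nonneg hN
  set B : ℝ := C0 * A ^ 2 * (1 + Real.log N) ^ 2 with hB
  have hB0 : 0 ≤ B := by positivity
  set S : ℝ≥0∞ := ∫⁻ z, ‖V z‖ₑ ^ 2 with hS
  set c : Fin k → ℝ≥0∞ := fun j => ENNReal.ofReal (2 ^ (l j + 1) / (1 + R0)) with hc
  have hTMm : Measurable (fun q : ℝ × EuclideanSpace ℝ ι => TM (Mt Ψ q.1) V q.2) :=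
    TM_meas (Mt_meas h) hV
  have hGm : Measurable (fun q : ℝ × EuclideanSpace ℝ ι => ‖TM (Mt Ψ q.1) V q.2‖ₑ ^ 2) :=
    hTMm.enorm.pow_const 2
  have hom : ∀ j, Measurable (fun q : ℝ × EuclideanSpace ℝ ι =>
      ENNReal.ofReal (om N (q.2 (J j)))) := fun j =>
    ((om_meas N).comp (by fun_prop)).ennreal_ofReal
  have i0 : ∫⁻ q, ‖TM (Mt Ψ q.1) V q.2‖ₑ ^ 2 ∂((volume.restrict (Icc (-2 : ℝ) 2)).prod volume) ≤
      ENNReal.ofReal B * S := by
    rw [lintegral_prod _ hGm.aemeasurable]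
    calc ∫⁻ t in Icc (-2 : ℝ) 2, ∫⁻ z, ‖TM (Mt Ψ t) V z‖ₑ ^ 2 ≤
          ∫⁻ t in Icc (-2 : ℝ) 2, ENNReal.ofReal (A ^ 2) * S := by
          refine lintegral_mono fun t => ?_
          exact TM_L2 (Mt_mul hN h t) hV
      _ = ENNReal.ofReal (4 * A ^ 2) * S := by
          rw [lintegral_const, Measure.restrict_apply_univ, Real.volume_Icc, mul_comm,
            ← mul_assoc, ← ENNReal.ofReal_mul (by norm_num)]
          congr 2
          ring
      _ ≤ _ := by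
          refine mul_le_mul_left (ENNReal.ofReal_le_ofReal ?_) _
          rw [hB]
          have h1 : 1 ≤ (1 + Real.log N) ^ 2 := by nlinarith
          calc 4 * A ^ 2 = 4 * A ^ 2 * 1 := by ring
            _ ≤ C0 * A ^ 2 * (1 + Real.log N) ^ 2 := by gcongr
  have i1 : ∀ j, ∫⁻ q : ℝ × EuclideanSpace ℝ ι, ENNReal.ofReal (om N (q.2 (J j))) *
      ‖TM (Mt Ψ q.1) V q.2‖ₑ ^ 2 ∂((volume.restrict (Icc (-2 : ℝ) 2)).prod volume) ≤
      c j * (ENNReal.ofReal B * S) := by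
    intro j
    have hmm : Measurable (fun q : ℝ × EuclideanSpace ℝ ι =>
      ENNReal.ofReal (om N (q.2 (J j))) * ‖TM (Mt Ψ q.1) V q.2‖ₑ ^ 2) := (hom j).mul hGm
    rw [lintegral_prod _ hmm.aemeasurable]
    refine (hC j N A Ψ hN h V hV hVm ?_).trans ?_
    · intro w hw
      by_contra hc0
      have := (hVs w hc0).1 j
      linarith
    · rw [mul_left_comm]
      refine mul_le_mul_right ?_ _
      rw [hS, ← lintegral_const_mul' _ _ ENNReal.ofReal_ne_top]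
      refine lintegral_mono fun z => ?_
      by_cases hz : V z = 0
      · simp [hz]
      · refine mul_le_mul_left (ENNReal.ofReal_le_ofReal ?_) _
        obtain ⟨hz1, hz2⟩ := hVs z hz
        have h2 := (lam_spec hR0 hN (hz1 j)).2
        rw [hz2 j] at h2
        rw [le_div_iff₀ (by positivity), mul_comm]
        exact h2.le
  have hh := holder_cell (μ := (volume.restrict (Icc (-2 : ℝ) 2)).prod volume) hθ0 hθ hGm hom i0 i1
  have hOm := Om_meas J θ N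
  have hmm2 : Measurable (fun q : ℝ × EuclideanSpace ℝ ι =>
      Om J θ N q.2 * ‖TM (Mt Ψ q.1) V q.2‖ₑ ^ 2) := (hOm.comp measurable_snd).mul hGm
  have hlhs : ∫⁻ t in Icc (-2 : ℝ) 2, ∫⁻ z, Om J θ N z * ‖TM (Mt Ψ t) V z‖ₑ ^ 2 =
      ∫⁻ q : ℝ × EuclideanSpace ℝ ι, Om J θ N q.2 * ‖TM (Mt Ψ q.1) V q.2‖ₑ ^ 2
        ∂((volume.restrict (Icc (-2 : ℝ) 2)).prod volume) := by
    rw [lintegral_prod _ hmm2.aemeasurable]
  rw [hlhs]
  refine hh.trans ?_
  rw [ENNReal.ofReal_mul (by norm_num : (0 : ℝ) ≤ 2), mul_comm (ENNReal.ofReal 2), mul_assoc,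
    mul_left_comm]
  refine mul_le_mul_right ?_ _
  have hct : (∏ j, c j ^ θ) ≠ ⊤ := by
    refine ENNReal.prod_ne_top fun j _ => ?_
    exact ENNReal.rpow_ne_top_of_nonneg hθ0 ENNReal.ofReal_ne_top
  rw [hS, ← lintegral_const_mul' _ _ hct, ← lintegral_const_mul' _ _ ENNReal.ofReal_ne_top]
  refine lintegral_mono fun z => ?_
  by_cases hz : V z = 0
  · simp [hz]
  rw [← mul_assoc]
  refine mul_le_mul_left ?_ _
  obtain ⟨hz1, hz2⟩ := hVs z hz
  unfold Om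
  have h4 : ∀ j, c j ^ θ ≤ ENNReal.ofReal 2 ^ θ * ENNReal.ofReal (om N (z (J j))) ^ θ := by
    intro j
    rw [← ENNReal.mul_rpow_of_nonneg _ _ hθ0, ← ENNReal.ofReal_mul (by norm_num)]
    refine ENNReal.rpow_le_rpow (ENNReal.ofReal_le_ofReal ?_) hθ0
    have h2 := (lam_spec hR0 hN (hz1 j)).1
    rw [hz2 j] at h2
    rw [div_le_iff₀ (by positivity), pow_succ]
    linarith
  calc ∏ j : Fin k, c j ^ θ
      ≤ ∏ j : Fin k, ENNReal.ofReal 2 ^ θ * ENNReal.ofReal (om N (z (J j))) ^ θ :=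
        Finset.prod_le_prod' fun j _ => h4 j
    _ = ENNReal.ofReal 2 ^ (k * θ) * ∏ j : Fin k,
          ENNReal.ofReal (om N (z (J j))) ^ θ := by
        rw [Finset.prod_mul_distrib]
        congr 1
        rw [Finset.prod_const, Finset.card_univ, Fintype.card_fin,
          ← ENNReal.rpow_natCast, ← ENNReal.rpow_mul]
        congr 1
        ring
    _ ≤ ENNReal.ofReal 2 * ∏ j : Fin k,
          ENNReal.ofReal (om N (z (J j))) ^ θ := by
        refine mul_le_mul_left ?_ _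
        calc ENNReal.ofReal 2 ^ (k * θ) ≤ ENNReal.ofReal 2 ^ (1 : ℝ) :=
              ENNReal.rpow_le_rpow_of_exponent_le (by norm_num) hθ
          _ = _ := ENNReal.rpow_one _

theorem P_weight' (hDUAL : S_DUAL) (hW : S_W) {ι : Type} [Fintype ι] (hι : 2 ≤ Fintype.card ι)
    {k : ℕ} (J : Fin k → ι) (θ : ℝ) (hθ0 : 0 ≤ θ) (hθ : k * θ ≤ 1) (R0 : ℝ) (hR0 : 0 ≤ R0)
    (ε : ℝ) (hε : 0 < ε) : ∃ C : ℝ, 0 < C ∧ ∀ (N A : ℝ) (Ψ : ℝ → ℝ), 1 ≤ N →
    Sym N A Ψ → ∀ V : EuclideanSpace ℝ ι → ℂ, Integrable V → Measurable V →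
    (∀ w, V w ≠ 0 → ∀ j, |w (J j)| ≤ R0) →
    ∫⁻ t in Icc (-2 : ℝ) 2, ∫⁻ z, Om J θ N z * ‖TM (Mt Ψ t) V z‖ₑ ^ 2 ≤
      ENNReal.ofReal (C * A ^ 2 * N ^ ε) * ∫⁻ z, Om J θ N z * ‖V z‖ₑ ^ 2 := by
  choose CA hCA hA0 using fun j => A_iota hDUAL hW hι (J j) R0 hR0
  obtain ⟨Cn, hCn, hcount⟩ := count_le R0 hR0 k ε hε
  obtain ⟨C0, hC4, hCest⟩ : ∃ C0 : ℝ, 4 ≤ C0 ∧ ∀ j, CoordEst R0 C0 (J j) := by
    refine ⟨∑ j, CA j + 4, ?_, ?_⟩
    · have : 0 ≤ ∑ j, CA j := Finset.sum_nonneg fun j _ => (hCA j).le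
      linarith
    · intro j N A Ψ hN h V hV hVm hVs
      refine (hA0 j N A Ψ hN h V hV hVm hVs).trans ?_
      refine mul_le_mul_left (ENNReal.ofReal_le_ofReal ?_) _
      have := Finset.single_le_sum (f := CA) (fun j _ => (hCA j).le) (Finset.mem_univ j)
      have hlog : 0 ≤ Real.log N := Real.log_nonneg hN
      have h2 : CA j ≤ ∑ j, CA j + 4 := by linarith
      gcongr
  have hC0p : 0 < C0 := by linarith
  refine ⟨2 * C0 * Cn, by positivity, ?_⟩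
  intro N A Ψ hN h V hV hVm hVs
  have hA := h.nonneg
  obtain ⟨L, hL⟩ : ∃ L : ℕ, L = Nat.log 2 ⌊(1 + R0) * N⌋₊ := ⟨_, rfl⟩
  have hle : ∀ x, lam R0 N x < L + 1 := by
    intro x
    rw [hL]
    exact Nat.lt_succ_of_le (lam_le hR0 hN x)
  -- the pieces
  obtain ⟨lof, hlof⟩ : ∃ lof : EuclideanSpace ℝ ι → (Fin k → Fin (L + 1)),
      ∀ w j, (lof w j : ℕ) = lam R0 N (w (J j)) := ⟨fun w j => ⟨lam R0 N (w (J j)), hle _⟩,
        fun w j => rfl⟩
  have hcm : ∀ l, MeasurableSet {w | lof w = l} := by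
    intro l
    have : {w : EuclideanSpace ℝ ι | lof w = l} =
        ⋂ j, {w : EuclideanSpace ℝ ι | lam R0 N (w (J j)) = l j} := by
      ext w
      simp only [mem_ofPred_eq, mem_iInter]
      constructor
      · intro hl j
        rw [← hl, hlof]
      · intro hl
        funext j
        apply Fin.ext
        rw [hlof]
        exact hl j
    rw [this]
    refine MeasurableSet.iInter fun j => ?_
    have hm : Measurable (fun w : EuclideanSpace ℝ ι => lam R0 N (w (J j))) :=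
      (lam_meas R0 N).comp (by fun_prop)
    exact hm (measurableSet_singleton _)
  have hfin := sum_cells hN h lof hcm (Om_meas J θ N) hV hVm
    (ENNReal.ofReal (2 * (C0 * A ^ 2 * (1 + Real.log N) ^ 2))) (by
      intro l
      refine P_cell' J hθ0 hθ hR0 hC4 hCest hN h (fun j => l j) (hV.indicator (hcm l))
        (hVm.indicator (hcm l)) ?_
      intro w hw
      have h1 : w ∈ {w | lof w = l} := by
        by_contra hc
        exact hw (indicator_of_notMem hc V)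
      rw [indicator_of_mem h1] at hw
      refine ⟨hVs w hw, fun j => ?_⟩
      · rw [← hlof]
        have h2 : lof w = l := h1
        rw [h2])
  refine hfin.trans ?_
  rw [← mul_assoc, ← ENNReal.ofReal_mul (by positivity)]
  refine mul_le_mul_left (ENNReal.ofReal_le_ofReal ?_) _
  have h9 := hcount N hN
  rw [← hL] at h9
  have hcard : (Fintype.card (Fin k → Fin (L + 1)) : ℝ) = ((L + 1 : ℕ) : ℝ) ^ k := by
    rw [Fintype.card_fun, Fintype.card_fin, Fintype.card_fin, Nat.cast_pow]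
  rw [hcard]
  calc ((L + 1 : ℕ) : ℝ) ^ k * (2 * (C0 * A ^ 2 * (1 + Real.log N) ^ 2))
      = 2 * C0 * A ^ 2 * (((L + 1 : ℕ) : ℝ) ^ k * (1 + Real.log N) ^ 2) := by ring
    _ ≤ 2 * C0 * A ^ 2 * (Cn * N ^ ε) := by gcongr
    _ = _ := by ring

end Pool.Agent.Helper66K9.LSG
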