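import Pool.Agent.Helper66K9.LSG.Int
import Pool.Agent.Helper66K9.LS.OneW
set_option autoImplicit false

/-! # One frequency piece -/

namespace Pool.Agent.Helper66K9.LSG

open MeasureTheory Set Filter
open scoped ENNReal FourierTransform RealInnerProductSpace Topology
open Pool.Agent.TH280.LS
open Pool.Agent.H789R2.FR (sg)
open Pool.Agent.Helper66K9.LS (om om_meas om_le om_pos om_mul_le mI TM TM_meas TM_L2 Mt Mt_mul
  Mt_meas Sym ae_pi_pos ae_pi_all T12 T12_meas T12_sub TM_add Mul NCb TM_Lp)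

variable {k ℓ n : ℕ}

/-- away from the coordinate hyperplanes -/
def goodm (k ℓ n : ℕ) (r : ℝ) : Set (Wm k ℓ n) := {z | ∀ i : Fin k, r < |z (Sum.inl (i, 0))|}

theorem goodm_meas (k ℓ n : ℕ) (r : ℝ) : MeasurableSet (goodm k ℓ n r) := by
  have h : goodm k ℓ n r = ⋂ i : Fin k, {z : Wm k ℓ n | r < |z (Sum.inl (i, 0))|} := by
    ext z
    simp [goodm]
  rw [h]
  refine MeasurableSet.iInter fun i => measurableSet_lt measurable_const ?_
  exact continuous_abs.measurable.comp (by fun_prop)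

theorem absorb' (k ℓ n : ℕ) {p : ℝ} (hp : 2 ≤ p) : ∃ δ : ℝ, 0 < δ ∧ ∀ (C R : ℝ) (M : ℝ → ℂ),
    Mul C R M → ∀ N : ℝ, 0 < N → R ≤ 2 * N → ∀ f : Wm k ℓ n → ℂ, Integrable f →
    ∫⁻ z, ‖f z‖ₑ ^ (2 : ℝ) < (⊤ : ℝ≥0∞) →
    ∫⁻ z, ‖TM M f z‖ₑ ^ p ≤ 2 * ∫⁻ z in goodm k ℓ n (δ / N), ‖TM M f z‖ₑ ^ p := by
  set ε : ℝ≥0∞ := (2 * (k + 1 : ℕ) : ℝ≥0∞)⁻¹ with hε
  have hε0 : ε ≠ 0 := by
    rw [hε, Ne, ENNReal.inv_eq_zero]
    exact ENNReal.mul_ne_top (by norm_num) (ENNReal.natCast_ne_top _)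
  have h1 := fun i : Fin k => NCb (ι := (Fin k × Fin (2 * ℓ + 1)) ⊕ Fin n) (p := p) (by linarith)
    (Sum.inl (i, 0)) hε0
  choose δ hδ hNC using h1
  obtain ⟨δ0, hδ0, hle⟩ : ∃ δ0 : ℝ, 0 < δ0 ∧ ∀ i, δ0 ≤ δ i := by
    rcases isEmpty_or_nonempty (Fin k) with he | he
    · exact ⟨1, one_pos, fun i => (he.false i).elim⟩
    · refine ⟨Finset.univ.inf' Finset.univ_nonempty δ, ?_, fun i =>
        Finset.inf'_le _ (Finset.mem_univ i)⟩
      rw [Finset.lt_inf'_iff]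
      exact fun i _ => hδ i
  refine ⟨δ0, hδ0, ?_⟩
  intro C R M hM N hN hR f hf h2
  set I : ℝ≥0∞ := ∫⁻ z, ‖TM M f z‖ₑ ^ p with hI
  have hIf : I < (⊤ : ℝ≥0∞) := TM_Lp hM hf h2 hp
  have h3 : I ≤ (∫⁻ z in goodm k ℓ n (δ0 / N), ‖TM M f z‖ₑ ^ p) + I / 2 := by
    calc I = (∫⁻ z in goodm k ℓ n (δ0 / N), ‖TM M f z‖ₑ ^ p) +
          ∫⁻ z in (goodm k ℓ n (δ0 / N))ᶜ, ‖TM M f z‖ₑ ^ p :=
          (lintegral_add_compl _ (goodm_meas k ℓ n _)).symm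
      _ ≤ (∫⁻ z in goodm k ℓ n (δ0 / N), ‖TM M f z‖ₑ ^ p) +
          ∫⁻ z in ⋃ i : Fin k, {z : Wm k ℓ n | |z (Sum.inl (i, 0))| ≤ δ i / N},
            ‖TM M f z‖ₑ ^ p := by
          refine add_le_add le_rfl (lintegral_mono_set fun z hz => ?_)
          simp only [goodm, mem_compl_iff, mem_ofPred_eq, not_forall, not_lt] at hz
          obtain ⟨i, hi⟩ := hz
          refine mem_iUnion.2 ⟨i, hi.trans ?_⟩
          exact div_le_div_of_nonneg_right (hle i) hN.le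
      _ ≤ (∫⁻ z in goodm k ℓ n (δ0 / N), ‖TM M f z‖ₑ ^ p) + ∑ _i : Fin k, ε * I := by
          refine add_le_add le_rfl ((lintegral_iUnion_le _ _).trans ?_)
          rw [tsum_fintype]
          exact Finset.sum_le_sum fun i _ => hNC i C R M hM N hN hR f hf
      _ ≤ _ := by
          refine add_le_add le_rfl ?_
          rw [Finset.sum_const, Finset.card_univ, Fintype.card_fin, nsmul_eq_mul, ← mul_assoc,
            ENNReal.div_eq_inv_mul]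
          refine mul_le_mul_left ?_ _
          rw [hε, ENNReal.mul_inv (Or.inl (by norm_num)) (Or.inl (by norm_num)), mul_left_comm]
          refine mul_le_of_le_one_right zero_le ?_
          rw [← div_eq_mul_inv]
          refine ENNReal.div_le_of_le_mul ?_
          rw [one_mul]
          exact_mod_cast Nat.le_succ k
  have h4 : I / 2 ≤ ∫⁻ z in goodm k ℓ n (δ0 / N), ‖TM M f z‖ₑ ^ p := by
    have h5 : I / 2 ≠ (⊤ : ℝ≥0∞) := (ENNReal.div_lt_top hIf.ne (by norm_num)).ne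
    have h6 : I / 2 + I / 2 ≤ (∫⁻ z in goodm k ℓ n (δ0 / N), ‖TM M f z‖ₑ ^ p) + I / 2 := by
      rw [ENNReal.add_halves]
      exact h3
    exact (ENNReal.add_le_add_iff_right h5).1 h6
  calc I = 2 * (I / 2) := (ENNReal.mul_div_cancel (by norm_num) (by norm_num)).symm
    _ ≤ _ := mul_le_mul_right h4 _

/-- pointwise comparison of the weights from below -/
theorem lowpt {a θ N δ : ℝ} (hθ0 : 0 ≤ θ) (ha0 : 0 ≤ a) (hN : 1 ≤ N) (hδ : 0 < δ) {ρ : ℝ}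
    (hρ : δ / N < ρ) : 1 ≤ (δ⁻¹ ^ a * (1 + δ⁻¹) ^ θ * N ^ a) * (om N ρ ^ θ * ρ ^ (a + θ)) := by
  have hN0 : 0 < N := by linarith
  have hδN : 0 < δ / N := by positivity
  have hρ0 : 0 < ρ := hδN.trans hρ
  have h1 : 1 ≤ (1 + δ⁻¹) * (om N ρ * ρ) := by
    unfold om
    rw [abs_of_pos hρ0, one_div_mul_eq_div, mul_div_assoc', le_div_iff₀ (by positivity), one_mul,
      add_mul, one_mul]
    have h2 : 1 / N ≤ δ⁻¹ * ρ := by
      rw [← div_eq_inv_mul, div_le_div_iff₀ hN0 hδ]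
      rw [div_lt_iff₀ hN0] at hρ
      linarith
    linarith
  have h2 : 1 ≤ δ⁻¹ * N * ρ := by
    rw [← div_eq_inv_mul, div_mul_eq_mul_div, le_div_iff₀ hδ, one_mul]
    rw [div_lt_iff₀ hN0] at hρ
    linarith
  have ho := om_pos hN ρ
  calc (1 : ℝ) ≤ ((1 + δ⁻¹) * (om N ρ * ρ)) ^ θ * (δ⁻¹ * N * ρ) ^ a :=
        one_le_mul_of_one_le_of_one_le (Real.one_le_rpow h1 hθ0) (Real.one_le_rpow h2 ha0)
    _ = _ := by
        rw [Real.mul_rpow (by positivity) (by positivity), Real.mul_rpow ho.le hρ0.le,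
          Real.mul_rpow (by positivity) hρ0.le, Real.mul_rpow (by positivity) hN0.le,
          Real.rpow_add hρ0]
        ring

/-- the class of data in standard coordinates -/
structure ClsG (k ℓ n : ℕ) (R0 : ℝ) (f : Wm k ℓ n → ℂ) : Prop where
  meas : Measurable f
  inv : Inv f
  supp : ∀ z, R0 < ‖z‖ → f z = 0
  int : Integrable f
  sq : ∫⁻ z, ‖f z‖ₑ ^ (2 : ℝ) < ∞

theorem norm_blk_le (q : (Fin k → Em ℓ) × (Fin n → ℝ)) (i : Fin k) : ‖q.1 i‖ ≤ ‖am k ℓ n q‖ := by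
  have h1 := am_norm q
  have h2 : ‖q.1 i‖ ^ 2 ≤ ‖am k ℓ n q‖ ^ 2 := by
    rw [h1]
    have h3 : ‖q.1 i‖ ^ 2 ≤ ∑ i, ‖q.1 i‖ ^ 2 :=
      Finset.single_le_sum (f := fun i => ‖q.1 i‖ ^ 2) (fun i _ => sq_nonneg _)
        (Finset.mem_univ i)
    have h4 : 0 ≤ ∑ j, q.2 j ^ 2 := Finset.sum_nonneg fun i _ => sq_nonneg _
    linarith
  exact (sq_le_sq₀ (norm_nonneg _) (norm_nonneg _)).1 h2

theorem abs_co_le (q : (Fin k → Em ℓ) × (Fin n → ℝ)) (j : Fin n) : |q.2 j| ≤ ‖am k ℓ n q‖ := by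
  have h := PiLp.norm_apply_le (p := 2) (am k ℓ n q) (Sum.inr j)
  rw [am_inr, Real.norm_eq_abs] at h
  exact h

theorem piece_G (hDUAL : S_DUAL) (hW : S_W) (k ℓ n : ℕ) (hk : 1 ≤ k) (hℓ : 1 ≤ ℓ) (R0 : ℝ)
    (hR0 : 0 ≤ R0) (p : ℝ) (hp : 2 < p) (ε : ℝ) (hε : 0 < ε) : ∃ C : ℝ, 0 < C ∧
    ∀ (N A : ℝ) (Ψ : ℝ → ℝ), 1 ≤ N → Sym N A Ψ → ∀ f : Wm k ℓ n → ℂ, ClsG k ℓ n R0 f →
    ∫⁻ t in T12, ∫⁻ z, ‖TM (Mt Ψ t) f z‖ₑ ^ p ≤
      ENNReal.ofReal (C * A ^ p * N ^ (((k * (2 * ℓ + 1) + n : ℝ) - 1) * (p / 2 - 1) -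
        k * min (ℓ * (p - 2)) (1 / k) + ε)) * ∫⁻ z, ‖f z‖ₑ ^ p := by
  have hk0 : (0 : ℝ) < k := by exact_mod_cast hk
  have hk1 : (1 : ℝ) ≤ k := by exact_mod_cast hk
  have hℓ0 : (0 : ℝ) < ℓ := by exact_mod_cast hℓ
  have hp2 : 0 < p - 2 := by linarith
  set θ : ℝ := min (ℓ * (p - 2)) (1 / k) with hθ
  have hθ0 : 0 ≤ θ := le_min (by positivity) (by positivity)
  have hθp : θ ≤ ℓ * (p - 2) := min_le_left _ _
  have hθ1 : θ ≤ 1 := (min_le_right _ _).trans (by rw [div_le_one hk0]; exact hk1)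
  have hθk : k * θ ≤ 1 := by
    calc k * θ ≤ k * (1 / k) := mul_le_mul_of_nonneg_left (min_le_right _ _) hk0.le
      _ = 1 := by field_simp
  set a : ℝ := ℓ * (p - 2) - θ with ha
  have ha0 : 0 ≤ a := by rw [ha]; linarith
  obtain ⟨δ, hδ, hab⟩ := absorb' k ℓ n hp.le
  have hd2 : 2 ≤ k * (2 * ℓ + 1) + n := by nlinarith
  obtain ⟨C1, hC1, hint⟩ := interp_G hDUAL hW k ℓ n hℓ (by omega) hd2 Finset.univ θ hθ0 hθ1
    (by rw [Finset.card_univ, Fintype.card_fin]; exact hθk) R0 hR0 p hp ε hε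
  set D : ℝ := (δ⁻¹ ^ a * (1 + δ⁻¹) ^ θ) ^ k with hD
  set D2 : ℝ := (R0 ^ a) ^ k + 1 with hD2
  have hDp : 0 < D := by positivity
  have hD2p : 0 < D2 := by positivity
  refine ⟨2 * D * C1 * D2, by positivity, ?_⟩
  intro N A Ψ hN h f hf
  have hN0 : 0 < N := by linarith
  have hA := h.nonneg
  set W : Wm k ℓ n → ℝ≥0∞ := fun z => Ob Finset.univ θ N z * ENNReal.ofReal (Yf z) ^ (p - 2)
    with hWd
  have hWam : ∀ q : (Fin k → Em ℓ) × (Fin n → ℝ), (∀ i, 0 < ‖q.1 i‖) → W (am k ℓ n q) =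
      ENNReal.ofReal (∏ i, (om N ‖q.1 i‖ ^ θ * ‖q.1 i‖ ^ (a + θ))) := by
    intro q hq
    simp only [hWd]
    rw [Ob_am, Yf_am, ENNReal.ofReal_rpow_of_pos (Finset.prod_pos fun i _ => pow_pos (hq i) _),
      ← Real.finsetProd_rpow _ _ (fun i _ => by positivity), Finset.prod_mul_distrib,
      ENNReal.ofReal_mul (Finset.prod_nonneg fun i _ => Real.rpow_nonneg (om_pos hN _).le _),
      ENNReal.ofReal_prod_of_nonneg (fun i _ => Real.rpow_nonneg (om_pos hN _).le _)]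
    congr 1
    · refine Finset.prod_congr rfl fun i _ => ?_
      rw [if_pos (Finset.mem_univ i), ENNReal.ofReal_rpow_of_pos (om_pos hN _)]
    · congr 1
      refine Finset.prod_congr rfl fun i _ => ?_
      rw [← Real.rpow_natCast, ← Real.rpow_mul (norm_nonneg _)]
      congr 1
      rw [ha]
      ring
  have hlow : ∀ z ∈ goodm k ℓ n (δ / N), 1 ≤ ENNReal.ofReal (D * (N ^ a) ^ k) * W z := by
    intro z hz
    obtain ⟨q, rfl⟩ := (am k ℓ n).surjective z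
    have h1 : ∀ i, δ / N < ‖q.1 i‖ := by
      intro i
      have h3 := PiLp.norm_apply_le (p := 2) (q.1 i) 0
      rw [Real.norm_eq_abs] at h3
      exact (hz i).trans_le h3
    have hδN : 0 < δ / N := by positivity
    rw [hWam q fun i => hδN.trans (h1 i), ← ENNReal.ofReal_mul (by positivity),
      ← ENNReal.ofReal_one]
    apply ENNReal.ofReal_le_ofReal
    have h2 : D * (N ^ a) ^ k * ∏ i, (om N ‖q.1 i‖ ^ θ * ‖q.1 i‖ ^ (a + θ)) =
        ∏ i : Fin k, ((δ⁻¹ ^ a * (1 + δ⁻¹) ^ θ * N ^ a) *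
          (om N ‖q.1 i‖ ^ θ * ‖q.1 i‖ ^ (a + θ))) := by
      rw [Finset.prod_mul_distrib (f := fun _ : Fin k => δ⁻¹ ^ a * (1 + δ⁻¹) ^ θ * N ^ a)
        (g := fun i => om N ‖q.1 i‖ ^ θ * ‖q.1 i‖ ^ (a + θ)), Finset.prod_const,
        Finset.card_univ, Fintype.card_fin, hD, ← mul_pow]
    rw [h2]
    calc (1 : ℝ) = ∏ _i : Fin k, (1 : ℝ) := by simp
      _ ≤ _ := Finset.prod_le_prod (fun i _ => zero_le_one) fun i _ =>
        lowpt hθ0 ha0 hN hδ (h1 i)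
  have hup : ∀ᵐ z : Wm k ℓ n, W z * ‖f z‖ₑ ^ p ≤ ENNReal.ofReal D2 * ‖f z‖ₑ ^ p := by
    have h1 := (am_mp k ℓ n).symm.quasiMeasurePreserving.ae (ae_ne0' k ℓ n)
    filter_upwards [h1] with z hz
    obtain ⟨q, rfl⟩ := (am k ℓ n).surjective z
    rw [MeasurableEquiv.symm_apply_apply] at hz
    by_cases h0 : f (am k ℓ n q) = 0
    · rw [h0]
      have : (0 : ℝ) < p := by linarith
      simp [this]
    · refine mul_le_mul_left ?_ _
      rw [hWam q fun i => norm_pos_iff.2 (hz i)]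
      apply ENNReal.ofReal_le_ofReal
      have h2 : ‖am k ℓ n q‖ ≤ R0 := by
        by_contra hc
        exact h0 (hf.supp _ (not_le.1 hc))
      calc ∏ i, (om N ‖q.1 i‖ ^ θ * ‖q.1 i‖ ^ (a + θ)) ≤ ∏ _i : Fin k, R0 ^ a := by
            refine Finset.prod_le_prod (fun i _ => ?_) fun i _ => ?_
            · have := om_pos hN ‖q.1 i‖
              positivity
            · have hρ : 0 < ‖q.1 i‖ := norm_pos_iff.2 (hz i)
              calc om N ‖q.1 i‖ ^ θ * ‖q.1 i‖ ^ (a + θ)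
                  ≤ (‖q.1 i‖⁻¹) ^ θ * ‖q.1 i‖ ^ (a + θ) := by
                    refine mul_le_mul_of_nonneg_right ?_ (by positivity)
                    exact Real.rpow_le_rpow (om_pos hN _).le (om_mul_le hN hρ) hθ0
                _ = ‖q.1 i‖ ^ a := by
                    rw [Real.inv_rpow hρ.le, ← Real.rpow_neg hρ.le, ← Real.rpow_add hρ]
                    congr 1
                    ring
                _ ≤ _ := Real.rpow_le_rpow hρ.le ((norm_blk_le q i).trans h2) ha0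
        _ = (R0 ^ a) ^ k := by simp
        _ ≤ D2 := by rw [hD2]; linarith
  have hsupp1 : ∀ w : (Fin k → ℝ) × (Fin n → ℝ), (∀ i, 0 < w.1 i) → VVm f w ≠ 0 →
      w ∈ Bx (0 : (Fin k → ℝ) × (Fin n → ℝ)) R0 := by
    intro w hw hz
    have h1 : f (am k ℓ n (fun i => w.1 i • em ℓ, w.2)) ≠ 0 := by
      intro h0
      apply hz
      unfold VVm GF
      rw [h0, mul_zero]
    have h2 : ‖am k ℓ n (fun i => w.1 i • em ℓ, w.2)‖ ≤ R0 := by
      by_contra hc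
      exact h1 (hf.supp _ (not_le.1 hc))
    refine ⟨fun i => ?_, fun j => ?_⟩
    · have h3 := norm_blk_le (k := k) (ℓ := ℓ) (n := n) (fun i => w.1 i • em ℓ, w.2) i
      simp only [norm_smul_em] at h3
      simpa using h3.trans h2
    · have h3 := abs_co_le (k := k) (ℓ := ℓ) (n := n) (fun i => w.1 i • em ℓ, w.2) j
      simpa using h3.trans h2
  have hsupp2 : ∀ y x, f (am k ℓ n (y, x)) ≠ 0 → ∀ i ∈ (Finset.univ : Finset (Fin k)),
      ‖y i‖ ≤ R0 := by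
    intro y x h0 i _
    have h2 : ‖am k ℓ n (y, x)‖ ≤ R0 := by
      by_contra hc
      exact h0 (hf.supp _ (not_le.1 hc))
    exact (norm_blk_le (y, x) i).trans h2
  have h1 : ∀ t, ∫⁻ z, ‖TM (Mt Ψ t) f z‖ₑ ^ p ≤ ENNReal.ofReal (2 * D * (N ^ a) ^ k) *
      ∫⁻ z, W z * ‖TM (Mt Ψ t) f z‖ₑ ^ p := by
    intro t
    have hM := Mt_mul hN h t
    have h2 := hab A (2 * N) (Mt Ψ t) hM N hN0 le_rfl f hf.int hf.sq
    calc ∫⁻ z, ‖TM (Mt Ψ t) f z‖ₑ ^ p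
        ≤ 2 * ∫⁻ z in goodm k ℓ n (δ / N), ‖TM (Mt Ψ t) f z‖ₑ ^ p := h2
      _ ≤ 2 * ∫⁻ z in goodm k ℓ n (δ / N), ENNReal.ofReal (D * (N ^ a) ^ k) *
          (W z * ‖TM (Mt Ψ t) f z‖ₑ ^ p) := by
          refine mul_le_mul_right (setLIntegral_mono' (goodm_meas k ℓ n _) fun z hz => ?_) _
          rw [← mul_assoc]
          exact le_mul_of_one_le_left zero_le (hlow z hz)
      _ ≤ 2 * ∫⁻ z, ENNReal.ofReal (D * (N ^ a) ^ k) * (W z * ‖TM (Mt Ψ t) f z‖ₑ ^ p) :=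
          mul_le_mul_right (setLIntegral_le_lintegral _ _) _
      _ = _ := by
          rw [lintegral_const_mul' _ _ ENNReal.ofReal_ne_top, ← mul_assoc]
          congr 1
          rw [mul_assoc 2 D, ENNReal.ofReal_mul (by norm_num : (0 : ℝ) ≤ 2)]
          norm_num
  have h2 := hint N A Ψ hN h f hf.inv hf.int hf.meas 0 hsupp1 hsupp2
  have hNN : (N ^ a) ^ k * N ^ (((k + n : ℝ) - 1) * (p / 2 - 1) + ε) =
      N ^ (((k * (2 * ℓ + 1) + n : ℝ) - 1) * (p / 2 - 1) - k * θ + ε) := by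
    rw [← Real.rpow_natCast (N ^ a) k, ← Real.rpow_mul hN0.le, ← Real.rpow_add hN0]
    congr 1
    rw [ha]
    ring
  calc ∫⁻ t in T12, ∫⁻ z, ‖TM (Mt Ψ t) f z‖ₑ ^ p
      ≤ ∫⁻ t in T12, ENNReal.ofReal (2 * D * (N ^ a) ^ k) *
        ∫⁻ z, W z * ‖TM (Mt Ψ t) f z‖ₑ ^ p := lintegral_mono fun t => h1 t
    _ = ENNReal.ofReal (2 * D * (N ^ a) ^ k) * ∫⁻ t in T12,
        ∫⁻ z, W z * ‖TM (Mt Ψ t) f z‖ₑ ^ p := lintegral_const_mul' _ _ ENNReal.ofReal_ne_top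
    _ ≤ ENNReal.ofReal (2 * D * (N ^ a) ^ k) * (ENNReal.ofReal (C1 * A ^ p *
        N ^ (((k + n : ℝ) - 1) * (p / 2 - 1) + ε)) *
        (ENNReal.ofReal D2 * ∫⁻ z, ‖f z‖ₑ ^ p)) := by
        refine mul_le_mul_right (h2.trans (mul_le_mul_right ?_ _)) _
        rw [← lintegral_const_mul' _ _ ENNReal.ofReal_ne_top]
        exact lintegral_mono_ae hup
    _ = _ := by
        rw [← mul_assoc, ← mul_assoc, ← ENNReal.ofReal_mul (by positivity),
          ← ENNReal.ofReal_mul (by positivity)]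
        congr 2
        rw [← hNN]
        ring

end Pool.Agent.Helper66K9.LSG
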