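import Pool.Agent.Helper66K9.LSG.PW
set_option autoImplicit false

/-! # Averages of the weights over spheres -/

namespace Pool.Agent.Helper66K9.LSG

open MeasureTheory Set Filter
open scoped ENNReal FourierTransform RealInnerProductSpace Topology
open Pool.Agent.TH280.LS
open Pool.Agent.H789R2.FR (sg)
open Pool.Agent.Helper66K9.LS (CoordEst Om Om_meas om om_meas om_le om_pos mI lint_pi_prod TM TM_meas TM_L2 Mt Mt_mul
  Mt_meas Sym ae_pi_pos ae_pi_all)

theorem lint_pow_Icc {α : ℝ} (hα : α < 1) :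
    ∫⁻ a in Icc (-1 : ℝ) 1, (ENNReal.ofReal |a| ^ α)⁻¹ < (⊤ : ℝ≥0∞) := by
  have h0 : ∫⁻ a in Icc (-1 : ℝ) 1, (ENNReal.ofReal |a| ^ α)⁻¹ =
      ∫⁻ a in Icc (-1 : ℝ) 1, ENNReal.ofReal (|a| ^ (-α)) := by
    refine lintegral_congr_ae (ae_restrict_of_ae ?_)
    have h2 : ∀ᵐ a : ℝ, a ≠ 0 := by
      rw [ae_iff]
      have : {a : ℝ | ¬ a ≠ 0} = {0} := by ext; simp
      rw [this]
      exact measure_singleton _
    filter_upwards [h2] with a ha
    have ha' : 0 < |a| := abs_pos.2 ha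
    rw [ENNReal.ofReal_rpow_of_pos ha', ← ENNReal.ofReal_inv_of_pos (by positivity),
      Real.rpow_neg ha'.le]
  rw [h0]
  refine lt_of_le_of_lt ?_ (lint_pow_μ0 hα)
  rw [lint_μ0 (by fun_prop)]
  exact le_add_self

theorem sph_int (ℓ : ℕ) {α : ℝ} (hα0 : 0 ≤ α) (hα : α < 1) :
    ∫⁻ σ : Em ℓ, (ENNReal.ofReal |σ 0| ^ α)⁻¹ ∂(sg (2 * ℓ + 1)) < (⊤ : ℝ≥0∞) := by
  set h : Em ℓ → ℝ≥0∞ := fun z => (ENNReal.ofReal |z 0| ^ α)⁻¹ with hh
  have hhm : Measurable h := by
    have : Measurable (fun z : Em ℓ => z 0) := by fun_prop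
    simp only [hh]
    fun_prop
  set g : Em ℓ → ℝ≥0∞ := (Metric.closedBall (0 : Em ℓ) 1).indicator h with hg
  have hgm : Measurable g := hhm.indicator Metric.isClosed_closedBall.measurableSet
  -- the integral over the ball
  have h1 : ∫⁻ z, g z < (⊤ : ℝ≥0∞) := by
    set G : Fin (2 * ℓ + 1) → ℝ → ℝ≥0∞ := fun i x => (Icc (-1 : ℝ) 1).indicator
      (fun x => if i = 0 then (ENNReal.ofReal |x| ^ α)⁻¹ else 1) x with hG
    have hGm : ∀ i, Measurable (G i) := by
      intro i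
      refine Measurable.indicator ?_ measurableSet_Icc
      split_ifs
      · fun_prop
      · exact measurable_const
    have h2 : ∫⁻ z, g z ≤ ∫⁻ x : Fin (2 * ℓ + 1) → ℝ, ∏ i, G i (x i)
        ∂(Measure.pi fun _ => (volume : Measure ℝ)) := by
      rw [← (PiLp.volume_preserving_toLp (Fin (2 * ℓ + 1))).lintegral_comp hgm]
      refine lintegral_mono fun x => ?_
      by_cases hx : (WithLp.toLp 2 x : Em ℓ) ∈ Metric.closedBall (0 : Em ℓ) 1
      · have hx' : ∀ i, x i ∈ Icc (-1 : ℝ) 1 := by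
          intro i
          have h3 := PiLp.norm_apply_le (p := 2) (WithLp.toLp 2 x : Em ℓ) i
          rw [Real.norm_eq_abs] at h3
          rw [mem_closedBall_zero_iff] at hx
          exact abs_le.1 (h3.trans hx)
        simp only [hg]
        rw [indicator_of_mem hx, Fin.prod_univ_succ]
        have h4 : G 0 (x 0) = h (WithLp.toLp 2 x) := by
          simp only [hG, hh]
          rw [indicator_of_mem (hx' 0)]
          simp
        have h5 : ∀ i : Fin (2 * ℓ), G i.succ (x i.succ) = 1 := by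
          intro i
          simp only [hG]
          rw [indicator_of_mem (hx' _), if_neg (Fin.succ_ne_zero i)]
        rw [h4, Finset.prod_eq_one fun i _ => h5 i, mul_one]
      · simp only [hg]
        rw [indicator_of_notMem hx]
        exact zero_le
    refine h2.trans_lt ?_
    rw [lint_pi_prod _ _ G hGm]
    refine ENNReal.prod_lt_top fun i _ => ?_
    simp only [hG]
    rw [lintegral_indicator measurableSet_Icc]
    split_ifs
    · exact lint_pow_Icc hα
    · rw [setLIntegral_one, Real.volume_Icc]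
      exact ENNReal.ofReal_lt_top
  -- polar coordinates
  have hmp := Pm_mp ℓ
  have hgc : Measurable (fun q : Em ℓ × ℝ => g (q.2 • q.1)) := hgm.comp hmp.measurable
  rw [← hmp.lintegral_comp hgm, lintegral_prod_symm' _ hgc] at h1
  set I : ℝ≥0∞ := ∫⁻ σ : Em ℓ, h σ ∂(sg (2 * ℓ + 1)) with hI
  have hnu : Pool.Agent.H438R2.BR.T7.nu (2 * ℓ + 1) =
      mI.withDensity (fun r => ENNReal.ofReal (r ^ (2 * ℓ))) := rfl
  have h2 : ENNReal.ofReal ((1 / 2) ^ (2 * ℓ) * (1 / 2)) * I ≤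
      ∫⁻ r, ∫⁻ σ : Em ℓ, g (r • σ) ∂(sg (2 * ℓ + 1)) ∂(Pool.Agent.H438R2.BR.T7.nu (2 * ℓ + 1)) := by
    have hgm2 : Measurable (fun r : ℝ => ∫⁻ σ : Em ℓ, g (r • σ) ∂(sg (2 * ℓ + 1))) :=
      Measurable.lintegral_prod_left' (hgm.comp hmp.measurable)
    rw [hnu, lintegral_withDensity_eq_lintegral_mul _ (by fun_prop) hgm2]
    have h3 : ∫⁻ r in Ioc (1 / 2 : ℝ) 1, ENNReal.ofReal ((1 / 2) ^ (2 * ℓ)) * I =
        ENNReal.ofReal ((1 / 2) ^ (2 * ℓ) * (1 / 2)) * I := by
      rw [lintegral_const, Measure.restrict_apply_univ, Real.volume_Ioc,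
        ENNReal.ofReal_mul (by positivity)]
      norm_num
      ring
    rw [← h3, ← lintegral_indicator measurableSet_Ioc]
    have h4 : ∫⁻ r, (Ioc (1 / 2 : ℝ) 1).indicator
        (fun _ => ENNReal.ofReal ((1 / 2) ^ (2 * ℓ)) * I) r =
        ∫⁻ r, (Ioc (1 / 2 : ℝ) 1).indicator
        (fun _ => ENNReal.ofReal ((1 / 2) ^ (2 * ℓ)) * I) r ∂mI := by
      unfold mI
      rw [← lintegral_indicator measurableSet_Ioi]
      refine lintegral_congr fun r => ?_
      by_cases hr : r ∈ Ioi (0 : ℝ)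
      · rw [indicator_of_mem hr]
      · rw [indicator_of_notMem hr, indicator_of_notMem]
        intro hc
        exact hr (lt_trans (by norm_num) hc.1)
    rw [h4]
    refine lintegral_mono fun r => ?_
    by_cases hr : r ∈ Ioc (1 / 2 : ℝ) 1
    · rw [indicator_of_mem hr]
      have hr0 : 0 < r := lt_trans (by norm_num) hr.1
      refine mul_le_mul' ?_ ?_
      · apply ENNReal.ofReal_le_ofReal
        exact pow_le_pow_left₀ (by norm_num) hr.1.le _
      · rw [hI]
        refine lintegral_mono_ae ?_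
        filter_upwards [Pool.Agent.H789R2.FR.sg_ae (2 * ℓ + 1)] with σ hσ
        have h5 : r • σ ∈ Metric.closedBall (0 : Em ℓ) 1 := by
          rw [mem_closedBall_zero_iff, norm_smul, hσ, mul_one, Real.norm_of_nonneg hr0.le]
          exact hr.2
        simp only [hg]
        rw [indicator_of_mem h5]
        simp only [hh]
        refine ENNReal.inv_le_inv.2 (ENNReal.rpow_le_rpow (ENNReal.ofReal_le_ofReal ?_) hα0)
        rw [PiLp.smul_apply, smul_eq_mul, abs_mul, abs_of_pos hr0]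
        exact mul_le_of_le_one_left (abs_nonneg _) hr.2
    · rw [indicator_of_notMem hr]
      exact zero_le
  have h3 := lt_of_le_of_lt h2 h1
  by_contra hc
  rw [not_lt, top_le_iff] at hc
  rw [hc, ENNReal.mul_top] at h3
  · exact lt_irrefl _ h3
  · rw [Ne, ENNReal.ofReal_eq_zero, not_le]
    positivity

/-- the average of the weight over a sphere -/
theorem om_avg (ℓ : ℕ) (R0 : ℝ) (hR0 : 0 ≤ R0) (ε : ℝ) (hε : 0 < ε) :
    ∃ C : ℝ, 0 < C ∧ ∀ θ : ℝ, 0 ≤ θ → θ ≤ 1 → ∀ N : ℝ, 1 ≤ N → ∀ r : ℝ, 0 ≤ r → r ≤ R0 →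
    ∫⁻ σ : Em ℓ, ENNReal.ofReal (om N ((r • σ) 0)) ^ θ ∂(sg (2 * ℓ + 1)) ≤
      ENNReal.ofReal (C * N ^ ε) * ENNReal.ofReal (om N r) ^ θ := by
  set ε' : ℝ := min ε (1 / 2) with hε'
  have hε'0 : 0 < ε' := lt_min hε (by norm_num)
  have hε'1 : ε' ≤ 1 / 2 := min_le_right _ _
  have hε'ε : ε' ≤ ε := min_le_left _ _
  set I : ℝ≥0∞ := ∫⁻ σ : Em ℓ, (ENNReal.ofReal |σ 0| ^ (1 - ε'))⁻¹ ∂(sg (2 * ℓ + 1)) with hI
  have hIt : I < (⊤ : ℝ≥0∞) := sph_int ℓ (by linarith) (by linarith)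
  refine ⟨(1 + R0) * (I.toReal + 1), by positivity, ?_⟩
  intro θ hθ0 hθ1 N hN r hr hrR
  have hN0 : 0 < N := by linarith
  set α : ℝ := max (θ - ε') 0 with hα
  have hα0 : 0 ≤ α := le_max_right _ _
  have hαθ : α ≤ θ := max_le (by linarith) hθ0
  have hαθ' : θ - α ≤ ε' := by
    have := le_max_left (θ - ε') 0
    rw [← hα] at this
    linarith
  have hα1 : α ≤ 1 - ε' := max_le (by linarith) (by linarith)
  have hor := om_pos hN r
  have hpt : ∀ᵐ σ : Em ℓ ∂(sg (2 * ℓ + 1)), ENNReal.ofReal (om N ((r • σ) 0)) ^ θ ≤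
      (ENNReal.ofReal ((1 + R0) * N ^ ε) * ENNReal.ofReal (om N r) ^ θ) *
        (ENNReal.ofReal |σ 0| ^ (1 - ε'))⁻¹ := by
    filter_upwards [Pool.Agent.H789R2.FR.sg_ae (2 * ℓ + 1)] with σ hσ
    have hσ0 : |σ 0| ≤ 1 := by
      have h3 := PiLp.norm_apply_le (p := 2) σ 0
      rw [Real.norm_eq_abs] at h3
      rw [← hσ]
      exact h3
    have ho := om_pos hN ((r • σ) 0)
    have h1 : ENNReal.ofReal (om N ((r • σ) 0)) ^ (θ - α) ≤
        ENNReal.ofReal ((1 + R0) * N ^ ε) * ENNReal.ofReal (om N r) ^ (θ - α) := by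
      rw [ENNReal.ofReal_rpow_of_pos ho, ENNReal.ofReal_rpow_of_pos hor,
        ← ENNReal.ofReal_mul (by positivity)]
      apply ENNReal.ofReal_le_ofReal
      have h2 : om N ((r • σ) 0) ≤ om N r * ((1 + R0) * N) := by
        refine (om_le hN _).trans ?_
        have h3 : 1 ≤ om N r * (1 + R0) := by
          unfold om
          rw [abs_of_nonneg hr, div_mul_eq_mul_div, one_mul, le_div_iff₀ (by positivity)]
          have : 1 / N ≤ 1 := by rw [div_le_one hN0]; exact hN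
          linarith
        nlinarith
      calc om N ((r • σ) 0) ^ (θ - α) ≤ (om N r * ((1 + R0) * N)) ^ (θ - α) :=
            Real.rpow_le_rpow ho.le h2 (by linarith)
        _ = ((1 + R0) ^ (θ - α) * N ^ (θ - α)) * om N r ^ (θ - α) := by
            rw [Real.mul_rpow hor.le (by positivity), Real.mul_rpow (by positivity) hN0.le]
            ring
        _ ≤ _ := by
            refine mul_le_mul_of_nonneg_right (mul_le_mul ?_ ?_ (by positivity) (by positivity))
              (by positivity)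
            · calc (1 + R0) ^ (θ - α) ≤ (1 + R0) ^ (1 : ℝ) :=
                    Real.rpow_le_rpow_of_exponent_le (by linarith) (by linarith)
                _ = _ := Real.rpow_one _
            · exact Real.rpow_le_rpow_of_exponent_le hN (by linarith)
    have h2 : ENNReal.ofReal (om N ((r • σ) 0)) ^ α ≤
        ENNReal.ofReal (om N r) ^ α * (ENNReal.ofReal |σ 0| ^ (1 - ε'))⁻¹ := by
      have h4 : ENNReal.ofReal (om N ((r • σ) 0)) ≤
          ENNReal.ofReal (om N r) * (ENNReal.ofReal |σ 0|)⁻¹ := by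
        rcases (abs_nonneg (σ 0)).eq_or_lt with h0 | h0
        · rw [← h0, ENNReal.ofReal_zero, ENNReal.inv_zero, ENNReal.mul_top]
          · exact le_top
          · rw [Ne, ENNReal.ofReal_eq_zero, not_le]
            exact hor
        · rw [← ENNReal.ofReal_inv_of_pos h0, ← ENNReal.ofReal_mul hor.le]
          apply ENNReal.ofReal_le_ofReal
          unfold om
          rw [PiLp.smul_apply, smul_eq_mul, abs_mul, abs_of_nonneg hr, ← div_eq_mul_inv,
            div_div, div_le_div_iff₀ (by positivity) (by positivity)]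
          have : 0 < 1 / N := by positivity
          nlinarith
      calc ENNReal.ofReal (om N ((r • σ) 0)) ^ α
          ≤ (ENNReal.ofReal (om N r) * (ENNReal.ofReal |σ 0|)⁻¹) ^ α :=
            ENNReal.rpow_le_rpow h4 hα0
        _ = ENNReal.ofReal (om N r) ^ α * (ENNReal.ofReal |σ 0| ^ α)⁻¹ := by
            rw [ENNReal.mul_rpow_of_nonneg _ _ hα0, ENNReal.inv_rpow]
        _ ≤ _ := by
            refine mul_le_mul_right (ENNReal.inv_le_inv.2 ?_) _
            refine ENNReal.rpow_le_rpow_of_exponent_ge ?_ hα1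
            rw [← ENNReal.ofReal_one]
            exact ENNReal.ofReal_le_ofReal hσ0
    calc ENNReal.ofReal (om N ((r • σ) 0)) ^ θ
        = ENNReal.ofReal (om N ((r • σ) 0)) ^ (θ - α) * ENNReal.ofReal (om N ((r • σ) 0)) ^ α := by
          rw [← ENNReal.rpow_add_of_nonneg _ _ (by linarith) hα0, sub_add_cancel]
      _ ≤ (ENNReal.ofReal ((1 + R0) * N ^ ε) * ENNReal.ofReal (om N r) ^ (θ - α)) *
          (ENNReal.ofReal (om N r) ^ α * (ENNReal.ofReal |σ 0| ^ (1 - ε'))⁻¹) :=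
          mul_le_mul' h1 h2
      _ = (ENNReal.ofReal ((1 + R0) * N ^ ε) * (ENNReal.ofReal (om N r) ^ (θ - α) *
          ENNReal.ofReal (om N r) ^ α)) * (ENNReal.ofReal |σ 0| ^ (1 - ε'))⁻¹ := by ring
      _ = _ := by
          rw [← ENNReal.rpow_add_of_nonneg _ _ (by linarith) hα0, sub_add_cancel]
  have hc : ENNReal.ofReal ((1 + R0) * N ^ ε) * ENNReal.ofReal (om N r) ^ θ ≠ (⊤ : ℝ≥0∞) :=
    ENNReal.mul_ne_top ENNReal.ofReal_ne_top
      (ENNReal.rpow_ne_top_of_nonneg hθ0 ENNReal.ofReal_ne_top)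
  calc ∫⁻ σ : Em ℓ, ENNReal.ofReal (om N ((r • σ) 0)) ^ θ ∂(sg (2 * ℓ + 1))
      ≤ ∫⁻ σ : Em ℓ, (ENNReal.ofReal ((1 + R0) * N ^ ε) * ENNReal.ofReal (om N r) ^ θ) *
        (ENNReal.ofReal |σ 0| ^ (1 - ε'))⁻¹ ∂(sg (2 * ℓ + 1)) := lintegral_mono_ae hpt
    _ = (ENNReal.ofReal ((1 + R0) * N ^ ε) * ENNReal.ofReal (om N r) ^ θ) * I :=
        lintegral_const_mul' _ _ hc
    _ ≤ (ENNReal.ofReal ((1 + R0) * N ^ ε) * ENNReal.ofReal (om N r) ^ θ) *
        ENNReal.ofReal (I.toReal + 1) := by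
        refine mul_le_mul_right ?_ _
        rw [← ENNReal.ofReal_toReal hIt.ne]
        apply ENNReal.ofReal_le_ofReal
        rw [ENNReal.toReal_ofReal ENNReal.toReal_nonneg]
        linarith
    _ = _ := by
        rw [mul_right_comm, ← ENNReal.ofReal_mul (by positivity)]
        congr 2
        ring

end Pool.Agent.Helper66K9.LSG
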