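import Pool.Agent.Helper66K9.LSG.Sph
set_option autoImplicit false

/-! # The weighted square estimate in block coordinates -/

namespace Pool.Agent.Helper66K9.LSG

open MeasureTheory Set Filter
open scoped ENNReal FourierTransform RealInnerProductSpace Topology
open Pool.Agent.TH280.LS
open Pool.Agent.H789R2.FR (sg)
open Pool.Agent.Helper66K9.LS (CoordEst Om Om_meas om om_meas om_le om_pos mI lint_pi_prod TM TM_meas TM_L2 Mt Mt_mul
  Mt_meas Sym ae_pi_pos ae_pi_all)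

variable {k ℓ n : ℕ}

theorem prod_enum (I : Finset (Fin k)) (h : Fin k → ℝ≥0∞) :
    ∏ j : Fin I.card, h (I.equivFin.symm j) = ∏ i, if i ∈ I then h i else 1 := by
  rw [Finset.prod_ite_mem, Finset.univ_inter]
  exact (Equiv.prod_comp I.equivFin.symm (fun i : I => h i)).trans (Finset.prod_coe_sort I h)

/-- the weight in block coordinates -/
noncomputable def Ob (I : Finset (Fin k)) (θ N : ℝ) (z : Wm k ℓ n) : ℝ≥0∞ :=
  ∏ i, if i ∈ I then ENNReal.ofReal (om N ‖((am k ℓ n).symm z).1 i‖) ^ θ else 1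

theorem Ob_am (I : Finset (Fin k)) (θ N : ℝ) (q : (Fin k → Em ℓ) × (Fin n → ℝ)) :
    Ob I θ N (am k ℓ n q) = ∏ i, if i ∈ I then ENNReal.ofReal (om N ‖q.1 i‖) ^ θ else 1 := by
  unfold Ob
  rw [MeasurableEquiv.symm_apply_apply]

theorem Ob_meas (I : Finset (Fin k)) (θ N : ℝ) : Measurable (Ob I θ N : Wm k ℓ n → ℝ≥0∞) := by
  have hm : Measurable (fun q : (Fin k → Em ℓ) × (Fin n → ℝ) =>
      ∏ i, if i ∈ I then ENNReal.ofReal (om N ‖q.1 i‖) ^ θ else 1) := by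
    refine Finset.measurable_prod _ fun i _ => ?_
    split_ifs
    · have h1 : Measurable (fun q : (Fin k → Em ℓ) × (Fin n → ℝ) => ‖q.1 i‖) := by fun_prop
      exact ((om_meas N).comp h1).ennreal_ofReal.pow_const θ
    · exact measurable_const
  exact hm.comp (am k ℓ n).symm.measurable

theorem sg_pos' (ℓ : ℕ) : 0 < (sg (2 * ℓ + 1)).real univ :=
  Pool.Agent.H438R2.BR.T7.sg_pos (n := 2 * ℓ + 1) (by omega)

theorem sg_eq' (ℓ : ℕ) : sg (2 * ℓ + 1) univ = ENNReal.ofReal ((sg (2 * ℓ + 1)).real univ) := by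
  rw [Measure.real, ENNReal.ofReal_toReal (measure_ne_top _ _)]

/-- weighted integrals of symmetric functions, the weight depending on the norms -/
theorem lint_Ob {I : Finset (Fin k)} {θ N : ℝ} {f : Wm k ℓ n → ℂ} (hI : Inv f)
    (hm : Measurable f) (p : ℝ) : ∫⁻ z, Ob I θ N z * ‖f z‖ₑ ^ p =
    (sg (2 * ℓ + 1) univ) ^ k * ∫⁻ w, (∏ i, ENNReal.ofReal (w.1 i ^ (2 * ℓ))) *
      ((∏ i, if i ∈ I then ENNReal.ofReal (om N (w.1 i)) ^ θ else 1) * ‖GF f w‖ₑ ^ p)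
      ∂(mH k n) := by
  have hGm := GF_meas hm
  have hXm : Measurable (fun q : (Fin k → Em ℓ) × (Fin n → ℝ) =>
      Ob I θ N (am k ℓ n q) * ‖f (am k ℓ n q)‖ₑ ^ p) :=
    ((Ob_meas I θ N).mul (hm.enorm.pow_const p)).comp (am k ℓ n).measurable
  have hSt : (sg (2 * ℓ + 1) univ) ^ k ≠ (⊤ : ℝ≥0∞) := ENNReal.pow_ne_top (measure_ne_top _ _)
  rw [lint_am, Measure.volume_eq_prod, polar_lint _ _ hXm, ← lintegral_const_mul' _ _ hSt]
  refine lintegral_congr_ae ?_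
  filter_upwards [ae_pi_pos k (volume : Measure (Fin n → ℝ))] with w hw
  have h1 : ∀ᵐ s ∂(Measure.pi fun _ : Fin k => sg (2 * ℓ + 1)),
      Ob I θ N (am k ℓ n ((fun i => w.1 i • s i), w.2)) *
        ‖f (am k ℓ n ((fun i => w.1 i • s i), w.2))‖ₑ ^ p =
      (∏ i, if i ∈ I then ENNReal.ofReal (om N (w.1 i)) ^ θ else 1) * ‖GF f w‖ₑ ^ p := by
    filter_upwards [ae_pi_all (k := k) (Pool.Agent.H789R2.FR.sg_ae (2 * ℓ + 1))] with s hs
    have h3 : ∀ i, ‖w.1 i • s i‖ = w.1 i := by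
      intro i
      rw [norm_smul, hs i, mul_one, Real.norm_of_nonneg (hw i).le]
    rw [Ob_am, hI.eq]
    simp only [h3]
  rw [lintegral_congr_ae h1, lintegral_const, Measure.pi_univ, Finset.prod_const,
    Finset.card_univ, Fintype.card_fin]
  ring

/-- the first coordinates in place of the norms -/
theorem lint_Om_le (k ℓ n : ℕ) (R0 : ℝ) (hR0 : 0 ≤ R0) (ε : ℝ) (hε : 0 < ε) :
    ∃ C : ℝ, 0 < C ∧ ∀ (I : Finset (Fin k)) (θ : ℝ), 0 ≤ θ → θ ≤ 1 → ∀ N : ℝ, 1 ≤ N →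
    ∀ f : Wm k ℓ n → ℂ, Inv f → Measurable f →
    (∀ y x, f (am k ℓ n (y, x)) ≠ 0 → ∀ i ∈ I, ‖y i‖ ≤ R0) →
    ∫⁻ z, Om (fun j : Fin I.card => (Sum.inl ((I.equivFin.symm j : Fin k), 0) :
        (Fin k × Fin (2 * ℓ + 1)) ⊕ Fin n)) θ N z * ‖f z‖ₑ ^ 2 ≤
      ENNReal.ofReal (C * N ^ ε) * ∫⁻ z, Ob I θ N z * ‖f z‖ₑ ^ 2 := by
  set ε1 : ℝ := ε / (k + 1) with hε1
  have hε1p : 0 < ε1 := by positivity
  obtain ⟨C1, hC1, havg⟩ := om_avg ℓ R0 hR0 ε1 hε1p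
  set S : ℝ := (sg (2 * ℓ + 1)).real univ with hS
  have hSp : 0 < S := sg_pos' ℓ
  set D : ℝ := C1 / S + 1 with hD
  have hDp : 0 < D := by positivity
  refine ⟨D ^ k, by positivity, ?_⟩
  intro I θ hθ0 hθ1 N hN f hI hm hsupp
  have hN0 : 0 < N := by linarith
  have hN1 : 1 ≤ N ^ ε1 := Real.one_le_rpow hN hε1p.le
  have hGm := GF_meas hm
  have hOb := lint_Ob (I := I) (θ := θ) (N := N) hI hm 2
  simp only [ENNReal.rpow_two] at hOb
  rw [hOb]
  set e : Fin I.card → Fin k := fun j => (I.equivFin.symm j : Fin k) with he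
  have hOmam : ∀ q : (Fin k → Em ℓ) × (Fin n → ℝ), Om (fun j : Fin I.card =>
      (Sum.inl ((I.equivFin.symm j : Fin k), 0) : (Fin k × Fin (2 * ℓ + 1)) ⊕ Fin n)) θ N
        (am k ℓ n q) = ∏ i, if i ∈ I then ENNReal.ofReal (om N (q.1 i 0)) ^ θ else 1 := by
    intro q
    unfold Om
    exact prod_enum I (fun i => ENNReal.ofReal (om N (q.1 i 0)) ^ θ)
  have hXm : Measurable (fun q : (Fin k → Em ℓ) × (Fin n → ℝ) =>
      Om (fun j : Fin I.card => (Sum.inl ((I.equivFin.symm j : Fin k), 0) :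
        (Fin k × Fin (2 * ℓ + 1)) ⊕ Fin n)) θ N (am k ℓ n q) * ‖f (am k ℓ n q)‖ₑ ^ 2) :=
    ((Om_meas _ θ N).mul (hm.enorm.pow_const 2)).comp (am k ℓ n).measurable
  have hSt : (sg (2 * ℓ + 1) univ) ^ k ≠ (⊤ : ℝ≥0∞) := ENNReal.pow_ne_top (measure_ne_top _ _)
  rw [lint_am, Measure.volume_eq_prod, polar_lint _ _ hXm, ← lintegral_const_mul' _ _ hSt,
    ← lintegral_const_mul' _ _ ENNReal.ofReal_ne_top]
  refine lintegral_mono_ae ?_
  filter_upwards [ae_pi_pos k (volume : Measure (Fin n → ℝ))] with w hw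
  by_cases hz : GF f w = 0
  · have h1 : ∀ᵐ s ∂(Measure.pi fun _ : Fin k => sg (2 * ℓ + 1)),
      Om (fun j : Fin I.card => (Sum.inl ((I.equivFin.symm j : Fin k), 0) :
        (Fin k × Fin (2 * ℓ + 1)) ⊕ Fin n)) θ N (am k ℓ n ((fun i => w.1 i • s i), w.2)) *
        ‖f (am k ℓ n ((fun i => w.1 i • s i), w.2))‖ₑ ^ 2 = 0 := by
      filter_upwards [ae_pi_all (k := k) (Pool.Agent.H789R2.FR.sg_ae (2 * ℓ + 1))] with s hs
      have h3 : ∀ i, ‖w.1 i • s i‖ = w.1 i := by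
        intro i
        rw [norm_smul, hs i, mul_one, Real.norm_of_nonneg (hw i).le]
      rw [hI.eq]
      simp only [h3]
      rw [show ((fun i => w.1 i, w.2) : (Fin k → ℝ) × (Fin n → ℝ)) = w from rfl, hz]
      simp
    rw [lintegral_congr_ae h1]
    simp
  have hwR : ∀ i ∈ I, w.1 i ≤ R0 := by
    intro i hi
    have h1 := hsupp (fun i => w.1 i • em ℓ) w.2 hz i hi
    rw [norm_smul_em, abs_of_pos (hw i)] at h1
    exact h1
  have h1 : ∀ᵐ s ∂(Measure.pi fun _ : Fin k => sg (2 * ℓ + 1)),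
      Om (fun j : Fin I.card => (Sum.inl ((I.equivFin.symm j : Fin k), 0) :
        (Fin k × Fin (2 * ℓ + 1)) ⊕ Fin n)) θ N (am k ℓ n ((fun i => w.1 i • s i), w.2)) *
        ‖f (am k ℓ n ((fun i => w.1 i • s i), w.2))‖ₑ ^ 2 =
      ‖GF f w‖ₑ ^ 2 * ∏ i, (fun (i : Fin k) (σ : Em ℓ) => if i ∈ I then
        ENNReal.ofReal (om N ((w.1 i • σ) 0)) ^ θ else 1) i (s i) := by
    filter_upwards [ae_pi_all (k := k) (Pool.Agent.H789R2.FR.sg_ae (2 * ℓ + 1))] with s hs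
    have h3 : ∀ i, ‖w.1 i • s i‖ = w.1 i := by
      intro i
      rw [norm_smul, hs i, mul_one, Real.norm_of_nonneg (hw i).le]
    rw [hOmam, hI.eq]
    simp only [h3]
    rw [mul_comm]
  have hFm : ∀ i : Fin k, Measurable (fun σ : Em ℓ => if i ∈ I then
        ENNReal.ofReal (om N ((w.1 i • σ) 0)) ^ θ else 1) := by
    intro i
    split_ifs
    · have h2 : Measurable (fun σ : Em ℓ => (w.1 i • σ) 0) := by fun_prop
      exact ((om_meas N).comp h2).ennreal_ofReal.pow_const θ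
    · exact measurable_const
  rw [lintegral_congr_ae h1, lintegral_const_mul' _ _ (ENNReal.pow_ne_top enorm_ne_top),
    lint_pi_prod _ _ _ hFm]
  have h2 : ∀ i : Fin k, ∫⁻ σ : Em ℓ, (if i ∈ I then
        ENNReal.ofReal (om N ((w.1 i • σ) 0)) ^ θ else 1) ∂(sg (2 * ℓ + 1)) ≤
      ENNReal.ofReal (D * N ^ ε1) * (sg (2 * ℓ + 1) univ *
        (if i ∈ I then ENNReal.ofReal (om N (w.1 i)) ^ θ else 1)) := by
    intro i
    split_ifs with hi
    · refine (havg θ hθ0 hθ1 N hN (w.1 i) (hw i).le (hwR i hi)).trans ?_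
      rw [← mul_assoc]
      refine mul_le_mul_left ?_ _
      rw [sg_eq', ← ENNReal.ofReal_mul (by positivity)]
      apply ENNReal.ofReal_le_ofReal
      rw [← hS, hD]
      have : (C1 / S + 1) * N ^ ε1 * S = C1 * N ^ ε1 + N ^ ε1 * S := by field_simp
      rw [this]
      have : 0 ≤ N ^ ε1 * S := by positivity
      linarith
    · rw [lintegral_const, one_mul, mul_one]
      refine le_mul_of_one_le_left zero_le ?_
      rw [← ENNReal.ofReal_one]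
      apply ENNReal.ofReal_le_ofReal
      have h3 : 1 ≤ D := by
        rw [hD]
        have : 0 ≤ C1 / S := by positivity
        linarith
      nlinarith
  calc (∏ i, ENNReal.ofReal (w.1 i ^ (2 * ℓ))) * (‖GF f w‖ₑ ^ 2 * ∏ i : Fin k,
        ∫⁻ σ : Em ℓ, (if i ∈ I then ENNReal.ofReal (om N ((w.1 i • σ) 0)) ^ θ else 1)
          ∂(sg (2 * ℓ + 1)))
      ≤ (∏ i, ENNReal.ofReal (w.1 i ^ (2 * ℓ))) * (‖GF f w‖ₑ ^ 2 * ∏ i : Fin k,
        (ENNReal.ofReal (D * N ^ ε1) * (sg (2 * ℓ + 1) univ *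
        (if i ∈ I then ENNReal.ofReal (om N (w.1 i)) ^ θ else 1)))) := by
        gcongr with i _
        exact h2 i
    _ = ENNReal.ofReal (D * N ^ ε1) ^ k * ((sg (2 * ℓ + 1) univ) ^ k *
        ((∏ i, ENNReal.ofReal (w.1 i ^ (2 * ℓ))) * ((∏ i, if i ∈ I then
          ENNReal.ofReal (om N (w.1 i)) ^ θ else 1) * ‖GF f w‖ₑ ^ 2))) := by
        rw [Finset.prod_mul_distrib, Finset.prod_mul_distrib, Finset.prod_const,
          Finset.prod_const, Finset.card_univ, Fintype.card_fin]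
        ring
    _ ≤ _ := by
        refine mul_le_mul_left ?_ _
        rw [← ENNReal.ofReal_pow (by positivity)]
        apply ENNReal.ofReal_le_ofReal
        rw [mul_pow]
        refine mul_le_mul_of_nonneg_left ?_ (by positivity)
        rw [← Real.rpow_natCast (N ^ ε1) k, ← Real.rpow_mul hN0.le]
        apply Real.rpow_le_rpow_of_exponent_le hN
        rw [hε1, div_mul_eq_mul_div, div_le_iff₀ (by positivity)]
        nlinarith

theorem Ob_le_Om (I : Finset (Fin k)) {θ N : ℝ} (hθ0 : 0 ≤ θ) (hN : 1 ≤ N) (z : Wm k ℓ n) :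
    Ob I θ N z ≤ Om (fun j : Fin I.card => (Sum.inl ((I.equivFin.symm j : Fin k), 0) :
        (Fin k × Fin (2 * ℓ + 1)) ⊕ Fin n)) θ N z := by
  obtain ⟨q, rfl⟩ := (am k ℓ n).surjective z
  have h1 : Om (fun j : Fin I.card => (Sum.inl ((I.equivFin.symm j : Fin k), 0) :
      (Fin k × Fin (2 * ℓ + 1)) ⊕ Fin n)) θ N
        (am k ℓ n q) = ∏ i, if i ∈ I then ENNReal.ofReal (om N (q.1 i 0)) ^ θ else 1 := by
    unfold Om
    exact prod_enum I (fun i => ENNReal.ofReal (om N (q.1 i 0)) ^ θ)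
  rw [h1, Ob_am]
  refine Finset.prod_le_prod' fun i _ => ?_
  split_ifs
  · refine ENNReal.rpow_le_rpow (ENNReal.ofReal_le_ofReal ?_) hθ0
    have h3 := PiLp.norm_apply_le (p := 2) (q.1 i) 0
    rw [Real.norm_eq_abs] at h3
    have hN0 : 0 < N := by linarith
    unfold om
    rw [abs_norm]
    apply one_div_le_one_div_of_le (by positivity)
    linarith
  · exact le_rfl

/-- the weighted square estimate -/
theorem wt_G (hDUAL : S_DUAL) (hW : S_W) (k ℓ n : ℕ) (hd : 2 ≤ k * (2 * ℓ + 1) + n)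
    (I : Finset (Fin k)) (θ : ℝ) (hθ0 : 0 ≤ θ) (hθ1 : θ ≤ 1) (hθ : I.card * θ ≤ 1) (R0 : ℝ)
    (hR0 : 0 ≤ R0) (ε : ℝ) (hε : 0 < ε) : ∃ C : ℝ, 0 < C ∧ ∀ (N A : ℝ) (Ψ : ℝ → ℝ), 1 ≤ N →
    Sym N A Ψ → ∀ f : Wm k ℓ n → ℂ, Inv f → Integrable f → Measurable f →
    (∀ y x, f (am k ℓ n (y, x)) ≠ 0 → ∀ i ∈ I, ‖y i‖ ≤ R0) →
    ∫⁻ t in Icc (-2 : ℝ) 2, ∫⁻ z, Ob I θ N z * ‖TM (Mt Ψ t) f z‖ₑ ^ 2 ≤
      ENNReal.ofReal (C * A ^ 2 * N ^ ε) * ∫⁻ z, Ob I θ N z * ‖f z‖ₑ ^ 2 := by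
  obtain ⟨C1, hC1, h1⟩ := P_weight' hDUAL hW (ι := (Fin k × Fin (2 * ℓ + 1)) ⊕ Fin n)
    (by simpa using hd) (fun j : Fin I.card => (Sum.inl ((I.equivFin.symm j : Fin k), 0) :
      (Fin k × Fin (2 * ℓ + 1)) ⊕ Fin n)) θ hθ0 hθ R0 hR0 (ε / 2) (by positivity)
  obtain ⟨C2, hC2, h2⟩ := lint_Om_le k ℓ n R0 hR0 (ε / 2) (by positivity)
  refine ⟨C1 * C2, by positivity, ?_⟩
  intro N A Ψ hN hS f hI hf hm hsupp
  have hN0 : 0 < N := by linarith
  calc ∫⁻ t in Icc (-2 : ℝ) 2, ∫⁻ z, Ob I θ N z * ‖TM (Mt Ψ t) f z‖ₑ ^ 2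
      ≤ ∫⁻ t in Icc (-2 : ℝ) 2, ∫⁻ z, Om (fun j : Fin I.card =>
        (Sum.inl ((I.equivFin.symm j : Fin k), 0) :
        (Fin k × Fin (2 * ℓ + 1)) ⊕ Fin n)) θ N z * ‖TM (Mt Ψ t) f z‖ₑ ^ 2 := by
        refine lintegral_mono fun t => lintegral_mono fun z => ?_
        exact mul_le_mul' (Ob_le_Om I hθ0 hN z) le_rfl
    _ ≤ ENNReal.ofReal (C1 * A ^ 2 * N ^ (ε / 2)) * ∫⁻ z, Om (fun j : Fin I.card =>
        (Sum.inl ((I.equivFin.symm j : Fin k), 0) :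
        (Fin k × Fin (2 * ℓ + 1)) ⊕ Fin n)) θ N z * ‖f z‖ₑ ^ 2 := by
        refine h1 N A Ψ hN hS f hf hm ?_
        intro w hw j
        obtain ⟨q, rfl⟩ := (am k ℓ n).surjective w
        have h3 := hsupp q.1 q.2 hw (I.equivFin.symm j : Fin k) (I.equivFin.symm j).2
        have h4 := PiLp.norm_apply_le (p := 2) (q.1 (I.equivFin.symm j : Fin k)) 0
        rw [Real.norm_eq_abs] at h4
        exact h4.trans h3
    _ ≤ ENNReal.ofReal (C1 * A ^ 2 * N ^ (ε / 2)) * (ENNReal.ofReal (C2 * N ^ (ε / 2)) *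
        ∫⁻ z, Ob I θ N z * ‖f z‖ₑ ^ 2) :=
        mul_le_mul_right (h2 I θ hθ0 hθ1 N hN f hI hm hsupp) _
    _ = _ := by
        rw [← mul_assoc, ← ENNReal.ofReal_mul (by positivity)]
        congr 2
        have h5 : N ^ ε = N ^ (ε / 2) * N ^ (ε / 2) := by
          rw [← Real.rpow_add hN0]
          congr 1
          ring
        rw [h5]
        ring

end Pool.Agent.Helper66K9.LSG
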